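import Pool.Agent.Lib_helper45.SGD.Defs

/-!
# Block KB: the kernels
-/

set_option autoImplicit false

namespace Pool.Agent.SGD

open Complex MeasureTheory Filter Topology
open Pool.Agent.SQS (hat)
open Pool.Agent.ABS (LData Nice oddZ win)
open scoped ENNReal

theorem kb_exp {c : ℝ} (hc : 0 < c) : Integrable (fun y : ℝ => Real.exp (-(c * |y|))) ∧
    ∫ y : ℝ, Real.exp (-(c * |y|)) = 2 / c := by
  have h1 : IntegrableOn (fun u : ℝ => Real.exp (-(c * |u|))) (Set.Ioi 0) := by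
    have h := integrableOn_exp_mul_Ioi (a := -c) (by linarith) 0
    refine h.congr_fun (fun u hu => ?_) measurableSet_Ioi
    have hu' : 0 < u := hu
    simp only [abs_of_pos hu']
    ring_nf
  have h2 : IntegrableOn (fun u : ℝ => Real.exp (-(c * |u|))) (Set.Iic 0) := by
    have h := integrableOn_exp_mul_Iic (a := c) hc 0
    refine h.congr_fun (fun u hu => ?_) measurableSet_Iic
    have hu' : u ≤ 0 := hu
    simp only [abs_of_nonpos hu']
    ring_nf
  have h3 := h2.union h1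
  rw [Set.Iic_union_Ioi, integrableOn_univ] at h3
  refine ⟨h3, ?_⟩
  rw [integral_comp_abs (f := fun x => Real.exp (-(c * x)))]
  have h4 := integral_exp_mul_Ioi (a := -c) (by linarith) 0
  have h5 : (∫ x in Set.Ioi (0 : ℝ), Real.exp (-(c * x))) =
      ∫ x in Set.Ioi (0 : ℝ), Real.exp (-c * x) := by
    refine setIntegral_congr_fun measurableSet_Ioi fun x _ => ?_
    simp only [neg_mul]
  rw [h5, h4, mul_zero, Real.exp_zero]
  field_simp

theorem kb_E (p : Par) : p.E = fun y : ℝ => Real.exp (-(p.κ / 2 * |y|)) := rfl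

theorem N_ge (p : Par) : 64 * (p.A + 3) ≤ p.N := by
  have h1 := p.hA
  have h2 := p.hκ'
  have h3 := p.hκ'1
  unfold Par.N
  rw [le_div_iff₀ h2]
  nlinarith

theorem G0_facts {N : ℝ} (hN : 1 ≤ N) : Continuous (G0 N) ∧ ∀ v : ℝ, 0 < G0 N v ∧ G0 N v ≤ 1 ∧
    G0 N v ≤ Real.exp (-(N * v)) ∧ G0 N v ≤ Real.exp (-(|v| / 4)) := by
  constructor
  · unfold G0
    apply Continuous.if_le (by fun_prop) (by fun_prop) continuous_const continuous_id
    intro x hx
    simp only [id_eq] at hx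
    rw [← hx]
    simp
  · intro v
    unfold G0
    split_ifs with h
    · refine ⟨Real.exp_pos _, ?_, le_refl _, ?_⟩
      · rw [Real.exp_le_one_iff]
        nlinarith
      · rw [Real.exp_le_exp, abs_of_nonneg h]
        nlinarith
    · rw [not_le] at h
      refine ⟨Real.exp_pos _, ?_, ?_, ?_⟩
      · rw [Real.exp_le_one_iff]
        linarith
      · rw [Real.exp_le_exp]
        nlinarith
      · rw [Real.exp_le_exp, abs_of_neg h]
        linarith

theorem k_le (p : Par) {N : ℝ} (hN : 1 ≤ N) : ∃ C : ℝ, 0 < C ∧ ∀ k : ℝ → ℂ,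
    (∀ B : ℝ, -p.κ ≤ B → ∀ v : ℝ, ‖k v‖ ≤ p.M N B * Real.exp (-(B * v))) →
    ∀ v : ℝ, ‖k v‖ ≤ C * Real.exp (-(p.κ * |v|)) := by
  have hκ := p.hκ
  refine ⟨|p.M N p.κ| + |p.M N (-p.κ)| + 1, by positivity, fun k hk v => ?_⟩
  have h1 := le_abs_self (p.M N p.κ)
  have h2 := le_abs_self (p.M N (-p.κ))
  have h3 := abs_nonneg (p.M N p.κ)
  have h4 := abs_nonneg (p.M N (-p.κ))
  rcases le_total 0 v with h | h
  · refine (hk p.κ (by linarith) v).trans ?_
    rw [abs_of_nonneg h]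
    exact mul_le_mul_of_nonneg_right (by linarith) (Real.exp_pos _).le
  · refine (hk (-p.κ) le_rfl v).trans ?_
    rw [abs_of_nonpos h]
    have : -(-p.κ * v) = -(p.κ * -v) := by ring
    rw [this]
    exact mul_le_mul_of_nonneg_right (by linarith) (Real.exp_pos _).le

theorem exp_int (p : Par) : Integrable (fun y : ℝ => Real.exp (-(p.κ * |y|))) ∧
    ∫ y : ℝ, Real.exp (-(p.κ * |y|)) = 2 / p.κ ∧ Integrable p.E ∧ ∫ y : ℝ, p.E y = 4 / p.κ := by
  have hκ := p.hκ
  obtain ⟨h1, h2⟩ := kb_exp hκ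
  obtain ⟨h3, h4⟩ := kb_exp (half_pos hκ)
  refine ⟨h1, h2, ?_, ?_⟩
  · rw [kb_E]; exact h3
  · rw [kb_E]
    simp only
    rw [h4]
    field_simp
    norm_num

theorem E_conv (p : Par) {N : ℝ} (hN : 1 ≤ N) : ∃ C : ℝ, 0 < C ∧ ∀ v : ℝ,
    Integrable (fun y : ℝ => Real.exp (-(p.κ * |y|)) * G0 N (v - y) ^ 2) ∧
    ∫ y : ℝ, Real.exp (-(p.κ * |y|)) * G0 N (v - y) ^ 2 ≤ C * p.E v := by
  have hκ := p.hκ
  have hκ1 := p.hκ1
  obtain ⟨hc, hG⟩ := G0_facts hN
  obtain ⟨h3, h4⟩ := kb_exp (half_pos hκ)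
  have key : ∀ v y : ℝ, Real.exp (-(p.κ * |y|)) * G0 N (v - y) ^ 2 ≤
      p.E v * Real.exp (-(p.κ / 2 * |y|)) := by
    intro v y
    obtain ⟨g1, -, -, g4⟩ := hG (v - y)
    have h5 : G0 N (v - y) ^ 2 ≤ Real.exp (-(|v - y| / 4)) ^ 2 :=
      pow_le_pow_left₀ g1.le g4 2
    have h6 : |v| ≤ |v - y| + |y| := by
      have := abs_add_le (v - y) y
      rwa [sub_add_cancel] at this
    have h7 := abs_nonneg (v - y)
    have h8 := abs_nonneg y
    calc Real.exp (-(p.κ * |y|)) * G0 N (v - y) ^ 2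
        ≤ Real.exp (-(p.κ * |y|)) * Real.exp (-(|v - y| / 4)) ^ 2 :=
          mul_le_mul_of_nonneg_left h5 (Real.exp_pos _).le
      _ = Real.exp (-(p.κ * |y|) - |v - y| / 2) := by
          rw [← Real.exp_nat_mul, ← Real.exp_add]
          congr 1
          push_cast
          ring
      _ ≤ Real.exp (-(p.κ / 2 * |v|) + -(p.κ / 2 * |y|)) := by
          rw [Real.exp_le_exp]
          nlinarith
      _ = p.E v * Real.exp (-(p.κ / 2 * |y|)) := by rw [Real.exp_add, kb_E]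
  refine ⟨4 / p.κ, by positivity, fun v => ?_⟩
  have hi : Integrable (fun y : ℝ => Real.exp (-(p.κ * |y|)) * G0 N (v - y) ^ 2) := by
    refine Integrable.mono' (h3.const_mul (p.E v)) ?_ (ae_of_all _ fun y => ?_)
    · apply Continuous.aestronglyMeasurable
      have : Continuous fun y : ℝ => G0 N (v - y) := hc.comp (by fun_prop)
      exact (by fun_prop : Continuous fun y : ℝ => Real.exp (-(p.κ * |y|))).mul (this.pow 2)
    · rw [Real.norm_of_nonneg (by positivity)]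
      exact key v y
  refine ⟨hi, ?_⟩
  calc ∫ y : ℝ, Real.exp (-(p.κ * |y|)) * G0 N (v - y) ^ 2
      ≤ ∫ y : ℝ, p.E v * Real.exp (-(p.κ / 2 * |y|)) :=
        integral_mono hi (h3.const_mul (p.E v)) fun y => key v y
    _ = 4 / p.κ * p.E v := by
        rw [integral_const_mul, h4]
        field_simp
        norm_num

end Pool.Agent.SGD
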