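import Pool.Agent.Lib_helper45.SGD.Defs
import Pool.Agent.Lib_helper45.SGDF.KB

/-!
# SGN part D, core, block KC: Dirichlet series of densities (helper88)
-/

set_option autoImplicit false

namespace Pool.Agent.SGD

open Complex MeasureTheory Filter Topology
open Pool.Agent.SQS (hat)
open Pool.Agent.ABS (LData Nice oddZ win)
open scoped ENNReal

theorem kc_hasSum : ∃ S : ℝ, S ≤ 2 ∧ HasSum (fun m : ℕ => (1 : ℝ) / ((m : ℝ) + 1) ^ 2) S := by
  have h := hasSum_zeta_two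
  have h1 : HasSum (fun m : ℕ => (1 : ℝ) / (((m + 1 : ℕ) : ℝ)) ^ 2) (Real.pi ^ 2 / 6) := by
    have := (hasSum_nat_add_iff' (f := fun n : ℕ => (1 : ℝ) / (n : ℝ) ^ 2) 1).2 h
    simpa using this
  refine ⟨Real.pi ^ 2 / 6, ?_, ?_⟩
  · have hp := Real.pi_lt_d2
    have hp0 := Real.pi_pos
    nlinarith
  · refine h1.congr_fun ?_ |> fun h => h
    intro m
    push_cast
    ring

theorem kc_summable : Summable (fun m : ℕ => (1 : ℝ) / ((m : ℝ) + 1) ^ 2) := by
  obtain ⟨S, _, h⟩ := kc_hasSum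
  exact h.summable

theorem kc_tsum_le : ∑' m : ℕ, (1 : ℝ) / ((m : ℝ) + 1) ^ 2 ≤ 2 := by
  obtain ⟨S, h1, h⟩ := kc_hasSum
  rw [h.tsum_eq]; exact h1

/-- the bound of one term -/
theorem kc_term {A B C : ℝ} (hB : A + 2 ≤ B) {lam : ℕ → ℂ} {g : ℝ → ℂ}
    (hlam : ∀ m : ℕ, 1 ≤ m → ‖lam m‖ ≤ (m : ℝ) ^ A)
    (hg : ∀ v : ℝ, ‖g v‖ ≤ C * Real.exp (-(B * v))) (v : ℝ) (m : ℕ) :
    ‖lam (m + 1) * (((m : ℝ) + 1) ^ (-(1 / 2) : ℝ) : ℝ) * g (v + Real.log (m + 1))‖ ≤
      C * Real.exp (-(B * v)) * (1 / ((m : ℝ) + 1) ^ 2) := by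
  have hm : (0 : ℝ) < (m : ℝ) + 1 := by positivity
  have hm1 : (1 : ℝ) ≤ (m : ℝ) + 1 := by
    have : (0 : ℝ) ≤ (m : ℝ) := Nat.cast_nonneg m
    linarith
  have hC : 0 ≤ C := by
    have h := hg 0
    have h0 := norm_nonneg (g 0)
    simp at h
    linarith
  have h1 : ‖lam (m + 1)‖ ≤ ((m : ℝ) + 1) ^ A := by
    have := hlam (m + 1) (by omega)
    push_cast at this
    exact this
  have h2 := hg (v + Real.log (m + 1))
  have h3 : ‖((((m : ℝ) + 1) ^ (-(1 / 2) : ℝ) : ℝ) : ℂ)‖ = ((m : ℝ) + 1) ^ (-(1 / 2) : ℝ) := by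
    rw [Complex.norm_real, Real.norm_of_nonneg (Real.rpow_nonneg hm.le _)]
  rw [norm_mul, norm_mul, h3]
  have h4 : Real.exp (-(B * (v + Real.log (m + 1)))) =
      Real.exp (-(B * v)) * ((m : ℝ) + 1) ^ (-B) := by
    rw [Real.rpow_def_of_pos hm, ← Real.exp_add]
    congr 1
    ring
  rw [h4] at h2
  calc ‖lam (m + 1)‖ * ((m : ℝ) + 1) ^ (-(1 / 2) : ℝ) * ‖g (v + Real.log (m + 1))‖
      ≤ ((m : ℝ) + 1) ^ A * ((m : ℝ) + 1) ^ (-(1 / 2) : ℝ) *
        (C * (Real.exp (-(B * v)) * ((m : ℝ) + 1) ^ (-B))) := by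
        gcongr
    _ = C * Real.exp (-(B * v)) * (((m : ℝ) + 1) ^ (A + -(1 / 2) + -B)) := by
        rw [Real.rpow_add hm, Real.rpow_add hm]
        ring
    _ ≤ C * Real.exp (-(B * v)) * (((m : ℝ) + 1) ^ (-2 : ℝ)) := by
        refine mul_le_mul_of_nonneg_left ?_ (mul_nonneg hC (Real.exp_pos _).le)
        exact Real.rpow_le_rpow_of_exponent_le hm1 (by linarith)
    _ = C * Real.exp (-(B * v)) * (1 / ((m : ℝ) + 1) ^ 2) := by
        congr 1
        rw [Real.rpow_neg hm.le, one_div]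
        congr 1
        exact_mod_cast Real.rpow_natCast ((m : ℝ) + 1) 2

theorem DD0_bound {A B C : ℝ} (hA : 0 ≤ A) (hB : A + 2 ≤ B) {lam : ℕ → ℂ} {g : ℝ → ℂ}
    (hlam : ∀ m : ℕ, 1 ≤ m → ‖lam m‖ ≤ (m : ℝ) ^ A)
    (hg : ∀ v : ℝ, ‖g v‖ ≤ C * Real.exp (-(B * v))) (v : ℝ) :
    Summable (fun m : ℕ => ‖lam (m + 1) * (((m : ℝ) + 1) ^ (-(1 / 2) : ℝ) : ℝ) *
      g (v + Real.log (m + 1))‖) ∧
    ‖DD0 lam g v‖ ≤ 2 * C * Real.exp (-(B * v)) := by
  have hC : 0 ≤ C := by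
    have h := hg 0
    have h0 := norm_nonneg (g 0)
    simp at h
    linarith
  have hs2 : Summable (fun m : ℕ => C * Real.exp (-(B * v)) * (1 / ((m : ℝ) + 1) ^ 2)) :=
    kc_summable.mul_left _
  have hs : Summable (fun m : ℕ => ‖lam (m + 1) * (((m : ℝ) + 1) ^ (-(1 / 2) : ℝ) : ℝ) *
      g (v + Real.log (m + 1))‖) :=
    Summable.of_nonneg_of_le (fun m => norm_nonneg _) (fun m => kc_term hB hlam hg v m) hs2
  refine ⟨hs, ?_⟩
  unfold DD0
  calc ‖∑' m : ℕ, lam (m + 1) * (((m : ℝ) + 1) ^ (-(1 / 2) : ℝ) : ℝ) * g (v + Real.log (m + 1))‖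
      ≤ ∑' m : ℕ, ‖lam (m + 1) * (((m : ℝ) + 1) ^ (-(1 / 2) : ℝ) : ℝ) *
        g (v + Real.log (m + 1))‖ := norm_tsum_le_tsum_norm hs
    _ ≤ ∑' m : ℕ, C * Real.exp (-(B * v)) * (1 / ((m : ℝ) + 1) ^ 2) :=
        hs.tsum_le_tsum (fun m => kc_term hB hlam hg v m) hs2
    _ = C * Real.exp (-(B * v)) * ∑' m : ℕ, (1 : ℝ) / ((m : ℝ) + 1) ^ 2 := tsum_mul_left
    _ ≤ C * Real.exp (-(B * v)) * 2 :=
        mul_le_mul_of_nonneg_left kc_tsum_le (mul_nonneg hC (Real.exp_pos _).le)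
    _ = 2 * C * Real.exp (-(B * v)) := by ring

theorem DD0_cont {A B C : ℝ} (hA : 0 ≤ A) (hB : A + 2 ≤ B) {lam : ℕ → ℂ} {g : ℝ → ℂ}
    (hlam : ∀ m : ℕ, 1 ≤ m → ‖lam m‖ ≤ (m : ℝ) ^ A) (hgc : Continuous g)
    (hg : ∀ v : ℝ, ‖g v‖ ≤ C * Real.exp (-(B * v))) : Continuous (DD0 lam g) := by
  have hC : 0 ≤ C := by
    have h := hg 0
    have h0 := norm_nonneg (g 0)
    simp at h
    linarith
  rw [continuous_iff_continuousAt]
  intro v₀
  have hon : ContinuousOn (DD0 lam g) (Set.Ioi (v₀ - 1)) := by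
    unfold DD0
    refine continuousOn_tsum (u := fun m : ℕ => C * Real.exp (-(B * (v₀ - 1))) *
      (1 / ((m : ℝ) + 1) ^ 2)) ?_ (kc_summable.mul_left _) ?_
    · intro m
      refine Continuous.continuousOn ?_
      exact continuous_const.mul (hgc.comp (continuous_id.add continuous_const))
    · intro m v hv
      refine (kc_term hB hlam hg v m).trans ?_
      have hv' : v₀ - 1 < v := hv
      have : Real.exp (-(B * v)) ≤ Real.exp (-(B * (v₀ - 1))) := by
        apply Real.exp_le_exp.2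
        have hB0 : 0 ≤ B := by linarith
        nlinarith
      gcongr
  exact hon.continuousAt (Ioi_mem_nhds (by linarith))

/-- integrability of the dominating function -/
theorem kc_int {N κ C : ℝ} (hN : 0 ≤ N) (hκ : 0 < κ) {k : ℝ → ℂ} (hk : Continuous k)
    (hk1 : ∀ v : ℝ, ‖k v‖ ≤ C * Real.exp (κ * v))
    (hk2 : ∀ v : ℝ, ‖k v‖ ≤ C * Real.exp (-((N + 1) * v))) :
    Integrable (fun y : ℝ => ‖k y‖ * Real.exp (N * y)) := by
  have hC : 0 ≤ C := by
    have h := hk1 0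
    have h0 := norm_nonneg (k 0)
    simp at h
    linarith
  have hcont : Continuous (fun y : ℝ => ‖k y‖ * Real.exp (N * y)) := by fun_prop
  rw [← integrableOn_univ, ← Set.Iic_union_Ioi (a := (0 : ℝ))]
  refine IntegrableOn.union ?_ ?_
  · have h1 : IntegrableOn (fun y : ℝ => C * Real.exp (κ * y)) (Set.Iic 0) :=
      (integrableOn_exp_mul_Iic hκ 0).const_mul C
    refine Integrable.mono' h1 hcont.aestronglyMeasurable ?_
    rw [ae_restrict_iff' measurableSet_Iic]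
    refine Filter.Eventually.of_forall fun y hy => ?_
    have hy' : y ≤ 0 := hy
    rw [Real.norm_of_nonneg (by positivity)]
    have h2 : Real.exp (N * y) ≤ 1 := by
      rw [← Real.exp_zero]
      apply Real.exp_le_exp.2
      nlinarith
    calc ‖k y‖ * Real.exp (N * y) ≤ (C * Real.exp (κ * y)) * 1 :=
          mul_le_mul (hk1 y) h2 (Real.exp_pos _).le (by positivity)
      _ = C * Real.exp (κ * y) := mul_one _
  · have h1 : IntegrableOn (fun y : ℝ => C * Real.exp (-y)) (Set.Ioi 0) :=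
      (integrableOn_exp_neg_Ioi 0).const_mul C
    refine Integrable.mono' h1 hcont.aestronglyMeasurable ?_
    refine Filter.Eventually.of_forall fun y => ?_
    rw [Real.norm_of_nonneg (by positivity)]
    calc ‖k y‖ * Real.exp (N * y) ≤ (C * Real.exp (-((N + 1) * y))) * Real.exp (N * y) :=
          mul_le_mul_of_nonneg_right (hk2 y) (Real.exp_pos _).le
      _ = C * Real.exp (-y) := by
          rw [mul_assoc, ← Real.exp_add]
          congr 2
          ring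

theorem DD0_conv {A N κ C : ℝ} (hA : 0 ≤ A) (hN : A + 2 ≤ N) (hκ : 0 < κ) {lam : ℕ → ℂ}
    {g k : ℝ → ℂ} (hlam : ∀ m : ℕ, 1 ≤ m → ‖lam m‖ ≤ (m : ℝ) ^ A) (hk : Continuous k)
    (hk1 : ∀ v : ℝ, ‖k v‖ ≤ C * Real.exp (κ * v))
    (hk2 : ∀ v : ℝ, ‖k v‖ ≤ C * Real.exp (-((N + 1) * v)))
    (hg : ∀ v : ℝ, g v = ∫ y : ℝ, k y * gz N (v - y)) (v : ℝ) :
    Integrable (fun y : ℝ => k y * DD0 lam (gz N) (v - y)) ∧
    DD0 lam g v = ∫ y : ℝ, k y * DD0 lam (gz N) (v - y) := by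
  have hN1 : 1 ≤ N := by linarith
  obtain ⟨hG0c, hG0⟩ := G0_facts hN1
  have hgzc : Continuous (gz N) := Complex.continuous_ofReal.comp hG0c
  have hgz : ∀ w : ℝ, ‖gz N w‖ ≤ 1 * Real.exp (-(N * w)) := by
    intro w
    unfold gz
    rw [Complex.norm_real, Real.norm_of_nonneg (hG0 w).1.le, one_mul]
    exact (hG0 w).2.2.1
  have hKint := kc_int (N := N) (by linarith) hκ hk hk1 hk2
  have hDc : Continuous (DD0 lam (gz N)) := DD0_cont hA hN hlam hgzc hgz
  have hbd : ∀ y : ℝ, ∀ c : ℝ, Real.exp (-(N * (v - y))) = Real.exp (N * y) *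
      Real.exp (-(N * v)) := by
    intro y _
    rw [← Real.exp_add]
    congr 1
    ring
  constructor
  · refine Integrable.mono' (hKint.mul_const (2 * Real.exp (-(N * v)))) ?_ ?_
    · have : Continuous (fun y : ℝ => k y * DD0 lam (gz N) (v - y)) :=
        hk.mul (hDc.comp (continuous_const.sub continuous_id))
      exact this.aestronglyMeasurable
    · refine Filter.Eventually.of_forall fun y => ?_
      rw [norm_mul]
      have h1 := (DD0_bound hA hN hlam hgz (v - y)).2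
      rw [hbd y 0] at h1
      calc ‖k y‖ * ‖DD0 lam (gz N) (v - y)‖
          ≤ ‖k y‖ * (2 * 1 * (Real.exp (N * y) * Real.exp (-(N * v)))) :=
            mul_le_mul_of_nonneg_left h1 (norm_nonneg _)
        _ = ‖k y‖ * Real.exp (N * y) * (2 * Real.exp (-(N * v))) := by ring
  · set F : ℕ → ℝ → ℂ := fun m y => k y * (lam (m + 1) * (((m : ℝ) + 1) ^ (-(1 / 2) : ℝ) : ℝ) *
      gz N ((v - y) + Real.log (m + 1))) with hF
    have hFc : ∀ m, Continuous (F m) := by
      intro m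
      refine hk.mul (continuous_const.mul (hgzc.comp ?_))
      exact (continuous_const.sub continuous_id).add continuous_const
    have hFb : ∀ m y, ‖F m y‖ ≤ ‖k y‖ * Real.exp (N * y) *
        (Real.exp (-(N * v)) * (1 / ((m : ℝ) + 1) ^ 2)) := by
      intro m y
      have h1 := kc_term hN hlam hgz (v - y) m
      rw [hbd y 0] at h1
      rw [hF]
      simp only
      rw [norm_mul]
      calc ‖k y‖ * ‖lam (m + 1) * (((m : ℝ) + 1) ^ (-(1 / 2) : ℝ) : ℝ) *
            gz N ((v - y) + Real.log (m + 1))‖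
          ≤ ‖k y‖ * (1 * (Real.exp (N * y) * Real.exp (-(N * v))) * (1 / ((m : ℝ) + 1) ^ 2)) :=
            mul_le_mul_of_nonneg_left h1 (norm_nonneg _)
        _ = _ := by ring
    have hFi : ∀ m, Integrable (F m) := fun m =>
      Integrable.mono' (hKint.mul_const _) (hFc m).aestronglyMeasurable
        (Filter.Eventually.of_forall (hFb m))
    have hFs : Summable fun m => ∫ y, ‖F m y‖ := by
      refine Summable.of_nonneg_of_le (fun m => integral_nonneg fun y => norm_nonneg _) (fun m => ?_)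
        ((kc_summable.mul_left (Real.exp (-(N * v)))).mul_left
          (∫ y, ‖k y‖ * Real.exp (N * y)))
      calc ∫ y, ‖F m y‖ ≤ ∫ y, ‖k y‖ * Real.exp (N * y) *
            (Real.exp (-(N * v)) * (1 / ((m : ℝ) + 1) ^ 2)) :=
            integral_mono (hFi m).norm (hKint.mul_const _) (hFb m)
        _ = (∫ y, ‖k y‖ * Real.exp (N * y)) * (Real.exp (-(N * v)) * (1 / ((m : ℝ) + 1) ^ 2)) :=
            integral_mul_const _ _
    have hsum := hasSum_integral_of_summable_integral_norm hFi hFs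
    have h1 : ∀ m : ℕ, ∫ y, F m y = lam (m + 1) * (((m : ℝ) + 1) ^ (-(1 / 2) : ℝ) : ℝ) *
        g (v + Real.log (m + 1)) := by
      intro m
      rw [hg (v + Real.log (m + 1)), ← integral_const_mul]
      congr 1
      funext y
      rw [hF]
      simp only
      have : v - y + Real.log ((m : ℝ) + 1) = v + Real.log ((m : ℝ) + 1) - y := by ring
      rw [this]
      ring
    have h2 : ∀ y : ℝ, ∑' m, F m y = k y * DD0 lam (gz N) (v - y) := by
      intro y
      unfold DD0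
      rw [← tsum_mul_left]
    calc DD0 lam g v = ∑' m : ℕ, ∫ y, F m y := by
          unfold DD0
          exact tsum_congr fun m => (h1 m).symm
      _ = ∫ y, ∑' m, F m y := hsum.tsum_eq
      _ = ∫ y : ℝ, k y * DD0 lam (gz N) (v - y) := by
          congr 1
          funext y
          exact h2 y

end Pool.Agent.SGD
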