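import Pool.Agent.Lib_helper45.SGD.Defs
import Pool.Agent.Lib_helper45.SGDF.KC

/-!
# SGN part D, core: block KL
-/

set_option autoImplicit false

namespace Pool.Agent.SGD

open Complex MeasureTheory Filter Topology
open Pool.Agent.SQS (hat)
open Pool.Agent.ABS (LData Nice oddZ win)
open scoped ENNReal

theorem kl_bound (p : Par) {B : ℝ} (hB : p.A + 2 ≤ B) {lam : ℕ → ℂ} {g : ℝ → ℂ}
    (hlam : ∀ m : ℕ, 1 ≤ m → ‖lam m‖ ≤ (m : ℝ) ^ p.A) (hg : p.GC g) (v : ℝ) :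
    ‖DD0 lam g v‖ ≤ 2 * |p.M 0 B| * Real.exp (-(B * v)) := by
  have hA := p.hA
  have hk := p.hκ
  have h1 : ∀ v : ℝ, ‖g v‖ ≤ |p.M 0 B| * Real.exp (-(B * v)) := by
    intro v
    refine (hg.le B (by linarith) v).trans ?_
    gcongr
    exact le_abs_self _
  exact (DD0_bound hA hB hlam h1 v).2

theorem DD0_decay (p : Par) (B : ℝ) : ∃ C : ℝ, 0 < C ∧ ∀ q : ℕ, 2 ≤ q → ∀ {lam : ℕ → ℂ}
    {g : ℝ → ℂ} {e : ℂ}, (∀ m : ℕ, 1 ≤ m → ‖lam m‖ ≤ (m : ℝ) ^ p.A) → p.GC g → ‖e‖ = 1 →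
    (∀ v : ℝ, DD0 lam g v = e * starRingEnd ℂ (DD0 lam g (-v - Real.log q))) → ∀ v : ℝ,
    ‖DD0 lam g v‖ ≤ (q : ℝ) ^ C * (C * Real.exp (-(B * |v|))) := by
  have hA := p.hA
  set B' : ℝ := max B (p.A + 2) with hB'
  have hB1 : p.A + 2 ≤ B' := le_max_right _ _
  have hB2 : B ≤ B' := le_max_left _ _
  have hB0 : 0 ≤ B' := by linarith
  set M : ℝ := |p.M 0 B'| with hM
  have hM0 : 0 ≤ M := abs_nonneg _
  refine ⟨2 * M + B' + 1, by linarith, ?_⟩
  intro q hq lam g e hlam hg he fe v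
  have hq1 : (1 : ℝ) ≤ q := by exact_mod_cast (by omega : 1 ≤ q)
  have hq0 : (0 : ℝ) < q := by linarith
  have h0 : ‖DD0 lam g v‖ ≤ 2 * M * (q : ℝ) ^ B' * Real.exp (-(B' * |v|)) := by
    rcases le_total 0 v with hv | hv
    · rw [abs_of_nonneg hv]
      refine (kl_bound p hB1 hlam hg v).trans ?_
      have h1 : (1 : ℝ) ≤ (q : ℝ) ^ B' := Real.one_le_rpow hq1 hB0
      have h2 : 2 * |p.M 0 B'| * 1 ≤ 2 * M * (q : ℝ) ^ B' := by
        rw [← hM]
        exact mul_le_mul_of_nonneg_left h1 (by linarith)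
      rw [mul_one] at h2
      exact mul_le_mul_of_nonneg_right h2 (Real.exp_pos _).le
    · rw [fe v, norm_mul, he, one_mul, RCLike.norm_conj]
      refine (kl_bound p hB1 hlam hg _).trans (le_of_eq ?_)
      rw [abs_of_nonpos hv, Real.rpow_def_of_pos hq0, mul_assoc (2 * M), ← Real.exp_add]
      congr 2
      ring
  refine h0.trans ?_
  have h1 : (q : ℝ) ^ B' ≤ (q : ℝ) ^ (2 * M + B' + 1) :=
    Real.rpow_le_rpow_of_exponent_le hq1 (by linarith)
  have h2 : Real.exp (-(B' * |v|)) ≤ Real.exp (-(B * |v|)) := by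
    apply Real.exp_le_exp.2
    have := abs_nonneg v
    nlinarith
  have h3 : 0 < (q : ℝ) ^ B' := Real.rpow_pos_of_pos hq0 _
  calc 2 * M * (q : ℝ) ^ B' * Real.exp (-(B' * |v|))
      ≤ (2 * M + B' + 1) * (q : ℝ) ^ (2 * M + B' + 1) * Real.exp (-(B * |v|)) := by
        gcongr
        linarith
    _ = _ := by ring

theorem kl_exp_int : Integrable (fun v : ℝ => Real.exp (-|v|)) := by
  have h1 : IntegrableOn (fun v : ℝ => Real.exp (-|v|)) (Set.Iic 0) := by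
    refine (integrableOn_exp_Iic 0).congr_fun (fun v hv => ?_) measurableSet_Iic
    rw [abs_of_nonpos (Set.mem_Iic.1 hv), neg_neg]
  have h2 : IntegrableOn (fun v : ℝ => Real.exp (-|v|)) (Set.Ioi 0) := by
    refine (exp_neg_integrableOn_Ioi 0 one_pos).congr_fun (fun v hv => ?_) measurableSet_Ioi
    rw [abs_of_pos (Set.mem_Ioi.1 hv)]
    simp
  have h3 := h1.union h2
  rwa [Set.Iic_union_Ioi, integrableOn_univ] at h3

theorem ldata_of (p : Par) {q : ℕ} (hq : 2 ≤ q) {lam : ℕ → ℂ} {g : ℝ → ℂ}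
    (hlam : ∀ m : ℕ, 1 ≤ m → ‖lam m‖ ≤ (m : ℝ) ^ p.A) (hg : p.GC g) {e : ℂ} (he : ‖e‖ = 1)
    (fe : ∀ v : ℝ, DD0 lam g v = e * starRingEnd ℂ (DD0 lam g (-v - Real.log q)))
    {F : ℂ → ℂ} (hF : Differentiable ℂ F)
    (hF1 : ∀ s : ℂ, F s = ∫ v : ℝ, DD0 lam g v * cexp ((s - 1 / 2) * v)) :
    ∃ X : LData, X.dens = DD0 lam g ∧ X.A = Real.log q ∧ X.Λ = F := by
  have hA := p.hA
  have hk := p.hκ
  have hcont : Continuous (DD0 lam g) :=
    DD0_cont (B := p.A + 2) hA le_rfl hlam hg.cont (hg.le (p.A + 2) (by linarith))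
  obtain ⟨C, hC, hdec⟩ := DD0_decay p 1
  have hd := hdec q hq hlam hg he fe
  have hq0 : (0 : ℝ) < q := by exact_mod_cast (by omega : 0 < q)
  have hK : 0 < (q : ℝ) ^ C := Real.rpow_pos_of_pos hq0 _
  have hnice : Nice (DD0 lam g) := by
    refine ⟨hcont.measurable, ?_, (q : ℝ) ^ C * C, ?_⟩
    · refine Integrable.mono' (g := fun v : ℝ => (q : ℝ) ^ C * C * Real.exp (-|v|))
        (kl_exp_int.const_mul _) hcont.aestronglyMeasurable (Eventually.of_forall fun v => ?_)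
      have := hd v
      rw [one_mul] at this
      rw [mul_assoc]
      exact this
    · intro v
      refine (hd v).trans ?_
      rw [one_mul]
      have : Real.exp (-|v|) ≤ 1 := Real.exp_le_one_iff.2 (by simp)
      calc (q : ℝ) ^ C * (C * Real.exp (-|v|)) ≤ (q : ℝ) ^ C * (C * 1) := by gcongr
        _ = _ := by ring
  have hrep : ∀ t : ℝ, hat (DD0 lam g) t = F (1 / 2 + t * I) := by
    intro t
    rw [hF1]
    unfold hat
    congr 1
    funext v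
    congr 2
    ring
  refine ⟨⟨F, Real.log q, DD0 lam g, hF, hnice, hrep, e, he, ?_⟩, rfl, rfl, rfl⟩
  refine Pool.Agent.ABS.fe_of_dens hrep he ?_
  intro u
  rw [fe u]
  congr 3
  ring


end Pool.Agent.SGD
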