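import Pool.Agent.Lib_helper45.SGD.Defs
import Pool.Agent.Lib_helper45.SGDF.KB
import Pool.Agent.Lib_helper45.SGDF.KL

/-!
# SGD, block KM: the number of all zeros (Jensen)
-/

set_option autoImplicit false

namespace Pool.Agent.SGD

open Complex MeasureTheory Filter Topology
open Pool.Agent.SQS (hat)
open Pool.Agent.ABS (LData Nice oddZ win)
open scoped ENNReal

theorem km_finsum_ge (D : ℂ → ℤ) (hD : ∀ u, 0 ≤ D u) (hfin : D.support.Finite)
    (s : Finset ℂ) : ∑ u ∈ s, D u ≤ ∑ᶠ u, D u := by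
  classical
  have h1 : D.support ⊆ ((hfin.toFinset ∪ s : Finset ℂ) : Set ℂ) := by
    intro x hx
    simp only [Finset.coe_union, Set.mem_union, Finset.mem_coe, Set.Finite.mem_toFinset]
    exact Or.inl hx
  rw [finsum_eq_sum_of_support_subset D h1]
  exact Finset.sum_le_sum_of_subset_of_nonneg Finset.subset_union_right fun u _ _ => hD u

theorem km_order_le {f : ℂ → ℂ} {U : Set ℂ} (hf : AnalyticOnNhd ℂ f U) {z : ℂ} (hz : z ∈ U) :
    (analyticOrderNatAt f z : ℤ) ≤ MeromorphicOn.divisor f U z := by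
  rw [MeromorphicOn.AnalyticOnNhd.divisor_apply hf hz]
  unfold analyticOrderNatAt
  cases h : analyticOrderAt f z with
  | top => simp
  | coe n => simp

/-- Jensen in one disc -/
theorem km_count (f : ℂ → ℂ) (hf : Differentiable ℂ f) (c : ℂ) {r R M m α β : ℝ} (hr : 0 < r)
    (hrR : r < R) (hM : 1 ≤ M) (hm : 0 < m) (hlow : m ≤ ‖f c‖)
    (hup : ∀ z : ℂ, ‖z - c‖ = R → ‖f z‖ ≤ M)
    (hz : ∀ ρ : ℂ, f ρ = 0 → α < ρ.im → ρ.im < β → ‖ρ - c‖ ≤ r) :
    ∑' ρ : {ρ : ℂ // α < ρ.im ∧ ρ.im < β}, (analyticOrderNatAt f ρ.1 : ℝ≥0∞) ≤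
      ENNReal.ofReal (Real.log (M / m) / Real.log (R / r)) := by
  classical
  have han : ∀ U : Set ℂ, AnalyticOnNhd ℂ f U := fun U z _ => hf.analyticAt z
  have hR : 0 < R := hr.trans hrR
  have hlog : 0 < Real.log (R / r) := Real.log_pos ((one_lt_div hr).2 hrR)
  set D : ℂ → ℤ := fun u => MeromorphicOn.divisor f (Metric.closedBall c |r|) u with hD
  have hD0 : ∀ u, 0 ≤ D u := fun u => (MeromorphicOn.AnalyticOnNhd.divisor_nonneg (han _)) u
  have hDfin : D.support.Finite :=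
    (MeromorphicOn.divisor f (Metric.closedBall c |r|)).finiteSupport (isCompact_closedBall _ _)
  have hne : f c ≠ 0 := by
    intro h0
    rw [h0, norm_zero] at hlow
    linarith
  have hjen : ((∑ᶠ u, D u : ℤ) : ℝ) ≤ Real.log (M / m) / Real.log (R / r) := by
    have hb : ∀ z ∈ Metric.sphere c |R|, ‖f z‖ ≤ M := by
      intro z hz
      rw [mem_sphere_iff_norm, abs_of_pos hR] at hz
      exact hup z hz
    have h1 := AnalyticOnNhd.sum_divisor_le (c := c) (r := r) (R := R) (M := M) (f := f)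
      (by rw [abs_of_pos hr]; exact hr) (by rw [abs_of_pos hr, abs_of_pos hR]; exact hrR) hM
      (han _) hne hb
    refine h1.trans ?_
    apply div_le_div_of_nonneg_right _ hlog.le
    apply Real.log_le_log
    · exact div_pos (by linarith) (norm_pos_iff.mpr hne)
    · exact div_le_div_of_nonneg_left (by linarith) hm hlow
  rw [ENNReal.tsum_eq_iSup_sum]
  refine iSup_le fun s => ?_
  have hkey : ∀ ρ : {ρ : ℂ // α < ρ.im ∧ ρ.im < β}, (analyticOrderNatAt f ρ.1 : ℤ) ≤ D ρ.1 := by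
    intro ρ
    by_cases h0 : f ρ.1 = 0
    · have hball : ρ.1 ∈ Metric.closedBall c |r| := by
        rw [mem_closedBall_iff_norm, abs_of_pos hr]
        exact hz ρ.1 h0 ρ.2.1 ρ.2.2
      exact km_order_le (han _) hball
    · have h1 : analyticOrderNatAt f ρ.1 = 0 := by
        unfold analyticOrderNatAt
        rw [(hf.analyticAt ρ.1).analyticOrderAt_eq_zero.mpr h0]
        rfl
      rw [h1]
      exact hD0 _
  have hint : (∑ ρ ∈ s, (analyticOrderNatAt f ρ.1 : ℤ)) ≤ ∑ᶠ u, D u := by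
    refine (Finset.sum_le_sum fun ρ _ => hkey ρ).trans ?_
    have h1 : ∑ ρ ∈ s, D ρ.1 = ∑ u ∈ s.map (Function.Embedding.subtype _), D u := by
      rw [Finset.sum_map]
      rfl
    rw [h1]
    exact km_finsum_ge D hD0 hDfin _
  have hreal : ((∑ ρ ∈ s, analyticOrderNatAt f ρ.1 : ℕ) : ℝ) ≤
      Real.log (M / m) / Real.log (R / r) := by
    have h1 : ((∑ ρ ∈ s, analyticOrderNatAt f ρ.1 : ℕ) : ℝ) =
        ((∑ ρ ∈ s, (analyticOrderNatAt f ρ.1 : ℤ) : ℤ) : ℝ) := by push_cast; rfl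
    rw [h1]
    exact (Int.cast_le.mpr hint).trans hjen
  calc ∑ ρ ∈ s, (analyticOrderNatAt f ρ.1 : ENNReal)
      = ((∑ ρ ∈ s, analyticOrderNatAt f ρ.1 : ℕ) : ENNReal) := by push_cast; rfl
    _ = ENNReal.ofReal ((∑ ρ ∈ s, analyticOrderNatAt f ρ.1 : ℕ) : ℝ) :=
        (ENNReal.ofReal_natCast _).symm
    _ ≤ _ := ENNReal.ofReal_le_ofReal hreal

theorem km_sq : HasSum (fun n : ℕ => 1 / ((n : ℝ) + 2) ^ 2) (Real.pi ^ 2 / 6 - 1) := by
  have h := hasSum_zeta_two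
  have := (hasSum_nat_add_iff' (f := fun n : ℕ => 1 / (n : ℝ) ^ 2) 2).2 h
  simpa [Finset.sum_range_succ] using this

/-- the Dirichlet series is close to `1` for `Re s ≥ A + 2` -/
theorem km_lseries {A : ℝ} {lam : ℕ → ℂ}
    (hlam : ∀ m : ℕ, 1 ≤ m → ‖lam m‖ ≤ (m : ℝ) ^ A) (h1 : lam 1 = 1) {s : ℂ}
    (hs : A + 2 ≤ s.re) : 1 / 4 ≤ ‖LSeries lam s‖ := by
  have hb : ∀ n : ℕ, ‖LSeries.term lam s (n + 2)‖ ≤ 1 / ((n : ℝ) + 2) ^ 2 := by
    intro n
    have hn : (0 : ℝ) < (n : ℝ) + 2 := by positivity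
    have hn1 : (1 : ℝ) ≤ (n : ℝ) + 2 := by
      have : (0 : ℝ) ≤ n := Nat.cast_nonneg n
      linarith
    have h2 := hlam (n + 2) (by omega)
    push_cast at h2
    rw [LSeries.norm_term_eq, if_neg (by omega)]
    push_cast
    calc ‖lam (n + 2)‖ / ((n : ℝ) + 2) ^ s.re ≤ ((n : ℝ) + 2) ^ A / ((n : ℝ) + 2) ^ s.re := by
          gcongr
      _ = ((n : ℝ) + 2) ^ (A - s.re) := (Real.rpow_sub hn _ _).symm
      _ ≤ ((n : ℝ) + 2) ^ (-2 : ℝ) := Real.rpow_le_rpow_of_exponent_le hn1 (by linarith)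
      _ = 1 / ((n : ℝ) + 2) ^ 2 := by
          rw [Real.rpow_neg hn.le, ← one_div]
          congr 1
          exact_mod_cast Real.rpow_natCast ((n : ℝ) + 2) 2
  have hsum : Summable (fun n : ℕ => LSeries.term lam s (n + 2)) :=
    Summable.of_norm_bounded km_sq.summable hb
  have hsum' : Summable (fun n : ℕ => LSeries.term lam s n) := (summable_nat_add_iff 2).1 hsum
  have e : LSeries lam s = 1 + ∑' n : ℕ, LSeries.term lam s (n + 2) := by
    rw [LSeries, ← hsum'.sum_add_tsum_nat_add 2]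
    congr 1
    simp [Finset.sum_range_succ, LSeries.term, h1]
  have hn : ‖∑' n : ℕ, LSeries.term lam s (n + 2)‖ ≤ Real.pi ^ 2 / 6 - 1 :=
    tsum_of_norm_bounded km_sq hb
  have hpi : Real.pi ^ 2 / 6 - 1 ≤ 3 / 4 := by
    have := Real.pi_lt_d2
    have h3 := Real.pi_pos
    nlinarith
  rw [e]
  have h4 := norm_sub_le_norm_add (1 : ℂ) (∑' n : ℕ, LSeries.term lam s (n + 2))
  rw [norm_one] at h4
  linarith

/-- the upper bound -/
theorem km_up (p : Par) (B₀ : ℝ) : ∃ C : ℝ, 0 < C ∧ ∀ q : ℕ, 2 ≤ q → ∀ {lam : ℕ → ℂ}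
    {g : ℝ → ℂ} {e : ℂ} {F : ℂ → ℂ}, (∀ m : ℕ, 1 ≤ m → ‖lam m‖ ≤ (m : ℝ) ^ p.A) → p.GC g →
    ‖e‖ = 1 →
    (∀ v : ℝ, DD0 lam g v = e * starRingEnd ℂ (DD0 lam g (-v - Real.log q))) →
    (∀ s : ℂ, F s = ∫ v : ℝ, DD0 lam g v * cexp ((s - 1 / 2) * v)) →
    ∀ s : ℂ, |s.re - 1 / 2| ≤ B₀ → ‖F s‖ ≤ (q : ℝ) ^ C * C := by
  obtain ⟨C, hC, h⟩ := DD0_decay p (B₀ + p.κ)
  have hκ := p.hκ
  refine ⟨max C (C * (2 / p.κ)), lt_max_of_lt_left hC, fun q hq lam g e F h1 h2 h3 h4 h5 s hs => ?_⟩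
  have hq1 : (1 : ℝ) ≤ q := by
    have : (2 : ℝ) ≤ q := by exact_mod_cast hq
    linarith
  have hq0 : (0 : ℝ) < q := by linarith
  have hd := h q hq h1 h2 h3 h4
  have hb : ∀ v : ℝ, ‖DD0 lam g v * cexp ((s - 1 / 2) * v)‖ ≤
      (q : ℝ) ^ C * C * Real.exp (-(p.κ * |v|)) := by
    intro v
    have e1 : ‖cexp ((s - 1 / 2) * v)‖ = Real.exp ((s.re - 1 / 2) * v) := by
      rw [Complex.norm_exp]
      congr 1
      simp [Complex.mul_re]
    rw [norm_mul, e1]
    have e2 : (s.re - 1 / 2) * v ≤ B₀ * |v| := by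
      calc (s.re - 1 / 2) * v ≤ |(s.re - 1 / 2) * v| := le_abs_self _
        _ = |s.re - 1 / 2| * |v| := abs_mul _ _
        _ ≤ B₀ * |v| := mul_le_mul_of_nonneg_right hs (abs_nonneg _)
    have hqC : 0 ≤ (q : ℝ) ^ C := Real.rpow_nonneg hq0.le _
    calc ‖DD0 lam g v‖ * Real.exp ((s.re - 1 / 2) * v)
        ≤ ((q : ℝ) ^ C * (C * Real.exp (-((B₀ + p.κ) * |v|)))) * Real.exp (B₀ * |v|) := by
          gcongr
          exact hd v
      _ = (q : ℝ) ^ C * C * (Real.exp (-((B₀ + p.κ) * |v|)) * Real.exp (B₀ * |v|)) := by ring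
      _ = (q : ℝ) ^ C * C * Real.exp (-(p.κ * |v|)) := by
          rw [← Real.exp_add]
          congr 2
          ring
  have hE := exp_int p
  have hI := norm_integral_le_of_norm_le (hE.1.const_mul ((q : ℝ) ^ C * C))
    (Eventually.of_forall hb)
  rw [integral_const_mul, hE.2.1, ← h5 s] at hI
  refine hI.trans ?_
  have hqC : 0 ≤ (q : ℝ) ^ C := Real.rpow_nonneg hq0.le _
  calc (q : ℝ) ^ C * C * (2 / p.κ) = (q : ℝ) ^ C * (C * (2 / p.κ)) := by ring
    _ ≤ (q : ℝ) ^ (max C (C * (2 / p.κ))) * max C (C * (2 / p.κ)) := by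
        have : (q : ℝ) ^ C ≤ (q : ℝ) ^ (max C (C * (2 / p.κ))) :=
          Real.rpow_le_rpow_of_exponent_le hq1 (le_max_left _ _)
        have h7 : C * (2 / p.κ) ≤ max C (C * (2 / p.κ)) := le_max_right _ _
        have h8 : 0 ≤ C * (2 / p.κ) := by positivity
        gcongr

theorem zeros_count (p : Par) {α β : ℝ} (hαβ : α < β) (hα : |α| ≤ p.T) (hβ : |β| ≤ p.T) :
    ∃ C : ℝ, 0 < C ∧ ∀ q : ℕ, 2 ≤ q → ∀ {lam : ℕ → ℂ} {g : ℝ → ℂ} {e : ℂ} {F : ℂ → ℂ},
    (∀ m : ℕ, 1 ≤ m → ‖lam m‖ ≤ (m : ℝ) ^ p.A) → lam 1 = 1 → p.GC g → ‖e‖ = 1 →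
    (∀ v : ℝ, DD0 lam g v = e * starRingEnd ℂ (DD0 lam g (-v - Real.log q))) →
    Differentiable ℂ F →
    (∀ s : ℂ, F s = ∫ v : ℝ, DD0 lam g v * cexp ((s - 1 / 2) * v)) →
    (∀ s : ℂ, p.A + 1 < s.re →
      F s = (∫ v : ℝ, g v * cexp ((s - 1 / 2) * v)) * LSeries lam s) →
    (∀ s : ℂ, F s = e * (q : ℂ) ^ (1 / 2 - s) * starRingEnd ℂ (F (1 - starRingEnd ℂ s))) →
    SGN.allZer F α β ≤ ENNReal.ofReal (C * Real.log q) := by
  have hA := p.hA
  have hT := p.hT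
  have hSg := p.hSg
  have hc₁ := p.hc₁
  have hlog2 : 0 < Real.log 2 := Real.log_pos (by norm_num)
  set r : ℝ := 2 * p.A + 3 + (β - α) with hr
  have hr0 : 0 < r := by linarith
  obtain ⟨C, hC, hup⟩ := km_up p (p.A + 2 + 2 * r)
  set m : ℝ := p.c₁ / 4 with hm
  have hm0 : 0 < m := by positivity
  set K : ℝ := (C + 1) / m with hK
  have hK0 : 0 < K := by positivity
  refine ⟨(C + |Real.log K| / Real.log 2) / Real.log 2, by positivity,
    fun q hq lam g e F h1 h2 h3 h4 h5 h6 h7 h8 h9 => ?_⟩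
  have hq2 : (2 : ℝ) ≤ q := by exact_mod_cast hq
  have hq1 : (1 : ℝ) ≤ q := by linarith
  have hq0 : (0 : ℝ) < q := by linarith
  -- non-vanishing
  have hnz : ∀ s : ℂ, p.A + 2 < s.re → F s ≠ 0 := by
    intro s hs
    rw [h8 s (by linarith)]
    refine mul_ne_zero (h3.nz (s - 1 / 2) ?_) ?_
    · have : (s - 1 / 2 : ℂ).re = s.re - 1 / 2 := by simp
      rw [this]
      linarith
    · intro h
      have := km_lseries h1 h2 (s := s) hs.le
      rw [h, norm_zero] at this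
      norm_num at this
  have hstrip : ∀ ρ : ℂ, F ρ = 0 → -p.A - 1 ≤ ρ.re ∧ ρ.re ≤ p.A + 2 := by
    intro ρ hρ
    constructor
    · by_contra hcon
      push Not at hcon
      have h10 : F (1 - starRingEnd ℂ ρ) ≠ 0 := by
        refine hnz _ ?_
        have : (1 - starRingEnd ℂ ρ).re = 1 - ρ.re := by simp
        rw [this]
        linarith
      have h11 := h9 ρ
      rw [hρ] at h11
      have hqc : (q : ℂ) ≠ 0 := by exact_mod_cast hq0.ne'
      have h12 : (q : ℂ) ^ (1 / 2 - ρ) ≠ 0 := by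
        rw [Complex.cpow_def_of_ne_zero hqc]
        exact Complex.exp_ne_zero _
      have he : e ≠ 0 := by
        intro h
        rw [h, norm_zero] at h4
        exact zero_ne_one h4
      exact (mul_ne_zero (mul_ne_zero he h12)
        ((map_ne_zero (starRingEnd ℂ)).2 h10)) h11.symm
    · by_contra hcon
      push Not at hcon
      exact hnz ρ hcon hρ
  -- the centre
  set c : ℂ := ((p.A + 2 : ℝ) : ℂ) + (((α + β) / 2 : ℝ) : ℂ) * I with hc
  have hcre : c.re = p.A + 2 := by simp [hc]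
  have hcim : c.im = (α + β) / 2 := by simp [hc]
  have habs : |(α + β) / 2| ≤ p.T + 1 := by
    rw [abs_le]
    have h13 := abs_le.1 hα
    have h14 := abs_le.1 hβ
    constructor <;> linarith
  have hlow : m ≤ ‖F c‖ := by
    rw [h8 c (by rw [hcre]; linarith), norm_mul]
    have h10 := km_lseries h1 h2 (s := c) (by rw [hcre])
    have h11 := h3.low (p.A + 3 / 2) ((α + β) / 2) (by linarith) (by linarith) habs
    have e1 : ∀ v : ℝ, g v * cexp (((((p.A + 3 / 2 : ℝ) : ℂ)) + (((α + β) / 2 : ℝ) : ℂ) * I) * v) =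
        g v * cexp ((c - 1 / 2) * v) := by
      intro v
      congr 3
      rw [hc]
      push_cast
      ring
    have h12 : p.c₁ ≤ ‖∫ v : ℝ, g v * cexp ((c - 1 / 2) * v)‖ := by
      rw [← integral_congr_ae (Eventually.of_forall e1)]
      exact h11
    rw [hm]
    calc p.c₁ / 4 = p.c₁ * (1 / 4) := by ring
      _ ≤ _ := mul_le_mul h12 h10 (by norm_num) (norm_nonneg _)
  -- the upper bound
  set M : ℝ := (q : ℝ) ^ C * (C + 1) with hM
  have hqC : 1 ≤ (q : ℝ) ^ C := Real.one_le_rpow hq1 hC.le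
  have hM1 : 1 ≤ M := by
    rw [hM]
    nlinarith
  have hupM : ∀ z : ℂ, ‖z - c‖ = 2 * r → ‖F z‖ ≤ M := by
    intro z hz
    have h10 : |z.re - (p.A + 2)| ≤ 2 * r := by
      have := Complex.abs_re_le_norm (z - c)
      rw [hz, Complex.sub_re, hcre] at this
      exact this
    have h11 := hup q hq h1 h3 h4 h5 h7 z (by
      rw [abs_le] at h10 ⊢
      constructor <;> linarith [h10.1, h10.2])
    refine h11.trans ?_
    rw [hM]
    have : 0 ≤ (q : ℝ) ^ C := by linarith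
    exact mul_le_mul_of_nonneg_left (by linarith) this
  have hdisc : ∀ ρ : ℂ, F ρ = 0 → α < ρ.im → ρ.im < β → ‖ρ - c‖ ≤ r := by
    intro ρ hρ ha hb
    obtain ⟨hs1, hs2⟩ := hstrip ρ hρ
    refine (Complex.norm_le_abs_re_add_abs_im _).trans ?_
    have e1 : |(ρ - c).re| ≤ 2 * p.A + 3 := by
      rw [Complex.sub_re, hcre, abs_le]
      constructor <;> linarith
    have e2 : |(ρ - c).im| ≤ β - α := by
      rw [Complex.sub_im, hcim, abs_le]
      constructor <;> linarith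
    linarith
  have hcount := km_count F h6 c (r := r) (R := 2 * r) (M := M) (m := m) (α := α) (β := β) hr0
    (by linarith) hM1 hm0 hlow hupM hdisc
  have e2 : 2 * r / r = 2 := by field_simp
  rw [e2] at hcount
  refine (show SGN.allZer F α β ≤ _ from hcount).trans (ENNReal.ofReal_le_ofReal ?_)
  have e3 : M / m = (q : ℝ) ^ C * K := by
    rw [hM, hK]
    ring
  have hlogq : Real.log 2 ≤ Real.log q := Real.log_le_log (by norm_num) hq2
  have e4 : Real.log (M / m) = C * Real.log q + Real.log K := by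
    rw [e3, Real.log_mul (by positivity) hK0.ne', Real.log_rpow hq0]
  have e5 : Real.log K ≤ |Real.log K| / Real.log 2 * Real.log q := by
    rw [div_mul_eq_mul_div, le_div_iff₀ hlog2]
    calc Real.log K * Real.log 2 ≤ |Real.log K| * Real.log 2 :=
          mul_le_mul_of_nonneg_right (le_abs_self _) hlog2.le
      _ ≤ |Real.log K| * Real.log q := mul_le_mul_of_nonneg_left hlogq (abs_nonneg _)
  rw [e4, div_mul_eq_mul_div]
  refine div_le_div_of_nonneg_right ?_ hlog2.le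
  rw [add_mul]
  linarith

end Pool.Agent.SGD

namespace Pool.Agent.SGD


end Pool.Agent.SGD
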