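import Pool.Agent.Lib_helper45.SGD.Defs

/-!
# SGN part D, core: block KA (densities)
-/

set_option autoImplicit false

namespace Pool.Agent.SGD

open Complex MeasureTheory Filter Topology
open Pool.Agent.SQS (hat)
open Pool.Agent.ABS (LData Nice oddZ win)
open scoped ENNReal

theorem ka_exp_int {c : ℝ} (hc : 0 < c) : Integrable (fun y : ℝ => Real.exp (-(c * |y|))) := by
  rw [← integrableOn_univ, ← Set.Iic_union_Ioi (a := (0 : ℝ)), integrableOn_union]
  constructor
  · refine (integrableOn_congr_fun (fun x hx => ?_) measurableSet_Iic).2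
      (integrableOn_exp_mul_Iic hc 0)
    rw [abs_of_nonpos hx]; congr 1; ring
  · refine (integrableOn_congr_fun (fun x hx => ?_) measurableSet_Ioi).2
      (integrableOn_exp_mul_Ioi (neg_lt_zero.2 hc) 0)
    rw [abs_of_pos hx]; congr 1; ring

/-- the constant -/
noncomputable def kaC (p : Par) : ℝ := |p.M 0 (-p.κ)| + |p.M 0 p.κ| + 1

theorem kaC_pos (p : Par) : 0 < kaC p := by unfold kaC; positivity

theorem ka_le (p : Par) {g : ℝ → ℂ} (hg : p.GC g) (v : ℝ) :
    ‖g v‖ ≤ kaC p * Real.exp (-(p.κ * |v|)) := by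
  have h1 : p.M 0 (-p.κ) ≤ kaC p := by
    unfold kaC; linarith [le_abs_self (p.M 0 (-p.κ)), abs_nonneg (p.M 0 p.κ)]
  have h2 : p.M 0 p.κ ≤ kaC p := by
    unfold kaC; linarith [le_abs_self (p.M 0 (p.κ)), abs_nonneg (p.M 0 (-p.κ))]
  rcases le_total v 0 with hv | hv
  · have := hg.le (-p.κ) le_rfl v
    rw [abs_of_nonpos hv]
    refine this.trans ?_
    rw [show -(-p.κ * v) = -(p.κ * -v) by ring]
    exact mul_le_mul_of_nonneg_right h1 (Real.exp_pos _).le
  · have := hg.le p.κ (by linarith [p.hκ]) v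
    rw [abs_of_nonneg hv]
    exact this.trans (mul_le_mul_of_nonneg_right h2 (Real.exp_pos _).le)

theorem gc_nice (p : Par) {g : ℝ → ℂ} (hg : p.GC g) : Nice g := by
  refine ⟨hg.cont.measurable, ?_, kaC p, fun u => ?_⟩
  · exact ((ka_exp_int p.hκ).const_mul (kaC p)).mono' hg.cont.aestronglyMeasurable
      (Eventually.of_forall fun v => ka_le p hg v)
  · refine (ka_le p hg u).trans ?_
    have : Real.exp (-(p.κ * |u|)) ≤ 1 := by
      rw [Real.exp_le_one_iff]
      have := p.hκ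
      have := abs_nonneg u
      nlinarith
    nlinarith [kaC_pos p]

theorem gc_L (p : Par) : ∃ C : ℝ, 0 < C ∧ ∀ g : ℝ → ℂ, p.GC g →
    ∫ v, ‖g v‖ ≤ C ∧ ∫ v, ‖g v‖ ^ 2 ≤ C := by
  have hE := ka_exp_int p.hκ
  have hE0 : 0 ≤ ∫ y : ℝ, Real.exp (-(p.κ * |y|)) :=
    integral_nonneg fun y => (Real.exp_pos _).le
  have hC := kaC_pos p
  refine ⟨(kaC p + kaC p ^ 2) * (∫ y : ℝ, Real.exp (-(p.κ * |y|))) + 1, by positivity,
    fun g hg => ⟨?_, ?_⟩⟩
  · have h1 : ∫ v, ‖g v‖ ≤ ∫ v : ℝ, kaC p * Real.exp (-(p.κ * |v|)) :=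
      integral_mono (gc_nice p hg).int.norm (hE.const_mul _) fun v => ka_le p hg v
    rw [integral_const_mul] at h1
    have : 0 ≤ kaC p ^ 2 * ∫ y : ℝ, Real.exp (-(p.κ * |y|)) := by positivity
    nlinarith
  · have h1 : ∫ v, ‖g v‖ ^ 2 ≤ ∫ v : ℝ, kaC p ^ 2 * Real.exp (-(p.κ * |v|)) := by
      refine integral_mono (gc_nice p hg).sq (hE.const_mul _) fun v => ?_
      have h2 := ka_le p hg v
      have h3 : Real.exp (-(p.κ * |v|)) ≤ 1 := by
        rw [Real.exp_le_one_iff]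
        have := p.hκ
        have := abs_nonneg v
        nlinarith
      have h4 := Real.exp_pos (-(p.κ * |v|))
      have h5 := norm_nonneg (g v)
      calc ‖g v‖ ^ 2 ≤ (kaC p * Real.exp (-(p.κ * |v|))) ^ 2 := by gcongr
        _ = kaC p ^ 2 * (Real.exp (-(p.κ * |v|)) * Real.exp (-(p.κ * |v|))) := by ring
        _ ≤ kaC p ^ 2 * (Real.exp (-(p.κ * |v|)) * 1) := by gcongr
        _ = kaC p ^ 2 * Real.exp (-(p.κ * |v|)) := by ring
    rw [integral_const_mul] at h1
    have : 0 ≤ kaC p * ∫ y : ℝ, Real.exp (-(p.κ * |y|)) := by positivity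
    nlinarith

theorem ka_abs_le {c : ℝ} (hc : 0 < c) (v : ℝ) :
    |v| * Real.exp (-(c * |v|)) ≤ 2 / c * Real.exp (-(c / 2 * |v|)) := by
  have h1 : c / 2 * |v| ≤ Real.exp (c / 2 * |v|) := by
    linarith [Real.add_one_le_exp (c / 2 * |v|)]
  have h2 : |v| ≤ 2 / c * Real.exp (c / 2 * |v|) := by
    calc |v| = 2 / c * (c / 2 * |v|) := by field_simp
      _ ≤ _ := by gcongr
  calc |v| * Real.exp (-(c * |v|)) ≤ 2 / c * Real.exp (c / 2 * |v|) * Real.exp (-(c * |v|)) := by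
        gcongr
    _ = 2 / c * Real.exp (-(c / 2 * |v|)) := by
        rw [mul_assoc, ← Real.exp_add]; congr 2; ring

theorem ka_exp_sub (s t u : ℝ) :
    ‖cexp (s * u * I) - cexp (t * u * I)‖ ≤ |s - t| * |u| := by
  have e : cexp (s * u * I) - cexp (t * u * I) =
      cexp (t * u * I) * (cexp (I * ((s - t) * u : ℝ)) - 1) := by
    rw [mul_sub, ← Complex.exp_add, mul_one]
    congr 2
    push_cast
    ring
  rw [e, norm_mul, ABS.expI_norm, one_mul]
  refine Real.norm_exp_I_mul_ofReal_sub_one_le.trans ?_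
  rw [Real.norm_eq_abs, abs_mul]

theorem ka_hat_lip (p : Par) {g : ℝ → ℂ} (hg : p.GC g) (s t : ℝ) :
    ‖hat g s - hat g t‖ ≤ |s - t| *
      (kaC p * (2 / p.κ) * ∫ v : ℝ, Real.exp (-(p.κ / 2 * |v|))) := by
  have hn := gc_nice p hg
  have hκ := p.hκ
  have hC := kaC_pos p
  have e : hat g s - hat g t = ∫ u : ℝ, g u * (cexp (s * u * I) - cexp (t * u * I)) := by
    unfold hat
    rw [← integral_sub (ABS.hat_integrable hn.int s) (ABS.hat_integrable hn.int t)]
    congr 1; funext u; ring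
  rw [e, ← integral_const_mul, ← integral_const_mul]
  refine norm_integral_le_of_norm_le (((ka_exp_int (half_pos hκ)).const_mul _).const_mul _)
    (Eventually.of_forall fun u => ?_)
  rw [norm_mul]
  have h1 := ka_le p hg u
  have h2 := ka_exp_sub s t u
  have h3 := ka_abs_le hκ u
  calc ‖g u‖ * ‖cexp (s * u * I) - cexp (t * u * I)‖
      ≤ (kaC p * Real.exp (-(p.κ * |u|))) * (|s - t| * |u|) := by gcongr
    _ = |s - t| * (kaC p * (|u| * Real.exp (-(p.κ * |u|)))) := by ring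
    _ ≤ |s - t| * (kaC p * (2 / p.κ * Real.exp (-(p.κ / 2 * |u|)))) := by gcongr
    _ = _ := by ring

theorem gc_win (p : Par) : ∃ H₀ : ℝ, 0 < H₀ ∧ ∀ g : ℝ → ℂ, p.GC g → ∀ t : ℝ, |t| ≤ p.T →
    ∀ H : ℝ, 0 ≤ H → H ≤ H₀ → p.c₁ / 2 * H ≤ ‖∫ s in t..(t + H), hat g s‖ := by
  set K : ℝ := kaC p * (2 / p.κ) * ∫ v : ℝ, Real.exp (-(p.κ / 2 * |v|)) with hK
  have hK0 : 0 ≤ K := by
    have := kaC_pos p
    have := p.hκ
    have : 0 ≤ ∫ v : ℝ, Real.exp (-(p.κ / 2 * |v|)) :=
      integral_nonneg fun y => (Real.exp_pos _).le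
    positivity
  have hc := p.hc₁
  refine ⟨p.c₁ / (2 * (K + 1)), by positivity, fun g hg t ht H hH hH0 => ?_⟩
  have hn := gc_nice p hg
  have hlow : p.c₁ ≤ ‖hat g t‖ := by
    have := hg.low 0 t le_rfl (by linarith [p.hSg, p.hA]) (by linarith)
    have e0 : hat g t = ∫ v : ℝ, g v * cexp ((((0 : ℝ) : ℂ) + t * I) * v) := by
      unfold hat
      congr 1
      funext v
      congr 2
      push_cast
      ring
    rwa [e0]
  have hcont : Continuous (hat g) := ABS.continuous_hat hn.int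
  have e : (∫ s in t..(t + H), hat g s) = (H : ℂ) * hat g t + ∫ s in t..(t + H), (hat g s - hat g t) := by
    rw [intervalIntegral.integral_sub (hcont.intervalIntegrable _ _) (by simp)]
    rw [intervalIntegral.integral_const]
    rw [add_sub_cancel_left, Complex.real_smul]
    ring
  have h2 : ‖∫ s in t..(t + H), (hat g s - hat g t)‖ ≤ (H * K) * |t + H - t| := by
    refine intervalIntegral.norm_integral_le_of_norm_le_const fun s hs => ?_
    rw [Set.uIoc_of_le (by linarith)] at hs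
    refine (ka_hat_lip p hg s t).trans ?_
    rw [← hK]
    refine mul_le_mul_of_nonneg_right ?_ hK0
    rw [abs_of_nonneg (by linarith [hs.1])]
    linarith [hs.2]
  rw [add_sub_cancel_left, abs_of_nonneg hH] at h2
  have h3 : ‖(H : ℂ) * hat g t‖ = H * ‖hat g t‖ := by
    rw [norm_mul, Complex.norm_real, Real.norm_eq_abs, abs_of_nonneg hH]
  have h4 : H * K ≤ p.c₁ / 2 := by
    have : H * (2 * (K + 1)) ≤ p.c₁ := by
      rwa [le_div_iff₀ (by positivity)] at hH0
    nlinarith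
  have h5 : ‖(H : ℂ) * hat g t‖ - ‖∫ s in t..(t + H), (hat g s - hat g t)‖ ≤
      ‖∫ s in t..(t + H), hat g s‖ := by
    rw [e]
    have := norm_sub_norm_le ((H : ℂ) * hat g t) (-∫ s in t..(t + H), (hat g s - hat g t))
    rwa [norm_neg, sub_neg_eq_add] at this
  have h6 : H * p.c₁ ≤ H * ‖hat g t‖ := by gcongr
  have h7 : H * K * H ≤ p.c₁ / 2 * H := by gcongr
  linarith

end Pool.Agent.SGD
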