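import Pool.Agent.Lib_helper45.SGD.Defs
import Pool.Agent.Lib_helper45.SGDF.KB
import Pool.Agent.Lib_helper45.SGDF.KC

/-!
# Block KD (MEX): expansion of the mollified densities
-/

set_option autoImplicit false

namespace Pool.Agent.SGD

open Complex MeasureTheory Filter Topology
open Pool.Agent.SQS (hat)
open Pool.Agent.ABS (LData Nice oddZ win)
open scoped ENNReal

theorem kd_N1 (p : Par) : 1 ≤ p.N := by
  have h1 := N_ge p
  have h2 := p.hA
  linarith

theorem kd_N2 (p : Par) : p.A + 2 ≤ p.N := by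
  have h1 := N_ge p
  have h2 := p.hA
  linarith

theorem kd_gz_cont (p : Par) : Continuous (gz p.N) :=
  Complex.continuous_ofReal.comp (G0_facts (kd_N1 p)).1

theorem kd_gz_norm (p : Par) (v : ℝ) : ‖gz p.N v‖ = G0 p.N v := by
  unfold gz
  rw [Complex.norm_real, Real.norm_of_nonneg ((G0_facts (kd_N1 p)).2 v).1.le]

theorem kd_gz_le (p : Par) (v : ℝ) : ‖gz p.N v‖ ≤ 1 * Real.exp (-(p.N * v)) := by
  rw [kd_gz_norm, one_mul]
  exact ((G0_facts (kd_N1 p)).2 v).2.2.1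

theorem kd_D_cont (p : Par) {lam : ℕ → ℂ} (hlam : ∀ m : ℕ, 1 ≤ m → ‖lam m‖ ≤ (m : ℝ) ^ p.A) :
    Continuous (DD0 lam (gz p.N)) :=
  DD0_cont p.hA (kd_N2 p) hlam (kd_gz_cont p) (kd_gz_le p)

theorem kd_conv {p : Par} {lam : ℕ → ℂ} {g k : ℝ → ℂ}
    (hlam : ∀ m : ℕ, 1 ≤ m → ‖lam m‖ ≤ (m : ℝ) ^ p.A) (hk : Continuous k)
    (hk1 : ∀ B : ℝ, -p.κ ≤ B → ∀ v : ℝ, ‖k v‖ ≤ p.M p.N B * Real.exp (-(B * v)))
    (hk2 : ∀ v : ℝ, g v = ∫ y : ℝ, k y * gz p.N (v - y)) (v : ℝ) :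
    Integrable (fun y : ℝ => k y * DD0 lam (gz p.N) (v - y)) ∧
    DD0 lam g v = ∫ y : ℝ, k y * DD0 lam (gz p.N) (v - y) := by
  have hκ := p.hκ
  have hN := kd_N1 p
  refine DD0_conv (κ := p.κ) (C := max (p.M p.N (-p.κ)) (p.M p.N (p.N + 1))) p.hA (kd_N2 p)
    p.hκ hlam hk ?_ ?_ hk2 v
  · intro v
    have h := hk1 (-p.κ) le_rfl v
    have e : -(-p.κ * v) = p.κ * v := by ring
    rw [e] at h
    exact h.trans (mul_le_mul_of_nonneg_right (le_max_left _ _) (Real.exp_pos _).le)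
  · intro v
    have h := hk1 (p.N + 1) (by linarith) v
    exact h.trans (mul_le_mul_of_nonneg_right (le_max_right _ _) (Real.exp_pos _).le)

theorem kd_sum {p : Par} {lam : ℕ → ℂ} {g k : ℝ → ℂ}
    (hlam : ∀ m : ℕ, 1 ≤ m → ‖lam m‖ ≤ (m : ℝ) ^ p.A) (hk : Continuous k)
    (hk1 : ∀ B : ℝ, -p.κ ≤ B → ∀ v : ℝ, ‖k v‖ ≤ p.M p.N B * Real.exp (-(B * v)))
    (hk2 : ∀ v : ℝ, g v = ∫ y : ℝ, k y * gz p.N (v - y)) (S : Finset ℕ) (c : ℕ → ℕ → ℂ)
    (e : ℕ → ℕ → ℝ) (x : ℝ) :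
    Integrable (fun y : ℝ => k y * ∑ i ∈ S, ∑ j ∈ S,
      c i j * DD0 lam (gz p.N) (x - y + e i j)) ∧
    ∑ i ∈ S, ∑ j ∈ S, c i j * DD0 lam g (x + e i j) =
      ∫ y : ℝ, k y * ∑ i ∈ S, ∑ j ∈ S, c i j * DD0 lam (gz p.N) (x - y + e i j) := by
  have h : ∀ i j : ℕ,
      Integrable (fun y : ℝ => c i j * (k y * DD0 lam (gz p.N) (x - y + e i j))) ∧
      ∫ y : ℝ, c i j * (k y * DD0 lam (gz p.N) (x - y + e i j)) =
        c i j * DD0 lam g (x + e i j) := by
    intro i j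
    obtain ⟨h1, h2⟩ := kd_conv hlam hk hk1 hk2 (x + e i j)
    have e1 : (fun y : ℝ => k y * DD0 lam (gz p.N) (x + e i j - y)) =
        fun y : ℝ => k y * DD0 lam (gz p.N) (x - y + e i j) := by
      funext y
      congr 2
      ring
    rw [e1] at h1 h2
    exact ⟨h1.const_mul _, by rw [integral_const_mul, h2]⟩
  have e1 : (fun y : ℝ => k y * ∑ i ∈ S, ∑ j ∈ S,
      c i j * DD0 lam (gz p.N) (x - y + e i j)) =
      fun y : ℝ => ∑ i ∈ S, ∑ j ∈ S, c i j * (k y * DD0 lam (gz p.N) (x - y + e i j)) := by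
    funext y
    rw [Finset.mul_sum]
    refine Finset.sum_congr rfl fun i _ => ?_
    rw [Finset.mul_sum]
    refine Finset.sum_congr rfl fun j _ => ?_
    ring
  rw [e1]
  refine ⟨integrable_finset_sum _ fun i _ => integrable_finset_sum _ fun j _ => (h i j).1, ?_⟩
  rw [integral_finset_sum _ (fun i _ => integrable_finset_sum _ fun j _ => (h i j).1)]
  refine Finset.sum_congr rfl fun i _ => ?_
  rw [integral_finset_sum _ (fun j _ => (h i j).1)]
  exact Finset.sum_congr rfl fun j _ => (h i j).2.symm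

theorem kd_k_int {p : Par} {k : ℝ → ℂ} (hk : Continuous k)
    (hk1 : ∀ B : ℝ, -p.κ ≤ B → ∀ v : ℝ, ‖k v‖ ≤ p.M p.N B * Real.exp (-(B * v))) (v : ℝ) :
    Integrable (fun y : ℝ => k y * gz p.N (v - y)) := by
  obtain ⟨C, _, hC⟩ := k_le p (kd_N1 p)
  have h1 : Integrable k := by
    refine ((exp_int p).1.const_mul C).mono' hk.aestronglyMeasurable
      (Eventually.of_forall fun y => hC k hk1 y)
  refine h1.mul_bdd (c := 1) ?_ (Eventually.of_forall fun y => ?_)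
  · exact ((kd_gz_cont p).comp (continuous_const.sub continuous_id)).aestronglyMeasurable
  · rw [kd_gz_norm]
    exact ((G0_facts (kd_N1 p)).2 _).2.1

theorem fd_exp {p : Par} {q : ℕ} (hq : 2 ≤ q) {S : Finset ℕ} {lam al : ℕ → ℂ} {g k : ℝ → ℂ}
    {X : LData} (H : Mem p q S lam al g X) (hk : Continuous k)
    (hk1 : ∀ B : ℝ, -p.κ ≤ B → ∀ v : ℝ, ‖k v‖ ≤ p.M p.N B * Real.exp (-(B * v)))
    (hk2 : ∀ v : ℝ, g v = ∫ y : ℝ, k y * gz p.N (v - y)) (x : ℝ) :
    Integrable (fun y : ℝ => k y * PF p.N (Real.log q) S lam al (x - y)) ∧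
    X.fd S (bb al) ll x = ∫ y : ℝ, k y * PF p.N (Real.log q) S lam al (x - y) := by
  have h := kd_sum H.lam_le hk hk1 hk2 S
    (fun i j => bb al i * starRingEnd ℂ (bb al j)) (fun i j => ll i - ll j - Real.log q / 2) x
  refine ⟨h.1, ?_⟩
  have e : X.fd S (bb al) ll x = ∑ i ∈ S, ∑ j ∈ S, bb al i * starRingEnd ℂ (bb al j) *
      DD0 lam g (x + (ll i - ll j - Real.log q / 2)) := by
    unfold LData.fd
    rw [H.dens, H.cond]
  rw [e]
  exact h.2

theorem Dd_exp {p : Par} {q : ℕ} (hq : 2 ≤ q) {S : Finset ℕ} {lam al : ℕ → ℂ} {g k : ℝ → ℂ}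
    {X : LData} (H : Mem p q S lam al g X) (hk : Continuous k)
    (hk1 : ∀ B : ℝ, -p.κ ≤ B → ∀ v : ℝ, ‖k v‖ ≤ p.M p.N B * Real.exp (-(B * v)))
    (hk2 : ∀ v : ℝ, g v = ∫ y : ℝ, k y * gz p.N (v - y)) (x : ℝ) :
    Integrable (fun y : ℝ => k y * PH p.N (Real.log q) S lam al (x - y)) ∧
    X.Dd S (bb al) ll (x - Real.log q / 2) - g (x - Real.log q / 2) =
      ∫ y : ℝ, k y * PH p.N (Real.log q) S lam al (x - y) := by
  have h := kd_sum H.lam_le hk hk1 hk2 S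
    (fun i j => bb al i * bb al j) (fun i j => ll i + ll j - Real.log q / 2) x
  have h2 := kd_k_int (p := p) hk hk1 (x - Real.log q / 2)
  have e1 : (fun y : ℝ => k y * gz p.N (x - Real.log q / 2 - y)) =
      fun y : ℝ => k y * gz p.N (x - y - Real.log q / 2) := by
    funext y
    congr 2
    ring
  have e2 : (fun y : ℝ => k y * PH p.N (Real.log q) S lam al (x - y)) =
      fun y : ℝ => (k y * ∑ i ∈ S, ∑ j ∈ S, bb al i * bb al j *
        DD0 lam (gz p.N) (x - y + (ll i + ll j - Real.log q / 2))) -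
        k y * gz p.N (x - y - Real.log q / 2) := by
    funext y
    unfold PH
    ring
  rw [e1] at h2
  rw [e2]
  refine ⟨h.1.sub h2, ?_⟩
  rw [integral_sub h.1 h2, hk2 (x - Real.log q / 2), e1, ← h.2]
  congr 1
  unfold LData.Dd
  rw [H.dens]
  refine Finset.sum_congr rfl fun i _ => Finset.sum_congr rfl fun j _ => ?_
  congr 2
  ring

theorem PF_cont {p : Par} {q : ℕ} {S : Finset ℕ} {lam al : ℕ → ℂ} {g : ℝ → ℂ}
    {X : LData} (H : Mem p q S lam al g X) (L : ℝ) :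
    Continuous (PF p.N L S lam al) ∧ Continuous (PH p.N L S lam al) := by
  have hD := kd_D_cont p H.lam_le
  have hg := kd_gz_cont p
  constructor
  · unfold PF
    refine continuous_finset_sum _ fun i _ => continuous_finset_sum _ fun j _ => ?_
    exact continuous_const.mul (hD.comp (continuous_id.add continuous_const))
  · unfold PH
    refine Continuous.sub ?_ (hg.comp (continuous_id.sub continuous_const))
    refine continuous_finset_sum _ fun i _ => continuous_finset_sum _ fun j _ => ?_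
    exact continuous_const.mul (hD.comp (continuous_id.add continuous_const))

end Pool.Agent.SGD
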