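import Pool.Agent.Lib_helper45.SGD.Defs
import Pool.Agent.Lib_helper45.SGDF.KB
import Pool.Agent.Lib_helper45.SGDF.KC

set_option autoImplicit false

namespace Pool.Agent.SGD

open Complex MeasureTheory Filter Topology
open Pool.Agent.SQS (hat)
open Pool.Agent.ABS (LData Nice oddZ win)
open scoped ENNReal

theorem ke1_card {p : Par} {q : ℕ} {S : Finset ℕ} {lam al : ℕ → ℂ} {g : ℝ → ℂ} {X : LData}
    (H : Mem p q S lam al g X) : (S.card : ℝ) ≤ (q : ℝ) ^ p.η := by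
  have h0 : (0 : ℝ) ≤ (q : ℝ) ^ p.η := Real.rpow_nonneg (Nat.cast_nonneg q) _
  have hsub : S ⊆ Finset.Icc 1 ⌊(q : ℝ) ^ p.η⌋₊ := by
    intro k hk
    obtain ⟨h1, h2⟩ := H.S_le k hk
    rw [Finset.mem_Icc]
    exact ⟨h1, Nat.le_floor h2⟩
  have h1 := Finset.card_le_card hsub
  rw [Nat.card_Icc] at h1
  have h2 : (S.card : ℝ) ≤ (⌊(q : ℝ) ^ p.η⌋₊ : ℝ) := by
    exact_mod_cast (by omega : S.card ≤ ⌊(q : ℝ) ^ p.η⌋₊)
  exact h2.trans (Nat.floor_le h0)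

theorem ke1_bb {p : Par} {q : ℕ} {S : Finset ℕ} {lam al : ℕ → ℂ} {g : ℝ → ℂ} {X : LData}
    (H : Mem p q S lam al g X) {k : ℕ} (hk : k ∈ S) : ‖bb al k‖ ≤ (q : ℝ) ^ (p.η * p.A) := by
  obtain ⟨h1, h2⟩ := H.S_le k hk
  have hk1 : (1 : ℝ) ≤ (k : ℝ) := by exact_mod_cast h1
  have hk0 : (0 : ℝ) ≤ (k : ℝ) := by linarith
  unfold bb
  rw [norm_mul, Complex.norm_real, Real.norm_of_nonneg (Real.rpow_nonneg hk0 _)]
  have h3 : (k : ℝ) ^ (-(1 / 2) : ℝ) ≤ 1 :=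
    Real.rpow_le_one_of_one_le_of_nonpos hk1 (by norm_num)
  have h4 : (k : ℝ) ^ p.A ≤ (q : ℝ) ^ (p.η * p.A) := by
    rw [Real.rpow_mul (Nat.cast_nonneg q)]
    exact Real.rpow_le_rpow hk0 h2 p.hA
  calc ‖al k‖ * (k : ℝ) ^ (-(1 / 2) : ℝ) ≤ (k : ℝ) ^ p.A * 1 :=
        mul_le_mul (H.al_le k hk) h3 (Real.rpow_nonneg hk0 _) (Real.rpow_nonneg hk0 _)
    _ ≤ _ := by rw [mul_one]; exact h4

theorem ke1_ll {p : Par} {q : ℕ} (hq : 2 ≤ q) {S : Finset ℕ} {lam al : ℕ → ℂ} {g : ℝ → ℂ}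
    {X : LData} (H : Mem p q S lam al g X) {k : ℕ} (hk : k ∈ S) :
    0 ≤ ll k ∧ ll k ≤ p.η * Real.log q := by
  obtain ⟨h1, h2⟩ := H.S_le k hk
  have hk1 : (1 : ℝ) ≤ (k : ℝ) := by exact_mod_cast h1
  have hq0 : (0 : ℝ) < (q : ℝ) := by
    have : (2 : ℝ) ≤ (q : ℝ) := by exact_mod_cast hq
    linarith
  unfold ll
  refine ⟨Real.log_nonneg hk1, ?_⟩
  have h3 := Real.log_le_log (by linarith) h2
  rwa [Real.log_rpow hq0] at h3

/-- the double sum -/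
theorem ke1_sum {p : Par} {q : ℕ} {S : Finset ℕ} {lam al : ℕ → ℂ} {g : ℝ → ℂ}
    {X : LData} (H : Mem p q S lam al g X) {F : ℕ → ℕ → ℂ} {B : ℝ} (hB : 0 ≤ B)
    (hF : ∀ k ∈ S, ∀ k' ∈ S, ‖F k k'‖ ≤ (q : ℝ) ^ (p.η * p.A) * (q : ℝ) ^ (p.η * p.A) * B) :
    ‖∑ k ∈ S, ∑ k' ∈ S, F k k'‖ ≤
      ((q : ℝ) ^ p.η * (q : ℝ) ^ p.η) * ((q : ℝ) ^ (p.η * p.A) * (q : ℝ) ^ (p.η * p.A) * B) := by
  have hq0 : (0 : ℝ) ≤ (q : ℝ) := Nat.cast_nonneg q
  have hc := ke1_card H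
  set D : ℝ := (q : ℝ) ^ (p.η * p.A) * (q : ℝ) ^ (p.η * p.A) * B with hD
  have hD0 : 0 ≤ D := by
    have := Real.rpow_nonneg hq0 (p.η * p.A)
    positivity
  have h1 : ∀ k ∈ S, ‖∑ k' ∈ S, F k k'‖ ≤ S.card * D := by
    intro k hk
    refine (norm_sum_le _ _).trans ?_
    refine (Finset.sum_le_sum fun k' hk' => hF k hk k' hk').trans ?_
    rw [Finset.sum_const, nsmul_eq_mul]
  have h2 : ‖∑ k ∈ S, ∑ k' ∈ S, F k k'‖ ≤ S.card * (S.card * D) := by
    refine (norm_sum_le _ _).trans ?_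
    refine (Finset.sum_le_sum fun k hk => h1 k hk).trans ?_
    rw [Finset.sum_const, nsmul_eq_mul]
  refine h2.trans ?_
  have hc0 : (0 : ℝ) ≤ (S.card : ℝ) := Nat.cast_nonneg _
  calc (S.card : ℝ) * (S.card * D) = (S.card * S.card) * D := by ring
    _ ≤ ((q : ℝ) ^ p.η * (q : ℝ) ^ p.η) * D :=
        mul_le_mul_of_nonneg_right (mul_le_mul hc hc hc0 (hc0.trans hc)) hD0

theorem ke1_gz {p : Par} (v : ℝ) : ‖gz p.N v‖ ≤ 1 * Real.exp (-(p.N * v)) := by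
  have hN : 1 ≤ p.N := by
    have := N_ge p
    have := p.hA
    linarith
  obtain ⟨_, h⟩ := G0_facts hN
  obtain ⟨h0, _, h2, _⟩ := h v
  unfold gz
  rw [Complex.norm_real, Real.norm_of_nonneg h0.le, one_mul]
  exact h2

theorem ke1_DD0 {p : Par} {q : ℕ} {S : Finset ℕ} {lam al : ℕ → ℂ} {g : ℝ → ℂ}
    {X : LData} (H : Mem p q S lam al g X) (v : ℝ) :
    ‖DD0 lam (gz p.N) v‖ ≤ 2 * Real.exp (-(p.N * v)) := by
  have hN := N_ge p
  have hA := p.hA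
  have := (DD0_bound p.hA (by linarith : p.A + 2 ≤ p.N) H.lam_le ke1_gz v).2
  linarith

/-- powers of `q` are exponentials -/
theorem ke1_pow {q : ℕ} (hq : 2 ≤ q) (x : ℝ) : (q : ℝ) ^ x = Real.exp (x * Real.log q) := by
  have hq0 : (0 : ℝ) < (q : ℝ) := by
    have : (2 : ℝ) ≤ (q : ℝ) := by exact_mod_cast hq
    linarith
  rw [Real.rpow_def_of_pos hq0, mul_comm]

/-! ## Block KE1 (CRU): crude bounds (cites KB, KC) -/

theorem P_crude (p : Par) : ∃ q₀ : ℕ, ∀ q : ℕ, q₀ ≤ q → ∀ {S : Finset ℕ} {lam al : ℕ → ℂ}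
    {g : ℝ → ℂ} {X : LData}, Mem p q S lam al g X → ∀ z : ℝ,
    ‖PF p.N (Real.log q) S lam al z‖ ≤ (q : ℝ) ^ (3 / 4 * p.N) * Real.exp (-(p.N * z)) ∧
    ‖PH p.N (Real.log q) S lam al z‖ ≤ (q : ℝ) ^ (3 / 4 * p.N) * Real.exp (-(p.N * z)) := by
  refine ⟨2, fun q hq S lam al g X H z => ?_⟩
  have hN := N_ge p
  have hA := p.hA
  have hη := p.hη
  have hη1 := p.hη1
  have hq2 : (2 : ℝ) ≤ (q : ℝ) := by exact_mod_cast hq
  have hq0 : (0 : ℝ) < (q : ℝ) := by linarith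
  have hN0 : 0 < p.N := by linarith
  set L : ℝ := Real.log q with hL
  have hL0 : 0 < L := Real.log_pos (by linarith)
  have hqe : Real.exp L = q := Real.exp_log hq0
  have hηA : 0 ≤ p.η * p.A := by positivity
  -- the general bound
  have key : ∀ (F : ℕ → ℕ → ℂ) (w : ℕ → ℕ → ℝ),
      (∀ k ∈ S, ∀ k' ∈ S, ‖F k k'‖ ≤ ‖bb al k‖ * ‖bb al k'‖) →
      (∀ k ∈ S, ∀ k' ∈ S, -(p.η * L) ≤ w k k') →
      ‖∑ k ∈ S, ∑ k' ∈ S, F k k' * DD0 lam (gz p.N) (z + (w k k' - L / 2))‖ ≤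
        2 * (Real.exp ((3 / 4 * p.N - 2) * L) * Real.exp (-(p.N * z))) := by
    intro F w hF hw
    have hB : 0 ≤ 2 * (Real.exp (p.N * (p.η * L + L / 2)) * Real.exp (-(p.N * z))) := by positivity
    refine (ke1_sum H hB fun k hk k' hk' => ?_).trans ?_
    · rw [norm_mul]
      have h1 : ‖F k k'‖ ≤ (q : ℝ) ^ (p.η * p.A) * (q : ℝ) ^ (p.η * p.A) :=
        (hF k hk k' hk').trans (mul_le_mul (ke1_bb H hk) (ke1_bb H hk') (norm_nonneg _)
          (Real.rpow_nonneg hq0.le _))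
      have h2 : ‖DD0 lam (gz p.N) (z + (w k k' - L / 2))‖ ≤
          2 * (Real.exp (p.N * (p.η * L + L / 2)) * Real.exp (-(p.N * z))) := by
        refine (ke1_DD0 H _).trans ?_
        rw [← Real.exp_add]
        refine mul_le_mul_of_nonneg_left (Real.exp_le_exp.2 ?_) (by norm_num)
        have h3 := hw k hk k' hk'
        nlinarith
      exact mul_le_mul h1 h2 (norm_nonneg _)
        (mul_nonneg (Real.rpow_nonneg hq0.le _) (Real.rpow_nonneg hq0.le _))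
    · rw [ke1_pow hq, ke1_pow hq, ← hL]
      have h4 : Real.exp (p.η * L) * Real.exp (p.η * L) *
          (Real.exp (p.η * p.A * L) * Real.exp (p.η * p.A * L) *
            (2 * (Real.exp (p.N * (p.η * L + L / 2)) * Real.exp (-(p.N * z))))) =
          2 * (Real.exp (p.η * L + p.η * L + (p.η * p.A * L + p.η * p.A * L) +
            p.N * (p.η * L + L / 2)) * Real.exp (-(p.N * z))) := by
        rw [Real.exp_add, Real.exp_add, Real.exp_add, Real.exp_add]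
        ring
      rw [h4]
      refine mul_le_mul_of_nonneg_left (mul_le_mul_of_nonneg_right (Real.exp_le_exp.2 ?_)
        (Real.exp_pos _).le) (by norm_num)
      have h5 : p.η * L + p.η * L + (p.η * p.A * L + p.η * p.A * L) + p.N * (p.η * L + L / 2) =
          (2 * p.η * (1 + p.A) + p.N * p.η + p.N / 2) * L := by ring
      rw [h5]
      refine mul_le_mul_of_nonneg_right ?_ hL0.le
      have h6 : p.η * (1 + p.A) ≤ 1 / 8 * (1 + p.A) := mul_le_mul_of_nonneg_right hη1 (by linarith)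
      have h7 : p.N * p.η ≤ p.N * (1 / 8) := mul_le_mul_of_nonneg_left hη1 hN0.le
      nlinarith
  have hfin : ∀ x : ℝ, 0 ≤ x → 3 * (Real.exp ((3 / 4 * p.N - 2) * L) * x) ≤
      (q : ℝ) ^ (3 / 4 * p.N) * x := by
    intro x hx
    have h1 : (q : ℝ) ^ (3 / 4 * p.N) = Real.exp ((3 / 4 * p.N - 2) * L) * (q * q) := by
      rw [ke1_pow hq, ← hL, ← hqe, ← Real.exp_add, ← Real.exp_add]
      congr 1
      ring
    rw [h1]
    have h2 : (3 : ℝ) ≤ q * q := by nlinarith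
    have h3 := mul_le_mul_of_nonneg_right h2 (mul_nonneg (Real.exp_pos ((3 / 4 * p.N - 2) * L)).le hx)
    calc _ ≤ _ := h3
      _ = _ := by ring
  have hE0 : 0 ≤ Real.exp (-(p.N * z)) := (Real.exp_pos _).le
  have hll := fun k (hk : k ∈ S) => ke1_ll hq H hk
  constructor
  · have h1 := key (fun k k' => bb al k * starRingEnd ℂ (bb al k')) (fun k k' => ll k - ll k')
      (fun k _ k' _ => by rw [norm_mul, RCLike.norm_conj])
      (fun k hk k' hk' => by have := hll k hk; have := hll k' hk'; linarith)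
    have h2 : PF p.N L S lam al z = ∑ k ∈ S, ∑ k' ∈ S, bb al k * starRingEnd ℂ (bb al k') *
        DD0 lam (gz p.N) (z + (ll k - ll k' - L / 2)) := rfl
    rw [h2]
    refine h1.trans (le_trans ?_ (hfin _ hE0))
    have : 0 ≤ Real.exp ((3 / 4 * p.N - 2) * L) * Real.exp (-(p.N * z)) := by positivity
    linarith
  · have h1 := key (fun k k' => bb al k * bb al k') (fun k k' => ll k + ll k')
      (fun k _ k' _ => by rw [norm_mul])
      (fun k hk k' hk' => by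
        have := hll k hk
        have := hll k' hk'
        have : 0 ≤ p.η * L := by positivity
        linarith)
    have h2 : PH p.N L S lam al z = (∑ k ∈ S, ∑ k' ∈ S, bb al k * bb al k' *
        DD0 lam (gz p.N) (z + (ll k + ll k' - L / 2))) - gz p.N (z - L / 2) := rfl
    have h3 : ‖gz p.N (z - L / 2)‖ ≤ Real.exp ((3 / 4 * p.N - 2) * L) * Real.exp (-(p.N * z)) := by
      refine (ke1_gz _).trans ?_
      rw [one_mul, ← Real.exp_add]
      refine Real.exp_le_exp.2 ?_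
      nlinarith
    rw [h2]
    refine (norm_sub_le _ _).trans (le_trans ?_ (hfin _ hE0))
    linarith


end Pool.Agent.SGD
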