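import Pool.Agent.Lib_helper45.SGD.Defs
import Pool.Agent.Lib_helper45.SGDF.KB
import Pool.Agent.Lib_helper45.SGDF.KC

set_option autoImplicit false

namespace Pool.Agent.SGD

open Complex MeasureTheory Filter Topology
open Pool.Agent.SQS (hat)
open Pool.Agent.ABS (LData Nice oddZ win)
open scoped ENNReal

theorem ke2_card {p : Par} {q : ℕ} {S : Finset ℕ} {lam al : ℕ → ℂ} {g : ℝ → ℂ} {X : LData}
    (H : Mem p q S lam al g X) : (S.card : ℝ) ≤ (q : ℝ) ^ p.η := by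
  have h0 : (0 : ℝ) ≤ (q : ℝ) ^ p.η := Real.rpow_nonneg (Nat.cast_nonneg q) _
  have hsub : S ⊆ Finset.Icc 1 ⌊(q : ℝ) ^ p.η⌋₊ := by
    intro k hk
    obtain ⟨h1, h2⟩ := H.S_le k hk
    rw [Finset.mem_Icc]
    exact ⟨h1, Nat.le_floor h2⟩
  have h1 := Finset.card_le_card hsub
  rw [Nat.card_Icc] at h1
  have h2 : (S.card : ℝ) ≤ (⌊(q : ℝ) ^ p.η⌋₊ : ℝ) := by
    exact_mod_cast (by omega : S.card ≤ ⌊(q : ℝ) ^ p.η⌋₊)
  exact h2.trans (Nat.floor_le h0)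

theorem ke2_bb {p : Par} {q : ℕ} {S : Finset ℕ} {lam al : ℕ → ℂ} {g : ℝ → ℂ} {X : LData}
    (H : Mem p q S lam al g X) {k : ℕ} (hk : k ∈ S) : ‖bb al k‖ ≤ (q : ℝ) ^ (p.η * p.A) := by
  obtain ⟨h1, h2⟩ := H.S_le k hk
  have hk1 : (1 : ℝ) ≤ (k : ℝ) := by exact_mod_cast h1
  have hk0 : (0 : ℝ) ≤ (k : ℝ) := by linarith
  unfold bb
  rw [norm_mul, Complex.norm_real, Real.norm_of_nonneg (Real.rpow_nonneg hk0 _)]
  have h3 : (k : ℝ) ^ (-(1 / 2) : ℝ) ≤ 1 :=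
    Real.rpow_le_one_of_one_le_of_nonpos hk1 (by norm_num)
  have h4 : (k : ℝ) ^ p.A ≤ (q : ℝ) ^ (p.η * p.A) := by
    rw [Real.rpow_mul (Nat.cast_nonneg q)]
    exact Real.rpow_le_rpow hk0 h2 p.hA
  calc ‖al k‖ * (k : ℝ) ^ (-(1 / 2) : ℝ) ≤ (k : ℝ) ^ p.A * 1 :=
        mul_le_mul (H.al_le k hk) h3 (Real.rpow_nonneg hk0 _) (Real.rpow_nonneg hk0 _)
    _ ≤ _ := by rw [mul_one]; exact h4

/-- powers of `q` are exponentials -/
theorem ke2_pow {q : ℕ} (hq : 2 ≤ q) (x : ℝ) : (q : ℝ) ^ x = Real.exp (x * Real.log q) := by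
  have hq0 : (0 : ℝ) < (q : ℝ) := by
    have : (2 : ℝ) ≤ (q : ℝ) := by exact_mod_cast hq
    linarith
  rw [Real.rpow_def_of_pos hq0, mul_comm]

/-- the sum of `m^{-2}` -/
theorem ke2_tsum (M : ℕ) : Summable (fun j : ℕ => (((M + j : ℕ) : ℝ) + 1) ^ (-2 : ℝ)) ∧
    ∑' j : ℕ, (((M + j : ℕ) : ℝ) + 1) ^ (-2 : ℝ) ≤ 2 := by
  have h1 : HasSum (fun n : ℕ => 1 / (n : ℝ) ^ 2) (Real.pi ^ 2 / 6) := hasSum_zeta_two
  have hs : Summable (fun n : ℕ => 1 / (n : ℝ) ^ 2) := h1.summable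
  have he : ∀ n : ℕ, (((n : ℕ) : ℝ) + 1) ^ (-2 : ℝ) = 1 / ((n + 1 : ℕ) : ℝ) ^ 2 := by
    intro n
    push_cast
    rw [Real.rpow_neg (by positivity), one_div]
    congr 1
    exact_mod_cast Real.rpow_natCast ((n : ℝ) + 1) 2
  have hs1 : Summable (fun n : ℕ => (((n : ℕ) : ℝ) + 1) ^ (-2 : ℝ)) := by
    simp_rw [he]
    exact (summable_nat_add_iff 1).2 hs
  have hs2 : Summable (fun j : ℕ => (((M + j : ℕ) : ℝ) + 1) ^ (-2 : ℝ)) := by
    have := (summable_nat_add_iff M).2 hs1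
    refine this.congr fun j => ?_
    rw [add_comm j M]
  refine ⟨hs2, ?_⟩
  have h2 : ∑' n : ℕ, (((n : ℕ) : ℝ) + 1) ^ (-2 : ℝ) = Real.pi ^ 2 / 6 := by
    simp_rw [he]
    have h3 := hs.sum_add_tsum_nat_add 1
    rw [h1.tsum_eq] at h3
    simp at h3
    simpa using h3
  have h3 : ∑' j : ℕ, (((M + j : ℕ) : ℝ) + 1) ^ (-2 : ℝ) ≤
      ∑' n : ℕ, (((n : ℕ) : ℝ) + 1) ^ (-2 : ℝ) := by
    have h4 := hs1.sum_add_tsum_nat_add M
    have h5 : 0 ≤ ∑ i ∈ Finset.range M, (((i : ℕ) : ℝ) + 1) ^ (-2 : ℝ) :=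
      Finset.sum_nonneg fun i _ => by positivity
    have h6 : ∑' j : ℕ, (((M + j : ℕ) : ℝ) + 1) ^ (-2 : ℝ) =
        ∑' j : ℕ, (((j + M : ℕ) : ℝ) + 1) ^ (-2 : ℝ) := by
      refine tsum_congr fun j => ?_
      rw [add_comm j M]
    rw [h6]
    linarith
  have h7 : Real.pi ^ 2 / 6 ≤ 2 := by
    have := Real.pi_lt_d2
    have := Real.pi_pos
    nlinarith
  linarith

/-- the terms of the series of `DD0` -/
noncomputable def ke2_T (lam : ℕ → ℂ) (N v : ℝ) (m : ℕ) : ℂ :=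
  lam (m + 1) * (((m : ℝ) + 1) ^ (-(1 / 2) : ℝ) : ℝ) * gz N (v + Real.log (m + 1))

/-- the tail of the series of `DD0` -/
theorem ke2_tail {p : Par} {q : ℕ} (hq : 2 ≤ q) {S : Finset ℕ} {lam al : ℕ → ℂ} {g : ℝ → ℂ}
    {X : LData} (H : Mem p q S lam al g X) {z : ℝ} (hz : -(p.κ' / 2 * Real.log q) ≤ z)
    {k k' : ℕ} (hk : k ∈ S) (hk' : k' ∈ S) :
    ‖DD0 lam (gz p.N) (z + (ll k - ll k' - Real.log q / 2)) -
      ∑ m ∈ Finset.range ⌊(q : ℝ) ^ (1 / 2 + p.κ') * k' / k⌋₊,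
        ke2_T lam p.N (z + (ll k - ll k' - Real.log q / 2)) m‖ ≤
      2 * Real.exp ((p.η * (p.A + 2) - 8 * (p.A + 3) + (1 / 2 + p.κ') * (p.A + 2)) *
        Real.log q) := by
  have hN := N_ge p
  have hA := p.hA
  have hη := p.hη
  have hκ' := p.hκ'
  have hq2 : (2 : ℝ) ≤ (q : ℝ) := by exact_mod_cast hq
  have hq0 : (0 : ℝ) < (q : ℝ) := by linarith
  have hN0 : 0 < p.N := by linarith
  have hNκ : p.N * p.κ' = 16 * (p.A + 3) := by
    unfold Par.N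
    field_simp
  set L : ℝ := Real.log q with hL
  have hL0 : 0 < L := Real.log_pos (by linarith)
  set R : ℝ := (q : ℝ) ^ (1 / 2 + p.κ') with hR
  have hR0 : 0 < R := Real.rpow_pos_of_pos hq0 _
  have hRL : Real.log R = (1 / 2 + p.κ') * L := by rw [hR, Real.log_rpow hq0]
  obtain ⟨hk1, -⟩ := H.S_le k hk
  obtain ⟨hk1', hk2'⟩ := H.S_le k' hk'
  have hkr : (1 : ℝ) ≤ (k : ℝ) := by exact_mod_cast hk1
  have hkr' : (1 : ℝ) ≤ (k' : ℝ) := by exact_mod_cast hk1'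
  have hk0 : (0 : ℝ) < (k : ℝ) := by linarith
  have hk0' : (0 : ℝ) < (k' : ℝ) := by linarith
  have hlk : ll k' ≤ p.η * L := by
    unfold ll
    have h3 := Real.log_le_log hk0' hk2'
    rwa [Real.log_rpow hq0] at h3
  have hlk0 : 0 ≤ ll k := Real.log_nonneg hkr
  set v : ℝ := z + (ll k - ll k' - L / 2) with hv
  set M : ℕ := ⌊R * k' / k⌋₊ with hM
  have hN1 : 1 ≤ p.N := by linarith
  have hgz : ∀ v : ℝ, ‖gz p.N v‖ ≤ 1 * Real.exp (-(p.N * v)) := by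
    intro v
    obtain ⟨_, h⟩ := G0_facts hN1
    obtain ⟨h0, _, h2, _⟩ := h v
    unfold gz
    rw [Complex.norm_real, Real.norm_of_nonneg h0.le, one_mul]
    exact h2
  have hsum := (DD0_bound p.hA (by linarith : p.A + 2 ≤ p.N) H.lam_le hgz v).1
  have hsm : Summable (fun m : ℕ => ke2_T lam p.N v m) := by
    refine Summable.of_norm ?_
    exact hsum
  have h1 : DD0 lam (gz p.N) v = ∑' m : ℕ, ke2_T lam p.N v m := rfl
  have h2 := hsm.sum_add_tsum_nat_add M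
  rw [h1, ← h2, add_sub_cancel_left]
  obtain ⟨hs2, hs3⟩ := ke2_tsum M
  set D : ℝ := Real.exp ((p.η * (p.A + 2) - 8 * (p.A + 3) + (1 / 2 + p.κ') * (p.A + 2)) * L)
    with hD
  have hterm : ∀ j : ℕ, ‖ke2_T lam p.N v (j + M)‖ ≤ (((M + j : ℕ) : ℝ) + 1) ^ (-2 : ℝ) * D := by
    intro j
    have hcast : (((j + M : ℕ) : ℝ)) = ((M + j : ℕ) : ℝ) := by rw [add_comm]
    set m : ℝ := ((M + j : ℕ) : ℝ) + 1 with hm
    have hm1 : 1 ≤ m := by
      have : (0 : ℝ) ≤ ((M + j : ℕ) : ℝ) := Nat.cast_nonneg _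
      linarith
    have hm0 : 0 < m := by linarith
    have hmR : R * k' / k < m := by
      have h3 := Nat.lt_floor_add_one (R * k' / k)
      rw [← hM] at h3
      have h4 : (M : ℝ) ≤ ((M + j : ℕ) : ℝ) := by exact_mod_cast Nat.le_add_right M j
      linarith
    have hlm : Real.log R + ll k' - ll k < Real.log m := by
      have h3 : 0 < R * k' / k := by positivity
      have h4 := Real.log_lt_log h3 hmR
      rw [Real.log_div (by positivity) hk0.ne', Real.log_mul hR0.ne' hk0'.ne'] at h4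
      exact h4
    unfold ke2_T
    rw [norm_mul, norm_mul, hcast, ← hm, Complex.norm_real,
      Real.norm_of_nonneg (Real.rpow_nonneg hm0.le _)]
    have h5 : ‖lam (j + M + 1)‖ ≤ m ^ p.A := by
      have := H.lam_le (j + M + 1) (by omega)
      refine this.trans (le_of_eq ?_)
      rw [hm]
      push_cast
      ring_nf
    have h6 : m ^ (-(1 / 2) : ℝ) ≤ 1 := Real.rpow_le_one_of_one_le_of_nonpos hm1 (by norm_num)
    have h7 := hgz (v + Real.log m)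
    rw [one_mul] at h7
    have h8 : ‖lam (j + M + 1)‖ * m ^ (-(1 / 2) : ℝ) * ‖gz p.N (v + Real.log m)‖ ≤
        m ^ p.A * 1 * Real.exp (-(p.N * (v + Real.log m))) := by
      refine mul_le_mul (mul_le_mul h5 h6 (Real.rpow_nonneg hm0.le _)
        (Real.rpow_nonneg hm0.le _)) h7 (norm_nonneg _) ?_
      rw [mul_one]
      exact Real.rpow_nonneg hm0.le _
    refine h8.trans ?_
    rw [mul_one, Real.rpow_def_of_pos hm0, Real.rpow_def_of_pos hm0, hD, ← Real.exp_add,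
      ← Real.exp_add]
    refine Real.exp_le_exp.2 ?_
    -- the exponents
    set lm : ℝ := Real.log m with hlm'
    have h9 : (p.N - p.A - 2) * (Real.log R + ll k' - ll k) ≤ (p.N - p.A - 2) * lm :=
      mul_le_mul_of_nonneg_left hlm.le (by linarith)
    have h10 : p.N * (-(p.κ' / 2 * L)) ≤ p.N * z := mul_le_mul_of_nonneg_left hz hN0.le
    have h11 : p.N * (p.κ' / 2 * L) = 8 * (p.A + 3) * L := by
      calc p.N * (p.κ' / 2 * L) = (p.N * p.κ') / 2 * L := by ring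
        _ = _ := by rw [hNκ]; ring
    have h12 : p.N * ((1 / 2 + p.κ') * L) = p.N * (L / 2) + 16 * (p.A + 3) * L := by
      calc p.N * ((1 / 2 + p.κ') * L) = p.N * (L / 2) + (p.N * p.κ') * L := by ring
        _ = _ := by rw [hNκ]
    have h13 : (p.A + 2) * ll k' ≤ (p.A + 2) * (p.η * L) :=
      mul_le_mul_of_nonneg_left hlk (by linarith)
    have h14 : 0 ≤ (p.A + 2) * ll k := mul_nonneg (by linarith) hlk0
    rw [hRL] at h9
    rw [hv]
    nlinarith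
  have h3 : ‖∑' j : ℕ, ke2_T lam p.N v (j + M)‖ ≤
      ∑' j : ℕ, (((M + j : ℕ) : ℝ) + 1) ^ (-2 : ℝ) * D :=
    tsum_of_norm_bounded (hs2.mul_right D).hasSum hterm
  refine h3.trans ?_
  rw [tsum_mul_right]
  exact mul_le_mul_of_nonneg_right hs3 (Real.exp_pos _).le

/-! ## Block KE2 (TLF): tails (cites KB, KC) -/

theorem P_tailF (p : Par) : ∃ q₀ : ℕ, ∀ q : ℕ, q₀ ≤ q → ∀ {S : Finset ℕ} {lam al : ℕ → ℂ}
    {g : ℝ → ℂ} {X : LData}, Mem p q S lam al g X → ∀ z : ℝ, -(p.κ' / 2 * Real.log q) ≤ z →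
    ‖PF p.N (Real.log q) S lam al z -
      SG S ((q : ℝ) ^ (1 / 2 + p.κ')) lam al (FG p.N (Real.log q) z)‖ ≤ (q : ℝ) ^ (-2 : ℝ) := by
  refine ⟨2, fun q hq S lam al g X H z hz => ?_⟩
  have hA := p.hA
  have hη := p.hη
  have hη1 := p.hη1
  have hκ' := p.hκ'
  have hκ'1 := p.hκ'1
  have hq2 : (2 : ℝ) ≤ (q : ℝ) := by exact_mod_cast hq
  have hq0 : (0 : ℝ) < (q : ℝ) := by linarith
  have hL0 : 0 < Real.log q := Real.log_pos (by linarith)
  -- the finite sums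
  have hfin : SG S ((q : ℝ) ^ (1 / 2 + p.κ')) lam al (FG p.N (Real.log q) z) =
      ∑ k ∈ S, ∑ k' ∈ S, bb al k * starRingEnd ℂ (bb al k') *
        ∑ m ∈ Finset.range ⌊(q : ℝ) ^ (1 / 2 + p.κ') * k' / k⌋₊,
          ke2_T lam p.N (z + (ll k - ll k' - Real.log q / 2)) m := by
    unfold SG
    refine Finset.sum_congr rfl fun k hk => Finset.sum_congr rfl fun k' hk' => ?_
    obtain ⟨hk1, -⟩ := H.S_le k hk
    obtain ⟨hk1', -⟩ := H.S_le k' hk'
    have hkr : (1 : ℝ) ≤ (k : ℝ) := by exact_mod_cast hk1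
    have hkr' : (1 : ℝ) ≤ (k' : ℝ) := by exact_mod_cast hk1'
    have hk0 : (0 : ℝ) < (k : ℝ) := by linarith
    have hk0' : (0 : ℝ) < (k' : ℝ) := by linarith
    set M : ℕ := ⌊(q : ℝ) ^ (1 / 2 + p.κ') * k' / k⌋₊ with hM
    rw [Finset.mul_sum]
    have h1 : Finset.Icc 1 M = (Finset.range M).image (fun m => m + 1) := by
      ext a
      simp only [Finset.mem_Icc, Finset.mem_image, Finset.mem_range]
      constructor
      · rintro ⟨h1, h2⟩
        exact ⟨a - 1, by omega, by omega⟩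
      · rintro ⟨b, hb, rfl⟩
        omega
    rw [h1, Finset.sum_image (fun a _ b _ h => by simpa using h)]
    refine Finset.sum_congr rfl fun m _ => ?_
    have hm0 : (0 : ℝ) < (m : ℝ) + 1 := by positivity
    have h2 : FG p.N (Real.log q) z (((m + 1 : ℕ) : ℝ) * k / k') =
        gz p.N (z + (ll k - ll k' - Real.log q / 2) + Real.log ((m : ℝ) + 1)) := by
      unfold FG ll
      push_cast
      rw [Real.log_div (by positivity) hk0'.ne', Real.log_mul hm0.ne' hk0.ne']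
      congr 1
      ring
    have h3 : ((((m + 1 : ℕ) : ℝ) * k * k') ^ (-(1 / 2) : ℝ) : ℝ) =
        ((m : ℝ) + 1) ^ (-(1 / 2) : ℝ) * (k : ℝ) ^ (-(1 / 2) : ℝ) *
          (k' : ℝ) ^ (-(1 / 2) : ℝ) := by
      push_cast
      rw [Real.mul_rpow (by positivity) hk0'.le, Real.mul_rpow hm0.le hk0.le]
    rw [h2, h3]
    unfold bb ke2_T
    rw [map_mul, Complex.conj_ofReal]
    push_cast
    ring
  have hPF : PF p.N (Real.log q) S lam al z = ∑ k ∈ S, ∑ k' ∈ S,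
      bb al k * starRingEnd ℂ (bb al k') *
        DD0 lam (gz p.N) (z + (ll k - ll k' - Real.log q / 2)) := rfl
  rw [hPF, hfin, ← Finset.sum_sub_distrib]
  simp_rw [← Finset.sum_sub_distrib, ← mul_sub]
  set L : ℝ := Real.log q with hL
  set D : ℝ := Real.exp ((p.η * (p.A + 2) - 8 * (p.A + 3) + (1 / 2 + p.κ') * (p.A + 2)) * L)
    with hD
  have hc := ke2_card H
  have hc0 : (0 : ℝ) ≤ (S.card : ℝ) := Nat.cast_nonneg _
  have hx0 := Real.rpow_nonneg hq0.le (p.η * p.A)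
  set B : ℝ := (q : ℝ) ^ (p.η * p.A) * (q : ℝ) ^ (p.η * p.A) * (2 * D) with hB
  have hD0 : 0 < D := Real.exp_pos _
  have hB0 : 0 ≤ B := by positivity
  have h1 : ∀ k ∈ S, ∀ k' ∈ S, ‖bb al k * starRingEnd ℂ (bb al k') *
      (DD0 lam (gz p.N) (z + (ll k - ll k' - L / 2)) -
        ∑ m ∈ Finset.range ⌊(q : ℝ) ^ (1 / 2 + p.κ') * k' / k⌋₊,
          ke2_T lam p.N (z + (ll k - ll k' - L / 2)) m)‖ ≤ B := by
    intro k hk k' hk'
    rw [norm_mul, norm_mul, RCLike.norm_conj]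
    exact mul_le_mul (mul_le_mul (ke2_bb H hk) (ke2_bb H hk') (norm_nonneg _) hx0)
      (ke2_tail hq H hz hk hk') (norm_nonneg _) (by positivity)
  have h2 : ∀ k ∈ S, ‖∑ k' ∈ S, bb al k * starRingEnd ℂ (bb al k') *
      (DD0 lam (gz p.N) (z + (ll k - ll k' - L / 2)) -
        ∑ m ∈ Finset.range ⌊(q : ℝ) ^ (1 / 2 + p.κ') * k' / k⌋₊,
          ke2_T lam p.N (z + (ll k - ll k' - L / 2)) m)‖ ≤ S.card * B := by
    intro k hk
    refine (norm_sum_le _ _).trans ?_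
    refine (Finset.sum_le_sum fun k' hk' => h1 k hk k' hk').trans ?_
    rw [Finset.sum_const, nsmul_eq_mul]
  refine (norm_sum_le _ _).trans ?_
  refine (Finset.sum_le_sum fun k hk => h2 k hk).trans ?_
  rw [Finset.sum_const, nsmul_eq_mul]
  have h3 : (S.card : ℝ) * (S.card * B) ≤ ((q : ℝ) ^ p.η * (q : ℝ) ^ p.η) * B := by
    calc (S.card : ℝ) * (S.card * B) = (S.card * S.card) * B := by ring
      _ ≤ _ := mul_le_mul_of_nonneg_right (mul_le_mul hc hc hc0 (hc0.trans hc)) hB0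
  refine h3.trans ?_
  rw [hB, hD, ke2_pow hq, ke2_pow hq, ke2_pow hq, ← hL]
  have h4 : Real.exp (p.η * L) * Real.exp (p.η * L) *
      (Real.exp (p.η * p.A * L) * Real.exp (p.η * p.A * L) * (2 *
        Real.exp ((p.η * (p.A + 2) - 8 * (p.A + 3) + (1 / 2 + p.κ') * (p.A + 2)) * L))) =
      2 * Real.exp (p.η * L + p.η * L + (p.η * p.A * L + p.η * p.A * L) +
        (p.η * (p.A + 2) - 8 * (p.A + 3) + (1 / 2 + p.κ') * (p.A + 2)) * L) := by
    rw [Real.exp_add, Real.exp_add, Real.exp_add, Real.exp_add]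
    ring
  rw [h4]
  have h5 : (2 : ℝ) ≤ Real.exp L := by
    rw [hL, Real.exp_log hq0]
    exact hq2
  refine (mul_le_mul_of_nonneg_right h5 (Real.exp_pos _).le).trans ?_
  rw [← Real.exp_add]
  refine Real.exp_le_exp.2 ?_
  have h6 : L + (p.η * L + p.η * L + (p.η * p.A * L + p.η * p.A * L) +
      (p.η * (p.A + 2) - 8 * (p.A + 3) + (1 / 2 + p.κ') * (p.A + 2)) * L) =
      (1 + 2 * (p.η * (1 + p.A)) + p.η * (p.A + 2) - 8 * (p.A + 3) +
        (1 / 2 + p.κ') * (p.A + 2)) * L := by ring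
  rw [h6]
  refine mul_le_mul_of_nonneg_right ?_ hL0.le
  have h7 : p.η * (1 + p.A) ≤ 1 / 8 * (1 + p.A) := mul_le_mul_of_nonneg_right hη1 (by linarith)
  have h8 : p.η * (p.A + 2) ≤ 1 / 8 * (p.A + 2) := mul_le_mul_of_nonneg_right hη1 (by linarith)
  have h9 : (1 / 2 + p.κ') * (p.A + 2) ≤ (1 / 2 + 1 / 4) * (p.A + 2) :=
    mul_le_mul_of_nonneg_right (by linarith) (by linarith)
  linarith


end Pool.Agent.SGD
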