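import Pool.Agent.Lib_helper45.SGD.Defs
import Pool.Agent.Lib_helper45.SGDF.KB
import Pool.Agent.Lib_helper45.SGDF.KC

/-!
# SGD, block KE3: the tail of `PH`
-/

set_option autoImplicit false

namespace Pool.Agent.SGD

open Complex MeasureTheory Filter Topology
open Pool.Agent.SQS (hat)
open Pool.Agent.ABS (LData Nice oddZ win)
open scoped ENNReal

/-- the term of the series -/
noncomputable def ke3_T (N L z : ℝ) (lam al : ℕ → ℂ) (k k' m : ℕ) : ℂ :=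
  gz N (z + Real.log (((m : ℝ) + 1) * k * k') - L / 2) * (lam (m + 1) * al k * al k') *
    (((((m : ℝ) + 1) * k * k') ^ (-(1 / 2) : ℝ) : ℝ) : ℂ)

theorem ke3_gz_norm {N : ℝ} (hN : 1 ≤ N) (v : ℝ) : ‖gz N v‖ ≤ Real.exp (-(N * v)) := by
  have h := (G0_facts hN).2 v
  rw [gz, Complex.norm_real, Real.norm_of_nonneg h.1.le]
  exact h.2.2.1

theorem ke3_term {N L z : ℝ} {lam al : ℕ → ℂ} {k k' : ℕ} (hk : 1 ≤ k) (hk' : 1 ≤ k') (m : ℕ) :
    bb al k * bb al k' * (lam (m + 1) * (((m : ℝ) + 1) ^ (-(1 / 2) : ℝ) : ℝ) *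
      gz N (z + (ll k + ll k' - L / 2) + Real.log (m + 1))) = ke3_T N L z lam al k k' m := by
  have h1 : (0 : ℝ) < k := by exact_mod_cast hk
  have h2 : (0 : ℝ) < k' := by exact_mod_cast hk'
  have h3 : (0 : ℝ) < (m : ℝ) + 1 := by positivity
  have e1 : Real.log (((m : ℝ) + 1) * k * k') = Real.log (m + 1) + ll k + ll k' := by
    rw [Real.log_mul (by positivity) (by positivity), Real.log_mul (by positivity) (by positivity)]
    rfl
  have e2 : (((m : ℝ) + 1) * k * k') ^ (-(1 / 2) : ℝ) =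
      ((m : ℝ) + 1) ^ (-(1 / 2) : ℝ) * (k : ℝ) ^ (-(1 / 2) : ℝ) * (k' : ℝ) ^ (-(1 / 2) : ℝ) := by
    rw [Real.mul_rpow (by positivity) (by positivity), Real.mul_rpow (by positivity) (by positivity)]
  have e3 : z + (ll k + ll k' - L / 2) + Real.log (m + 1) =
      z + Real.log (((m : ℝ) + 1) * k * k') - L / 2 := by
    rw [e1]; ring
  rw [ke3_T, e2, e3, bb, bb]
  push_cast
  ring

theorem ke3_tsum {N L z : ℝ} {lam al : ℕ → ℂ} {k k' : ℕ} (hk : 1 ≤ k) (hk' : 1 ≤ k') :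
    bb al k * bb al k' * DD0 lam (gz N) (z + (ll k + ll k' - L / 2)) =
      ∑' m : ℕ, ke3_T N L z lam al k k' m := by
  rw [DD0, ← tsum_mul_left]
  exact tsum_congr fun m => ke3_term hk hk' m

theorem ke3_summable {A N L z : ℝ} (hA : 0 ≤ A) (hN : A + 2 ≤ N) {lam al : ℕ → ℂ}
    (hlam : ∀ m : ℕ, 1 ≤ m → ‖lam m‖ ≤ (m : ℝ) ^ A) {k k' : ℕ} (hk : 1 ≤ k) (hk' : 1 ≤ k') :
    Summable (fun m : ℕ => ke3_T N L z lam al k k' m) := by
  have h := (DD0_bound (A := A) (B := N) (C := 1) hA hN hlam (g := gz N)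
    (fun v => by rw [one_mul]; exact ke3_gz_norm (by linarith) v)
    (z + (ll k + ll k' - L / 2))).1
  have h1 := (Summable.of_norm h).mul_left (bb al k * bb al k')
  refine h1.congr fun m => ?_
  exact ke3_term hk hk' m

/-- bound of one term in the tail -/
theorem ke3_bd {A N L z R : ℝ} (hA : 0 ≤ A) (hN : A + 2 ≤ N) {lam al : ℕ → ℂ}
    (hlam : ∀ m : ℕ, 1 ≤ m → ‖lam m‖ ≤ (m : ℝ) ^ A) {k k' : ℕ} (hk : 1 ≤ k) (hk' : 1 ≤ k')
    (hal : ‖al k‖ ≤ (k : ℝ) ^ A) (hal' : ‖al k'‖ ≤ (k' : ℝ) ^ A) (hR : 0 < R) {m : ℕ}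
    (hm : R ≤ ((m : ℝ) + 1) * k * k') :
    ‖ke3_T N L z lam al k k' m‖ ≤ R ^ (-(N - A - 3 / 2)) * Real.exp (N * (L / 2 - z)) *
      (1 / ((m : ℝ) + 1) ^ 2) := by
  have h1 : (1 : ℝ) ≤ k := by exact_mod_cast hk
  have h2 : (1 : ℝ) ≤ k' := by exact_mod_cast hk'
  have h3 : (1 : ℝ) ≤ (m : ℝ) + 1 := by
    have : (0 : ℝ) ≤ m := Nat.cast_nonneg m
    linarith
  set r : ℝ := ((m : ℝ) + 1) * k * k' with hr
  have hr0 : 0 < r := by positivity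
  have hrm : (m : ℝ) + 1 ≤ r := by
    rw [hr]
    calc (m : ℝ) + 1 = ((m : ℝ) + 1) * 1 * 1 := by ring
      _ ≤ ((m : ℝ) + 1) * k * k' := by gcongr
  have g1 : ‖gz N (z + Real.log r - L / 2)‖ ≤ r ^ (-N) * Real.exp (N * (L / 2 - z)) := by
    refine (ke3_gz_norm (by linarith) _).trans (le_of_eq ?_)
    rw [Real.rpow_def_of_pos hr0, ← Real.exp_add]
    congr 1
    ring
  have g2 : ‖lam (m + 1) * al k * al k'‖ ≤ r ^ A := by
    have := hlam (m + 1) (by omega)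
    push_cast at this
    rw [norm_mul, norm_mul, hr, Real.mul_rpow (by positivity) (by positivity),
      Real.mul_rpow (by positivity) (by positivity)]
    gcongr
  have g3 : ‖((r ^ (-(1 / 2) : ℝ) : ℝ) : ℂ)‖ = r ^ (-(1 / 2) : ℝ) := by
    rw [Complex.norm_real, Real.norm_of_nonneg (Real.rpow_nonneg hr0.le _)]
  have g4 : ‖ke3_T N L z lam al k k' m‖ ≤
      (r ^ (-N) * Real.exp (N * (L / 2 - z))) * r ^ A * r ^ (-(1 / 2) : ℝ) := by
    rw [ke3_T, ← hr, norm_mul, norm_mul, g3]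
    have : 0 ≤ r ^ (-(1 / 2) : ℝ) := Real.rpow_nonneg hr0.le _
    gcongr
  have g5 : r ^ (-N) * r ^ A * r ^ (-(1 / 2) : ℝ) = r ^ (-(N - A - 3 / 2)) * r ^ (-2 : ℝ) := by
    rw [← Real.rpow_add hr0, ← Real.rpow_add hr0, ← Real.rpow_add hr0]
    congr 1
    ring
  have g6 : r ^ (-(N - A - 3 / 2)) ≤ R ^ (-(N - A - 3 / 2)) :=
    Real.rpow_le_rpow_of_nonpos hR hm (by linarith)
  have g7 : r ^ (-2 : ℝ) ≤ 1 / ((m : ℝ) + 1) ^ 2 := by
    rw [Real.rpow_neg hr0.le, ← one_div]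
    refine one_div_le_one_div_of_le (by positivity) ?_
    have e : r ^ (2 : ℝ) = r ^ 2 := by exact_mod_cast Real.rpow_natCast r 2
    rw [e]
    gcongr
  calc ‖ke3_T N L z lam al k k' m‖
      ≤ (r ^ (-N) * Real.exp (N * (L / 2 - z))) * r ^ A * r ^ (-(1 / 2) : ℝ) := g4
    _ = (r ^ (-N) * r ^ A * r ^ (-(1 / 2) : ℝ)) * Real.exp (N * (L / 2 - z)) := by ring
    _ = r ^ (-(N - A - 3 / 2)) * Real.exp (N * (L / 2 - z)) * r ^ (-2 : ℝ) := by
        rw [g5]; ring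
    _ ≤ R ^ (-(N - A - 3 / 2)) * Real.exp (N * (L / 2 - z)) * (1 / ((m : ℝ) + 1) ^ 2) := by
        have : 0 ≤ R ^ (-(N - A - 3 / 2)) := Real.rpow_nonneg hR.le _
        gcongr

theorem ke3_sq : Summable (fun m : ℕ => 1 / ((m : ℝ) + 1) ^ 2) ∧
    ∑' m : ℕ, 1 / ((m : ℝ) + 1) ^ 2 ≤ 2 := by
  have h := hasSum_zeta_two
  have h1 : HasSum (fun m : ℕ => 1 / (((m + 1 : ℕ) : ℝ)) ^ 2) (Real.pi ^ 2 / 6) := by
    have := (hasSum_nat_add_iff' (f := fun n : ℕ => 1 / (n : ℝ) ^ 2) 1).2 h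
    simpa using this
  have h2 : HasSum (fun m : ℕ => 1 / ((m : ℝ) + 1) ^ 2) (Real.pi ^ 2 / 6) := by
    simpa using h1
  refine ⟨h2.summable, ?_⟩
  rw [h2.tsum_eq]
  have := Real.pi_lt_d2
  have h3 := Real.pi_pos
  nlinarith

/-- the tail of the series for fixed `k, k'` -/
theorem ke3_tail {A N L z R : ℝ} (hA : 0 ≤ A) (hN : A + 2 ≤ N) {lam al : ℕ → ℂ}
    (hlam : ∀ m : ℕ, 1 ≤ m → ‖lam m‖ ≤ (m : ℝ) ^ A) {k k' : ℕ} (hk : 1 ≤ k) (hk' : 1 ≤ k')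
    (hal : ‖al k‖ ≤ (k : ℝ) ^ A) (hal' : ‖al k'‖ ≤ (k' : ℝ) ^ A) (hR : 0 < R) :
    ‖bb al k * bb al k' * DD0 lam (gz N) (z + (ll k + ll k' - L / 2)) -
      ∑ m ∈ Finset.range ⌊R / (k * k')⌋₊, ke3_T N L z lam al k k' m‖ ≤
      2 * (R ^ (-(N - A - 3 / 2)) * Real.exp (N * (L / 2 - z))) := by
  have h1 : (1 : ℝ) ≤ k := by exact_mod_cast hk
  have h2 : (1 : ℝ) ≤ k' := by exact_mod_cast hk'
  set n := ⌊R / (k * k')⌋₊ with hn
  have hs := ke3_summable (L := L) (z := z) (al := al) hA hN hlam hk hk'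
  rw [ke3_tsum hk hk', ← hs.sum_add_tsum_nat_add n, add_sub_cancel_left]
  set K := R ^ (-(N - A - 3 / 2)) * Real.exp (N * (L / 2 - z)) with hK
  have hK0 : 0 ≤ K := mul_nonneg (Real.rpow_nonneg hR.le _) (Real.exp_pos _).le
  have hb : ∀ m : ℕ, ‖ke3_T N L z lam al k k' (m + n)‖ ≤ K * (1 / ((m : ℝ) + 1) ^ 2) := by
    intro m
    have h3 : R ≤ (((m + n : ℕ) : ℝ) + 1) * k * k' := by
      have h4 : R / (k * k') < n + 1 := Nat.lt_floor_add_one _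
      have h5 : R < (n + 1) * (k * k') := (div_lt_iff₀ (by positivity)).1 h4
      have h6 : (n : ℝ) + 1 ≤ ((m + n : ℕ) : ℝ) + 1 := by
        push_cast
        have : (0 : ℝ) ≤ m := Nat.cast_nonneg m
        linarith
      calc R ≤ (n + 1) * (k * k') := h5.le
        _ ≤ (((m + n : ℕ) : ℝ) + 1) * (k * k') := by gcongr
        _ = _ := by ring
    refine (ke3_bd hA hN hlam hk hk' hal hal' hR h3).trans ?_
    refine mul_le_mul_of_nonneg_left ?_ hK0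
    refine one_div_le_one_div_of_le (by positivity) ?_
    push_cast
    have : (0 : ℝ) ≤ n := Nat.cast_nonneg n
    gcongr
    linarith
  refine (tsum_of_norm_bounded ((ke3_sq.1.mul_left K).hasSum) hb).trans ?_
  rw [tsum_mul_left]
  calc K * ∑' m : ℕ, 1 / ((m : ℝ) + 1) ^ 2 ≤ K * 2 := mul_le_mul_of_nonneg_left ke3_sq.2 hK0
    _ = 2 * K := by ring

/-- the sum `SH` with the weight `FH` -/
theorem ke3_SH {N L z R : ℝ} {S : Finset ℕ} {lam al : ℕ → ℂ} (hR : 1 ≤ R) (h1 : 1 ∈ S)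
    (hS : ∀ k ∈ S, 1 ≤ k) (hl : lam 1 = 1) (ha : al 1 = 1) :
    SH S R lam al (FH N L z) = ∑ k ∈ S, ∑ k' ∈ S, ∑ m ∈ Finset.range ⌊R / (k * k')⌋₊,
      ke3_T N L z lam al k k' m - gz N (z - L / 2) := by
  have e0 : ∀ k k' : ℕ, ∑ m ∈ Finset.Icc 1 ⌊R / (k * k')⌋₊,
      FH N L z ((m : ℝ) * k * k') * (lam m * al k * al k') *
        ((((m : ℝ) * k * k') ^ (-(1 / 2) : ℝ) : ℝ) : ℂ) =
      ∑ m ∈ Finset.range ⌊R / (k * k')⌋₊, (ke3_T N L z lam al k k' m -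
        if ((m : ℝ) + 1) * k * k' = 1 then ke3_T N L z lam al k k' m else 0) := by
    intro k k'
    have e1 : Finset.Icc 1 ⌊R / (k * k')⌋₊ = Finset.Ico (0 + 1) (⌊R / ((k : ℝ) * k')⌋₊ + 1) := by
      ext m
      simp only [Finset.mem_Icc, Finset.mem_Ico]
      omega
    rw [e1, ← Finset.sum_Ico_add', ← Finset.range_eq_Ico]
    refine Finset.sum_congr rfl fun m _ => ?_
    by_cases h : ((m : ℝ) + 1) * k * k' = 1
    · have h' : ((m + 1 : ℕ) : ℝ) * k * k' = 1 := by push_cast; exact h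
      rw [if_pos h, FH, if_pos h']
      simp
    · have h' : ¬ ((m + 1 : ℕ) : ℝ) * k * k' = 1 := by push_cast; exact h
      rw [if_neg h, FH, if_neg h', ke3_T, sub_zero]
      push_cast
      ring
  rw [SH]
  simp_rw [e0, Finset.sum_sub_distrib]
  congr 1
  have key : ∀ k ∈ S, ∀ k' ∈ S, ∀ m : ℕ, ((m : ℝ) + 1) * k * k' = 1 → m = 0 ∧ k = 1 ∧ k' = 1 := by
    intro k hk k' hk' m h
    have h2 : (m + 1) * k * k' = 1 := by exact_mod_cast h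
    have h3 := mul_eq_one.1 h2
    have h4 := mul_eq_one.1 h3.1
    exact ⟨by omega, h4.2, h3.2⟩
  rw [Finset.sum_eq_single 1 ?_ (fun h => absurd h1 h), Finset.sum_eq_single 1 ?_ (fun h => absurd h1 h),
    Finset.sum_eq_single 0]
  · simp [ke3_T, hl, ha]
  · intro m _ hm
    rw [if_neg]
    intro h
    exact hm (key 1 h1 1 h1 m h).1
  · intro h
    exfalso
    apply h
    rw [Finset.mem_range]
    have : (1 : ℝ) ≤ R / (((1 : ℕ) : ℝ) * ((1 : ℕ) : ℝ)) := by simpa using hR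
    exact Nat.floor_pos.2 this
  · intro k' hk' hne
    refine Finset.sum_eq_zero fun m _ => ?_
    rw [if_neg]
    intro h
    exact hne (key 1 h1 k' hk' m h).2.2
  · intro k hk hne
    refine Finset.sum_eq_zero fun k' hk' => Finset.sum_eq_zero fun m _ => ?_
    rw [if_neg]
    intro h
    exact hne (key k hk k' hk' m h).2.1

theorem ke3_card {S : Finset ℕ} {x : ℝ} (hx : 0 ≤ x) (hS : ∀ k ∈ S, 1 ≤ k ∧ (k : ℝ) ≤ x) :
    (S.card : ℝ) ≤ x := by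
  have h : S ⊆ Finset.Icc 1 ⌊x⌋₊ := by
    intro k hk
    rw [Finset.mem_Icc]
    exact ⟨(hS k hk).1, Nat.le_floor (hS k hk).2⟩
  have h1 := Finset.card_le_card h
  rw [Nat.card_Icc, Nat.add_sub_cancel] at h1
  calc (S.card : ℝ) ≤ (⌊x⌋₊ : ℝ) := by exact_mod_cast h1
    _ ≤ x := Nat.floor_le hx

theorem P_tailH (p : Par) : ∃ q₀ : ℕ, ∀ q : ℕ, q₀ ≤ q → ∀ {S : Finset ℕ} {lam al : ℕ → ℂ}
    {g : ℝ → ℂ} {X : LData}, Mem p q S lam al g X → ∀ z : ℝ, -(p.κ' / 2 * Real.log q) ≤ z →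
    ‖PH p.N (Real.log q) S lam al z -
      SH S ((q : ℝ) ^ (1 / 2 + p.κ')) lam al (FH p.N (Real.log q) z)‖ ≤ (q : ℝ) ^ (-2 : ℝ) := by
  refine ⟨2, fun q hq S lam al g X H z hz => ?_⟩
  have hq2 : (2 : ℝ) ≤ q := by exact_mod_cast hq
  have hq0 : (0 : ℝ) < q := by linarith
  have hq1 : (1 : ℝ) ≤ q := by linarith
  have hA := p.hA
  have hN64 := N_ge p
  have hN : p.A + 2 ≤ p.N := by linarith
  have hκ := p.hκ'
  have hκ1 := p.hκ'1
  set R : ℝ := (q : ℝ) ^ (1 / 2 + p.κ') with hR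
  have hR1 : 1 ≤ R := Real.one_le_rpow hq1 (by linarith)
  have hR0 : 0 < R := by linarith
  set L := Real.log q with hL
  have hL0 : 0 ≤ L := Real.log_nonneg hq1
  rw [ke3_SH hR1 H.S_one (fun k hk => (H.S_le k hk).1) H.lam_one H.al_one, PH]
  rw [sub_sub_sub_cancel_right, ← Finset.sum_sub_distrib]
  set K := R ^ (-(p.N - p.A - 3 / 2)) * Real.exp (p.N * (L / 2 - z)) with hK
  have hK0 : 0 ≤ K := mul_nonneg (Real.rpow_nonneg hR0.le _) (Real.exp_pos _).le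
  have hb : ‖∑ k ∈ S, (∑ k' ∈ S, bb al k * bb al k' *
      DD0 lam (gz p.N) (z + (ll k + ll k' - L / 2)) -
      ∑ k' ∈ S, ∑ m ∈ Finset.range ⌊R / (k * k')⌋₊, ke3_T p.N L z lam al k k' m)‖ ≤
      ∑ _k ∈ S, ∑ _k' ∈ S, 2 * K := by
    refine (norm_sum_le _ _).trans (Finset.sum_le_sum fun k hk => ?_)
    rw [← Finset.sum_sub_distrib]
    refine (norm_sum_le _ _).trans (Finset.sum_le_sum fun k' hk' => ?_)
    exact ke3_tail hA hN H.lam_le (H.S_le k hk).1 (H.S_le k' hk').1 (H.al_le k hk) (H.al_le k' hk')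
      hR0
  refine hb.trans ?_
  simp only [Finset.sum_const, nsmul_eq_mul]
  have hc : (S.card : ℝ) ≤ (q : ℝ) ^ (1 / 8 : ℝ) :=
    ke3_card (Real.rpow_nonneg hq0.le _) (fun k hk => ⟨(H.S_le k hk).1,
      (H.S_le k hk).2.trans (Real.rpow_le_rpow_of_exponent_le hq1 p.hη1)⟩)
  have hK1 : K ≤ (q : ℝ) ^ (-(22 : ℝ)) := by
    have e1 : R ^ (-(p.N - p.A - 3 / 2)) = Real.exp (L * (-(1 / 2 + p.κ') * (p.N - p.A - 3 / 2))) := by
      rw [hR, ← Real.rpow_mul hq0.le, Real.rpow_def_of_pos hq0, ← hL]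
      congr 1
      ring
    have e2 : (q : ℝ) ^ (-(22 : ℝ)) = Real.exp (L * (-22)) := by
      rw [Real.rpow_def_of_pos hq0, ← hL]
    rw [hK, e1, e2, ← Real.exp_add]
    refine Real.exp_le_exp.2 ?_
    have hNκ : p.κ' * p.N = 16 * (p.A + 3) := by
      rw [Par.N]
      field_simp
    have h1 : p.N * (L / 2 - z) ≤ p.N * (L / 2 + p.κ' / 2 * L) := by
      refine mul_le_mul_of_nonneg_left (by linarith) (by linarith)
    have h2 : L * (-(1 / 2 + p.κ') * (p.N - p.A - 3 / 2)) + p.N * (L / 2 + p.κ' / 2 * L) =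
        L * (-(p.κ' * p.N) / 2 + (1 / 2 + p.κ') * (p.A + 3 / 2)) := by ring
    have h3 : -(p.κ' * p.N) / 2 + (1 / 2 + p.κ') * (p.A + 3 / 2) ≤ -22 := by
      rw [hNκ]
      nlinarith
    have h4 := mul_le_mul_of_nonneg_left h3 hL0
    linarith
  have hc0 : (0 : ℝ) ≤ S.card := Nat.cast_nonneg _
  calc (S.card : ℝ) * ((S.card : ℝ) * (2 * K))
      ≤ (q : ℝ) ^ (1 / 8 : ℝ) * ((q : ℝ) ^ (1 / 8 : ℝ) * (q * (q : ℝ) ^ (-(22 : ℝ)))) := by
        gcongr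
    _ = (q : ℝ) ^ (1 / 8 + (1 / 8 + (1 + -(22 : ℝ)))) := by
        rw [Real.rpow_add hq0, Real.rpow_add hq0, Real.rpow_add hq0, Real.rpow_one]
    _ ≤ (q : ℝ) ^ (-2 : ℝ) := Real.rpow_le_rpow_of_exponent_le hq1 (by norm_num)

end Pool.Agent.SGD

namespace Pool.Agent.SGD


end Pool.Agent.SGD
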