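import Pool.Agent.Lib_helper45.SGD.Defs
import Pool.Agent.Lib_helper45.SGDF.KB

/-!
# SGN part D, core: block KF (truncation)
-/

set_option autoImplicit false

namespace Pool.Agent.SGD

open Complex MeasureTheory Filter Topology
open Pool.Agent.SQS (hat)
open Pool.Agent.ABS (LData Nice oddZ win)
open scoped ENNReal

/-- Cauchy–Schwarz with a weight -/
theorem kf_cs {J B : ℝ} (hJ : 0 < J) {w u : ℝ → ℝ} (hw : Integrable w)
    (hwJ : ∫ y, w y = J) (hw0 : ∀ y, 0 ≤ w y) (hu : Continuous u) (hB : ∀ y, |u y| ≤ B) :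
    Integrable (fun y => w y * u y) ∧ Integrable (fun y => w y * u y ^ 2) ∧
    (∫ y, w y * u y) ^ 2 ≤ J * ∫ y, w y * u y ^ 2 := by
  have h1 : Integrable (fun y => w y * u y) :=
    hw.mul_bdd (c := B) hu.aestronglyMeasurable (Eventually.of_forall fun y => by
      simpa [Real.norm_eq_abs] using hB y)
  have h2 : Integrable (fun y => w y * u y ^ 2) :=
    hw.mul_bdd (c := B ^ 2) (hu.pow 2).aestronglyMeasurable (Eventually.of_forall fun y => by
      rw [Real.norm_eq_abs, abs_pow]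
      exact pow_le_pow_left₀ (abs_nonneg _) (hB y) 2)
  refine ⟨h1, h2, ?_⟩
  set J1 := ∫ y, w y * u y
  set J2 := ∫ y, w y * u y ^ 2
  set t := J1 / J
  have h3 : 0 ≤ ∫ y, w y * (u y - t) ^ 2 :=
    integral_nonneg fun y => mul_nonneg (hw0 y) (sq_nonneg _)
  have h4 : ∫ y, w y * (u y - t) ^ 2 = J2 - 2 * t * J1 + t ^ 2 * J := by
    have e : (fun y => w y * (u y - t) ^ 2) =
        fun y => (w y * u y ^ 2 - 2 * t * (w y * u y)) + t ^ 2 * w y := by
      funext y; ring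
    have h1' := h1.const_mul (2 * t)
    have h3' : Integrable (fun y => w y * u y ^ 2 - 2 * t * (w y * u y)) := h2.sub h1'
    rw [e, integral_add h3' (hw.const_mul (t ^ 2)),
      integral_sub h2 h1', integral_const_mul, integral_const_mul, hwJ]
  have h5 : t * J = J1 := by
    simp only [t]; field_simp
  rw [h4] at h3
  have h6 : 0 ≤ J * (J2 - 2 * t * J1 + t ^ 2 * J) := mul_nonneg hJ.le h3
  have h7 : J * (J2 - 2 * t * J1 + t ^ 2 * J) = J * J2 - J1 ^ 2 := by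
    have : J * (J2 - 2 * t * J1 + t ^ 2 * J) = J * J2 - 2 * (t * J) * J1 + (t * J) ^ 2 := by ring
    rw [this, h5]; ring
  rw [h7] at h6
  linarith

/-- powers of `q` as exponentials -/
theorem kf_rpow {q : ℕ} (hq : 1 ≤ q) (a : ℝ) :
    (q : ℝ) ^ a = Real.exp (a * Real.log q) := by
  rw [Real.rpow_def_of_pos (by exact_mod_cast hq), mul_comm]

theorem trunc (p : Par) : ∃ (C : ℝ) (q₀ : ℕ), 0 < C ∧ ∀ q : ℕ, q₀ ≤ q → ∀ {P Q k : ℝ → ℂ} {B : ℝ},
    Continuous P → Continuous Q → (∀ z, ‖Q z‖ ≤ B) → Continuous k →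
    (∀ B : ℝ, -p.κ ≤ B → ∀ v : ℝ, ‖k v‖ ≤ p.M p.N B * Real.exp (-(B * v))) →
    (∀ z : ℝ, ‖P z‖ ≤ (q : ℝ) ^ (3 / 4 * p.N) * Real.exp (-(p.N * z))) →
    (∀ z : ℝ, -(p.κ' / 2 * Real.log q) ≤ z → ‖P z - Q z‖ ≤ (q : ℝ) ^ (-2 : ℝ)) →
    (∀ x : ℝ, 0 ≤ x → ‖∫ y : ℝ, k y * P (x - y)‖ ^ 2 ≤
      C * (∫ y : ℝ, Real.exp (-(p.κ * |y|)) * ‖Q (x - y)‖ ^ 2) + 1 / (q : ℝ)) ∧
    ∀ x : ℝ, Real.log q ≤ x → ‖∫ y : ℝ, k y * P (x - y)‖ ^ 2 ≤
      1 / (q : ℝ) * Real.exp (-(x - Real.log q)) := by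
  have hκ := p.hκ
  have hκ' := p.hκ'
  have hA := p.hA
  have hN := N_ge p
  have hN1 : 192 ≤ p.N := by linarith
  obtain ⟨C₁, hC₁, hk⟩ := k_le p (by linarith : (1 : ℝ) ≤ p.N)
  obtain ⟨hI, hJ, -, -⟩ := exp_int p
  set J : ℝ := 2 / p.κ with hJdef
  have hJ0 : 0 < J := by positivity
  set b : ℝ := 2 / p.κ' * (3 / 4 * p.N + 2) with hb
  have hb0 : 0 < b := by positivity
  set B₁ : ℝ := p.N + b + p.κ with hB₁
  set M₁ : ℝ := |p.M p.N B₁| with hM₁
  set M₂ : ℝ := |p.M p.N (p.N + p.κ)| + |p.M p.N (-p.κ)| with hM₂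
  have hM₁0 : 0 ≤ M₁ := abs_nonneg _
  have hM₂0 : 0 ≤ M₂ := by positivity
  obtain ⟨q₀, hq₀⟩ := exists_nat_ge (2 + 2 * ((C₁ + M₁) * J) ^ 2 + (M₂ * J) ^ 2)
  refine ⟨2 * C₁ ^ 2 * J, q₀, by positivity, ?_⟩
  intro q hq P Q k B hP hQ hQB hkc hkB hP1 hPQ
  have hqq : 2 + 2 * ((C₁ + M₁) * J) ^ 2 + (M₂ * J) ^ 2 ≤ (q : ℝ) := by
    refine hq₀.trans ?_
    exact_mod_cast hq
  have hq2 : (2 : ℝ) ≤ q := by linarith [sq_nonneg ((C₁ + M₁) * J), sq_nonneg (M₂ * J)]
  have hq1 : 1 ≤ q := by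
    have : (1 : ℝ) ≤ q := by linarith
    exact_mod_cast this
  have hqpos : (0 : ℝ) < q := by linarith
  set L : ℝ := Real.log q with hL
  have hL0 : 0 ≤ L := Real.log_nonneg (by linarith)
  have hexpL : Real.exp L = q := Real.exp_log hqpos
  have hk' := hk k hkB
  refine ⟨?_, ?_⟩
  · intro x hx
    have hQc : Continuous fun y : ℝ => ‖Q (x - y)‖ :=
      (hQ.comp (continuous_const.sub continuous_id)).norm
    obtain ⟨i1, i2, i3⟩ := kf_cs hJ0 hI hJ (fun y => (Real.exp_pos _).le) hQc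
      (B := B) (fun y => by rw [abs_of_nonneg (norm_nonneg _)]; exact hQB _)
    -- pointwise bound
    have hpt : ∀ y : ℝ, ‖k y * P (x - y)‖ ≤ C₁ * (Real.exp (-(p.κ * |y|)) * ‖Q (x - y)‖) +
        (C₁ + M₁) * (q : ℝ) ^ (-2 : ℝ) * Real.exp (-(p.κ * |y|)) := by
      intro y
      rw [norm_mul]
      have hq2' : 0 ≤ (q : ℝ) ^ (-2 : ℝ) := Real.rpow_nonneg hqpos.le _
      have he : 0 < Real.exp (-(p.κ * |y|)) := Real.exp_pos _
      rcases le_or_gt y (x + p.κ' / 2 * L) with hy | hy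
      · have h1 : ‖P (x - y)‖ ≤ ‖Q (x - y)‖ + (q : ℝ) ^ (-2 : ℝ) := by
          have h2 := hPQ (x - y) (by linarith)
          have h3 : ‖P (x - y)‖ ≤ ‖P (x - y) - Q (x - y)‖ + ‖Q (x - y)‖ := by
            have := norm_add_le (P (x - y) - Q (x - y)) (Q (x - y))
            simpa using this
          linarith
        calc ‖k y‖ * ‖P (x - y)‖ ≤ (C₁ * Real.exp (-(p.κ * |y|))) *
              (‖Q (x - y)‖ + (q : ℝ) ^ (-2 : ℝ)) :=
              mul_le_mul (hk' y) h1 (norm_nonneg _) (by positivity)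
          _ ≤ _ := by
              have : 0 ≤ M₁ * (q : ℝ) ^ (-2 : ℝ) * Real.exp (-(p.κ * |y|)) := by positivity
              linarith
      · have hy0 : 0 ≤ y := by
          have : 0 ≤ p.κ' / 2 * L := by positivity
          linarith
        have h1 : ‖k y‖ ≤ M₁ * Real.exp (-(B₁ * y)) := by
          refine (hkB B₁ (by simp only [hB₁]; linarith) y).trans ?_
          exact mul_le_mul_of_nonneg_right (le_abs_self _) (Real.exp_pos _).le
        have h2 := hP1 (x - y)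
        have h3 : Real.exp (-(B₁ * y)) * ((q : ℝ) ^ (3 / 4 * p.N) * Real.exp (-(p.N * (x - y)))) ≤
            (q : ℝ) ^ (-2 : ℝ) * Real.exp (-(p.κ * |y|)) := by
          rw [kf_rpow hq1, kf_rpow hq1, ← Real.exp_add, ← Real.exp_add, ← Real.exp_add]
          refine Real.exp_le_exp.mpr ?_
          rw [abs_of_nonneg hy0]
          have h4 : b * (p.κ' / 2 * L) = (3 / 4 * p.N + 2) * L := by
            simp only [hb]; field_simp
          have h5 : b * (p.κ' / 2 * L) ≤ b * y := by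
            refine mul_le_mul_of_nonneg_left ?_ hb0.le
            linarith
          have h6 : 0 ≤ p.N * x := by positivity
          simp only [hB₁]
          linarith
        have h7 : 0 ≤ C₁ * (Real.exp (-(p.κ * |y|)) * ‖Q (x - y)‖) := by positivity
        have h8 : 0 ≤ C₁ * (q : ℝ) ^ (-2 : ℝ) * Real.exp (-(p.κ * |y|)) := by positivity
        calc ‖k y‖ * ‖P (x - y)‖ ≤ (M₁ * Real.exp (-(B₁ * y))) *
              ((q : ℝ) ^ (3 / 4 * p.N) * Real.exp (-(p.N * (x - y)))) :=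
              mul_le_mul h1 h2 (norm_nonneg _) (by positivity)
          _ = M₁ * (Real.exp (-(B₁ * y)) *
              ((q : ℝ) ^ (3 / 4 * p.N) * Real.exp (-(p.N * (x - y))))) := by ring
          _ ≤ M₁ * ((q : ℝ) ^ (-2 : ℝ) * Real.exp (-(p.κ * |y|))) :=
              mul_le_mul_of_nonneg_left h3 hM₁0
          _ ≤ _ := by linarith
    have hint : ‖∫ y : ℝ, k y * P (x - y)‖ ≤
        C₁ * (∫ y : ℝ, Real.exp (-(p.κ * |y|)) * ‖Q (x - y)‖) +
        (C₁ + M₁) * (q : ℝ) ^ (-2 : ℝ) * J := by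
      have j1 := i1.const_mul C₁
      have j2 := hI.const_mul ((C₁ + M₁) * (q : ℝ) ^ (-2 : ℝ))
      have j3 : Integrable (fun y : ℝ => C₁ * (Real.exp (-(p.κ * |y|)) * ‖Q (x - y)‖) +
          (C₁ + M₁) * (q : ℝ) ^ (-2 : ℝ) * Real.exp (-(p.κ * |y|))) := j1.add j2
      refine (norm_integral_le_of_norm_le j3 (Eventually.of_forall hpt)).trans ?_
      rw [integral_add j1 j2, integral_const_mul, integral_const_mul, hJ]
    have hsq : ‖∫ y : ℝ, k y * P (x - y)‖ ^ 2 ≤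
        2 * (C₁ * (∫ y : ℝ, Real.exp (-(p.κ * |y|)) * ‖Q (x - y)‖)) ^ 2 +
        2 * ((C₁ + M₁) * (q : ℝ) ^ (-2 : ℝ) * J) ^ 2 := by
      refine (pow_le_pow_left₀ (norm_nonneg _) hint 2).trans ?_
      linarith [sq_nonneg (C₁ * (∫ y : ℝ, Real.exp (-(p.κ * |y|)) * ‖Q (x - y)‖) -
        (C₁ + M₁) * (q : ℝ) ^ (-2 : ℝ) * J)]
    refine hsq.trans (add_le_add ?_ ?_)
    · have := mul_le_mul_of_nonneg_left i3 (by positivity : (0 : ℝ) ≤ 2 * C₁ ^ 2)
      calc 2 * (C₁ * (∫ y : ℝ, Real.exp (-(p.κ * |y|)) * ‖Q (x - y)‖)) ^ 2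
          = 2 * C₁ ^ 2 * (∫ y : ℝ, Real.exp (-(p.κ * |y|)) * ‖Q (x - y)‖) ^ 2 := by ring
        _ ≤ _ := this
        _ = _ := by ring
    · have e1 : ((q : ℝ) ^ (-2 : ℝ)) = 1 / (q : ℝ) ^ 2 := by
        rw [Real.rpow_neg hqpos.le, one_div]
        congr 1
        exact_mod_cast Real.rpow_natCast (q : ℝ) 2
      rw [e1]
      have e2 : 2 * ((C₁ + M₁) * (1 / (q : ℝ) ^ 2) * J) ^ 2 =
          2 * ((C₁ + M₁) * J) ^ 2 / (q : ℝ) ^ 4 := by
        field_simp
      rw [e2, div_le_div_iff₀ (by positivity) hqpos]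
      have e3 : 2 * ((C₁ + M₁) * J) ^ 2 ≤ q := by linarith [sq_nonneg (M₂ * J)]
      have e4 : (q : ℝ) * q ≤ (q : ℝ) ^ 4 := by
        have h : (1 : ℝ) ≤ (q : ℝ) ^ 2 := one_le_pow₀ (by linarith)
        have h' := mul_le_mul_of_nonneg_left h (sq_nonneg (q : ℝ))
        calc (q : ℝ) * q = (q : ℝ) ^ 2 * 1 := by ring
          _ ≤ (q : ℝ) ^ 2 * (q : ℝ) ^ 2 := h'
          _ = (q : ℝ) ^ 4 := by ring
      have e5 := mul_le_mul_of_nonneg_right e3 hqpos.le
      linarith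
  · intro x hx
    have hpt : ∀ y : ℝ, ‖k y * P (x - y)‖ ≤
        (q : ℝ) ^ (3 / 4 * p.N) * Real.exp (-(p.N * x)) * M₂ * Real.exp (-(p.κ * |y|)) := by
      intro y
      rw [norm_mul]
      have h1 : ‖k y‖ * Real.exp (p.N * y) ≤ M₂ * Real.exp (-(p.κ * |y|)) := by
        rcases le_total 0 y with hy | hy
        · have h2 := hkB (p.N + p.κ) (by linarith) y
          have h3 : ‖k y‖ ≤ M₂ * Real.exp (-((p.N + p.κ) * y)) := by
            refine h2.trans (mul_le_mul_of_nonneg_right ?_ (Real.exp_pos _).le)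
            have := le_abs_self (p.M p.N (p.N + p.κ))
            have := abs_nonneg (p.M p.N (-p.κ))
            simp only [hM₂]; linarith
          calc ‖k y‖ * Real.exp (p.N * y) ≤ (M₂ * Real.exp (-((p.N + p.κ) * y))) *
                Real.exp (p.N * y) := mul_le_mul_of_nonneg_right h3 (Real.exp_pos _).le
            _ = M₂ * Real.exp (-(p.κ * |y|)) := by
              rw [mul_assoc, ← Real.exp_add, abs_of_nonneg hy]; congr 2; ring
        · have h2 := hkB (-p.κ) le_rfl y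
          have h3 : ‖k y‖ ≤ M₂ * Real.exp (-(-p.κ * y)) := by
            refine h2.trans (mul_le_mul_of_nonneg_right ?_ (Real.exp_pos _).le)
            have := le_abs_self (p.M p.N (-p.κ))
            have := abs_nonneg (p.M p.N (p.N + p.κ))
            simp only [hM₂]; linarith
          have h4 : Real.exp (p.N * y) ≤ 1 := Real.exp_le_one_iff.mpr
            (mul_nonpos_of_nonneg_of_nonpos (by linarith) hy)
          calc ‖k y‖ * Real.exp (p.N * y) ≤ (M₂ * Real.exp (-(-p.κ * y))) * 1 :=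
                mul_le_mul h3 h4 (Real.exp_pos _).le (by positivity)
            _ = M₂ * Real.exp (-(p.κ * |y|)) := by
              rw [mul_one, abs_of_nonpos hy]; congr 2; ring
      calc ‖k y‖ * ‖P (x - y)‖ ≤ ‖k y‖ * ((q : ℝ) ^ (3 / 4 * p.N) *
            Real.exp (-(p.N * (x - y)))) :=
            mul_le_mul_of_nonneg_left (hP1 _) (norm_nonneg _)
        _ = (q : ℝ) ^ (3 / 4 * p.N) * Real.exp (-(p.N * x)) * (‖k y‖ * Real.exp (p.N * y)) := by
            have : Real.exp (-(p.N * (x - y))) = Real.exp (-(p.N * x)) * Real.exp (p.N * y) := by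
              rw [← Real.exp_add]; congr 1; ring
            rw [this]; ring
        _ ≤ (q : ℝ) ^ (3 / 4 * p.N) * Real.exp (-(p.N * x)) *
            (M₂ * Real.exp (-(p.κ * |y|))) :=
            mul_le_mul_of_nonneg_left h1 (mul_nonneg (Real.rpow_nonneg hqpos.le _)
              (Real.exp_pos _).le)
        _ = _ := by ring
    have hint : ‖∫ y : ℝ, k y * P (x - y)‖ ≤
        (q : ℝ) ^ (3 / 4 * p.N) * Real.exp (-(p.N * x)) * M₂ * J := by
      refine (norm_integral_le_of_norm_le (hI.const_mul _) (Eventually.of_forall hpt)).trans ?_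
      rw [integral_const_mul, hJ]
    have h1 : ‖∫ y : ℝ, k y * P (x - y)‖ ^ 2 ≤
        ((q : ℝ) ^ (3 / 4 * p.N) * Real.exp (-(p.N * x))) ^ 2 * (M₂ * J) ^ 2 := by
      refine (pow_le_pow_left₀ (norm_nonneg _) hint 2).trans (le_of_eq ?_)
      ring
    have h2 : ((q : ℝ) ^ (3 / 4 * p.N) * Real.exp (-(p.N * x))) ^ 2 ≤
        1 / (q : ℝ) ^ 2 * Real.exp (-(x - L)) := by
      have e1 : 1 / (q : ℝ) ^ 2 = Real.exp (-(2 * L)) := by
        rw [Real.exp_neg, one_div, two_mul, Real.exp_add, hexpL, sq]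
      rw [kf_rpow hq1, ← Real.exp_add, e1, ← Real.exp_add, ← Real.exp_nat_mul]
      refine Real.exp_le_exp.mpr ?_
      push_cast
      have h0 : 0 ≤ x - L := by linarith
      have a1 := mul_le_mul_of_nonneg_right hN1 h0
      have a2 := mul_le_mul_of_nonneg_right hN1 hL0
      linarith
    have h3 : (M₂ * J) ^ 2 ≤ q := by linarith [sq_nonneg ((C₁ + M₁) * J)]
    calc ‖∫ y : ℝ, k y * P (x - y)‖ ^ 2 ≤ _ := h1
      _ ≤ (1 / (q : ℝ) ^ 2 * Real.exp (-(x - L))) * q :=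
          mul_le_mul h2 h3 (by positivity) (by positivity)
      _ = 1 / (q : ℝ) * Real.exp (-(x - L)) := by field_simp


end Pool.Agent.SGD
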