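import Pool.Agent.Lib_helper45.SGD.Defs
import Pool.Agent.Lib_helper45.SGDF.KB
import Pool.Agent.Lib_helper45.SGDF.KF

/-!
# SGN part D, core: block KG1 (mean squares of convolutions)
-/

set_option autoImplicit false

namespace Pool.Agent.SGD

open Complex MeasureTheory Filter Topology
open Pool.Agent.SQS (hat)
open Pool.Agent.ABS (LData Nice oddZ win)
open scoped ENNReal

/-- finite sums of integrable functions -/
theorem kg1_sum {τ : Type*} (T : Finset τ) (a : τ → ℝ) (g : τ → ℝ → ℝ) (c : τ → ℝ)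
    (ha : ∀ t ∈ T, 0 ≤ a t) (hg : ∀ t ∈ T, Integrable (g t) ∧ ∫ y, g t y ≤ c t) :
    Integrable (fun y => ∑ t ∈ T, a t * g t y) ∧
      ∫ y, ∑ t ∈ T, a t * g t y ≤ ∑ t ∈ T, a t * c t := by
  have h1 : ∀ t ∈ T, Integrable (fun y => a t * g t y) := fun t ht => (hg t ht).1.const_mul _
  refine ⟨integrable_finsetSum T h1, ?_⟩
  rw [integral_finsetSum T h1]
  refine Finset.sum_le_sum fun t ht => ?_
  rw [integral_const_mul]
  exact mul_le_mul_of_nonneg_left (hg t ht).2 (ha t ht)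

/-- the weight times a bounded continuous square -/
theorem kg1_int {w : ℝ → ℝ} (hw : Integrable w) {R : ℝ → ℂ} (hR : Continuous R) {B : ℝ}
    (hB : ∀ z, ‖R z‖ ≤ B) (x : ℝ) : Integrable (fun y => w y * ‖R (x - y)‖ ^ 2) := by
  refine hw.mul_bdd (c := B ^ 2) ?_ (Eventually.of_forall fun y => ?_)
  · exact ((hR.comp (continuous_const.sub continuous_id)).norm.pow 2).aestronglyMeasurable
  · rw [Real.norm_eq_abs, abs_pow, abs_of_nonneg (norm_nonneg _)]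
    exact pow_le_pow_left₀ (norm_nonneg _) (hB _) 2

theorem mean_gen (p : Par) : ∃ (C : ℝ) (q₀ : ℕ), 0 < C ∧ ∀ q : ℕ, q₀ ≤ q → ∀ {θ Cρ Φ B : ℝ}
    {ι : Type} {s : Finset ι} {om : ι → ℝ} {Q₁ Q : Finset ℝ} {W : ℝ → ℝ} {k P R : ι → ℝ → ℂ},
    0 ≤ Cρ → (∀ r ∈ Q₁, 0 ≤ W r) → (∀ r ∈ Q, 0 ≤ W r) →
    (∀ i ∈ s, 0 ≤ om i) → ∑ i ∈ s, om i ≤ Φ →
    (∀ i ∈ s, Continuous (P i) ∧ Continuous (R i) ∧ Continuous (k i)) →
    (∀ i ∈ s, ∀ z, ‖R i z‖ ≤ B) →
    (∀ i ∈ s, ∀ B : ℝ, -p.κ ≤ B → ∀ v : ℝ, ‖k i v‖ ≤ p.M p.N B * Real.exp (-(B * v))) →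
    (∀ i ∈ s, ∀ z : ℝ, ‖P i z‖ ≤ (q : ℝ) ^ (3 / 4 * p.N) * Real.exp (-(p.N * z))) →
    (∀ i ∈ s, ∀ z : ℝ, -(p.κ' / 2 * Real.log q) ≤ z → ‖P i z - R i z‖ ≤ (q : ℝ) ^ (-2 : ℝ)) →
    (∀ z : ℝ, ∑ i ∈ s, om i * ‖R i z‖ ^ 2 ≤ Φ *
      (∑ r ∈ Q₁, G0 p.N (z + Real.log r - Real.log q / 2) ^ 2 * W r +
      Cρ * ∑ l ∈ RG θ q, 1 / (l : ℝ) *
        ∑ r ∈ Q, G0 p.N (z + Real.log (l * r) - Real.log q / 2) ^ 2 * W r +
      (q : ℝ) ^ (-p.δ))) →
    (∀ x : ℝ, 0 ≤ x → ∑ i ∈ s, om i * ‖∫ y : ℝ, k i y * P i (x - y)‖ ^ 2 ≤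
      C * Φ * (AE p θ q Cρ Q₁ Q W x + (q : ℝ) ^ (-p.δ))) ∧
    ∀ x : ℝ, Real.log q ≤ x → ∑ i ∈ s, om i * ‖∫ y : ℝ, k i y * P i (x - y)‖ ^ 2 ≤
      Φ / q * Real.exp (-(x - Real.log q)) := by
  have hκ := p.hκ
  have hδ := p.hδ
  have hδ1 := p.hδ1
  have hA := p.hA
  have hN := N_ge p
  have hN1 : 1 ≤ p.N := by linarith
  obtain ⟨Ct, qt, hCt, ht⟩ := trunc p
  obtain ⟨CE, hCE, hE⟩ := E_conv p hN1
  obtain ⟨hI, hJ, -, -⟩ := exp_int p
  set J : ℝ := 2 / p.κ with hJdef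
  have hJ0 : 0 < J := by positivity
  refine ⟨Ct * CE + Ct * J + 1, qt + 1, by positivity, ?_⟩
  intro q hq θ Cρ Φ B ι s om Q₁ Q W k P R hCρ hW₁ hW hom hΦ hc hRB hkB hP hPR hyp
  have hq' : qt ≤ q := by omega
  have hq1 : 1 ≤ q := by omega
  have hqR : (1 : ℝ) ≤ q := by exact_mod_cast hq1
  have hqpos : (0 : ℝ) < q := by linarith
  have hΦ0 : 0 ≤ Φ := (Finset.sum_nonneg hom).trans hΦ
  have hT : ∀ i ∈ s, _ := fun i hi => ht q hq' (hc i hi).1 (hc i hi).2.1 (hRB i hi) (hc i hi).2.2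
    (hkB i hi) (hP i hi) (hPR i hi)
  set L : ℝ := Real.log q with hL
  have hqδ : 0 < (q : ℝ) ^ (-p.δ) := Real.rpow_pos_of_pos hqpos _
  refine ⟨?_, ?_⟩
  · intro x hx
    -- the weight
    set w : ℝ → ℝ := fun y => Real.exp (-(p.κ * |y|)) with hw
    have hw0 : ∀ y, 0 ≤ w y := fun y => (Real.exp_pos _).le
    -- step 1
    have h1 : ∑ i ∈ s, om i * ‖∫ y : ℝ, k i y * P i (x - y)‖ ^ 2 ≤
        Ct * (∑ i ∈ s, om i * ∫ y : ℝ, w y * ‖R i (x - y)‖ ^ 2) + Φ * (1 / q) := by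
      calc ∑ i ∈ s, om i * ‖∫ y : ℝ, k i y * P i (x - y)‖ ^ 2
          ≤ ∑ i ∈ s, om i * (Ct * (∫ y : ℝ, w y * ‖R i (x - y)‖ ^ 2) + 1 / (q : ℝ)) :=
            Finset.sum_le_sum fun i hi => mul_le_mul_of_nonneg_left ((hT i hi).1 x hx) (hom i hi)
        _ = Ct * (∑ i ∈ s, om i * ∫ y : ℝ, w y * ‖R i (x - y)‖ ^ 2) +
            (∑ i ∈ s, om i) * (1 / q) := by
            rw [Finset.mul_sum, Finset.sum_mul, ← Finset.sum_add_distrib]
            exact Finset.sum_congr rfl fun i _ => by ring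
        _ ≤ _ := by
            have := mul_le_mul_of_nonneg_right hΦ (by positivity : (0 : ℝ) ≤ 1 / q)
            linarith
    -- step 2: the sum is an integral
    have hint : ∀ i ∈ s, Integrable (fun y => om i * (w y * ‖R i (x - y)‖ ^ 2)) :=
      fun i hi => (kg1_int hI (hc i hi).2.1 (hRB i hi) x).const_mul _
    have h2 : ∑ i ∈ s, om i * ∫ y : ℝ, w y * ‖R i (x - y)‖ ^ 2 =
        ∫ y : ℝ, w y * ∑ i ∈ s, om i * ‖R i (x - y)‖ ^ 2 := by
      have e : (fun y : ℝ => w y * ∑ i ∈ s, om i * ‖R i (x - y)‖ ^ 2) =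
          fun y => ∑ i ∈ s, om i * (w y * ‖R i (x - y)‖ ^ 2) := by
        funext y
        rw [Finset.mul_sum]
        exact Finset.sum_congr rfl fun i _ => by ring
      rw [e, integral_finsetSum s hint]
      exact Finset.sum_congr rfl fun i _ => (integral_const_mul _ _).symm
    have h2i : Integrable (fun y : ℝ => w y * ∑ i ∈ s, om i * ‖R i (x - y)‖ ^ 2) := by
      have e : (fun y : ℝ => w y * ∑ i ∈ s, om i * ‖R i (x - y)‖ ^ 2) =
          fun y => ∑ i ∈ s, om i * (w y * ‖R i (x - y)‖ ^ 2) := by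
        funext y
        rw [Finset.mul_sum]
        exact Finset.sum_congr rfl fun i _ => by ring
      rw [e]
      exact integrable_finsetSum s hint
    -- step 3: the three pieces
    have hg : ∀ v : ℝ, Integrable (fun y : ℝ => w y * G0 p.N (v - y) ^ 2) ∧
        ∫ y : ℝ, w y * G0 p.N (v - y) ^ 2 ≤ CE * p.E v := hE
    obtain ⟨a1, a2⟩ := kg1_sum Q₁ W
      (fun r y => w y * G0 p.N (x + Real.log r - L / 2 - y) ^ 2)
      (fun r => CE * p.E (x + Real.log r - L / 2)) hW₁ (fun r _ => hg _)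
    have hin : ∀ l : ℕ, Integrable (fun y => ∑ r ∈ Q, W r *
        (w y * G0 p.N (x + Real.log (l * r) - L / 2 - y) ^ 2)) ∧
        ∫ y, ∑ r ∈ Q, W r * (w y * G0 p.N (x + Real.log (l * r) - L / 2 - y) ^ 2) ≤
        ∑ r ∈ Q, W r * (CE * p.E (x + Real.log (l * r) - L / 2)) := fun l =>
      kg1_sum Q W (fun r y => w y * G0 p.N (x + Real.log (l * r) - L / 2 - y) ^ 2)
        (fun r => CE * p.E (x + Real.log (l * r) - L / 2)) hW (fun r _ => hg _)
    obtain ⟨b1, b2⟩ := kg1_sum (RG θ q) (fun l => 1 / (l : ℝ))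
      (fun l y => ∑ r ∈ Q, W r * (w y * G0 p.N (x + Real.log (l * r) - L / 2 - y) ^ 2))
      (fun l => ∑ r ∈ Q, W r * (CE * p.E (x + Real.log (l * r) - L / 2)))
      (fun l _ => by positivity) (fun l _ => hin l)
    -- the majorant
    have c1 : Integrable (fun y => (∑ r ∈ Q₁, W r *
        (w y * G0 p.N (x + Real.log r - L / 2 - y) ^ 2)) +
        Cρ * (∑ l ∈ RG θ q, 1 / (l : ℝ) * ∑ r ∈ Q, W r *
          (w y * G0 p.N (x + Real.log (l * r) - L / 2 - y) ^ 2))) := a1.add (b1.const_mul Cρ)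
    have c2 : Integrable (fun y => ((∑ r ∈ Q₁, W r *
        (w y * G0 p.N (x + Real.log r - L / 2 - y) ^ 2)) +
        Cρ * (∑ l ∈ RG θ q, 1 / (l : ℝ) * ∑ r ∈ Q, W r *
          (w y * G0 p.N (x + Real.log (l * r) - L / 2 - y) ^ 2))) +
        (q : ℝ) ^ (-p.δ) * w y) := c1.add (hI.const_mul _)
    have h3 : ∫ y : ℝ, w y * ∑ i ∈ s, om i * ‖R i (x - y)‖ ^ 2 ≤
        ∫ y : ℝ, Φ * (((∑ r ∈ Q₁, W r *
        (w y * G0 p.N (x + Real.log r - L / 2 - y) ^ 2)) +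
        Cρ * (∑ l ∈ RG θ q, 1 / (l : ℝ) * ∑ r ∈ Q, W r *
          (w y * G0 p.N (x + Real.log (l * r) - L / 2 - y) ^ 2))) +
        (q : ℝ) ^ (-p.δ) * w y) := by
      refine integral_mono h2i (c2.const_mul Φ) fun y => ?_
      have h4 := mul_le_mul_of_nonneg_left (hyp (x - y)) (hw0 y)
      refine h4.trans (le_of_eq ?_)
      have e1 : ∑ r ∈ Q₁, W r * (w y * G0 p.N (x + Real.log r - L / 2 - y) ^ 2) =
          w y * ∑ r ∈ Q₁, G0 p.N (x - y + Real.log r - L / 2) ^ 2 * W r := by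
        rw [Finset.mul_sum]
        refine Finset.sum_congr rfl fun r _ => ?_
        have : x + Real.log r - L / 2 - y = x - y + Real.log r - L / 2 := by ring
        rw [this]; ring
      have e2 : ∑ l ∈ RG θ q, 1 / (l : ℝ) * ∑ r ∈ Q, W r *
          (w y * G0 p.N (x + Real.log (l * r) - L / 2 - y) ^ 2) =
          w y * ∑ l ∈ RG θ q, 1 / (l : ℝ) *
            ∑ r ∈ Q, G0 p.N (x - y + Real.log (l * r) - L / 2) ^ 2 * W r := by
        rw [Finset.mul_sum]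
        refine Finset.sum_congr rfl fun l _ => ?_
        have e3 : ∑ r ∈ Q, W r * (w y * G0 p.N (x + Real.log (l * r) - L / 2 - y) ^ 2) =
            w y * ∑ r ∈ Q, G0 p.N (x - y + Real.log (l * r) - L / 2) ^ 2 * W r := by
          rw [Finset.mul_sum]
          refine Finset.sum_congr rfl fun r _ => ?_
          have : x + Real.log (l * r) - L / 2 - y = x - y + Real.log (l * r) - L / 2 := by ring
          rw [this]; ring
        rw [e3]; ring
      rw [e1, e2]; ring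
    have h5 : ∫ y : ℝ, Φ * (((∑ r ∈ Q₁, W r *
        (w y * G0 p.N (x + Real.log r - L / 2 - y) ^ 2)) +
        Cρ * (∑ l ∈ RG θ q, 1 / (l : ℝ) * ∑ r ∈ Q, W r *
          (w y * G0 p.N (x + Real.log (l * r) - L / 2 - y) ^ 2))) +
        (q : ℝ) ^ (-p.δ) * w y) ≤ Φ * (CE * AE p θ q Cρ Q₁ Q W x + (q : ℝ) ^ (-p.δ) * J) := by
      rw [integral_const_mul, integral_add c1 (hI.const_mul _), integral_add a1 (b1.const_mul Cρ),
        integral_const_mul, integral_const_mul, hJ]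
      refine mul_le_mul_of_nonneg_left ?_ hΦ0
      have e1 : CE * AE p θ q Cρ Q₁ Q W x =
          (∑ r ∈ Q₁, W r * (CE * p.E (x + Real.log r - L / 2))) +
          Cρ * ∑ l ∈ RG θ q, 1 / (l : ℝ) * ∑ r ∈ Q, W r *
            (CE * p.E (x + Real.log (l * r) - L / 2)) := by
        unfold AE
        rw [mul_add]
        congr 1
        · rw [Finset.mul_sum]
          exact Finset.sum_congr rfl fun r _ => by ring
        · rw [mul_left_comm, Finset.mul_sum]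
          congr 1
          refine Finset.sum_congr rfl fun l _ => ?_
          have e3 : ∑ r ∈ Q, W r * (CE * p.E (x + Real.log (l * r) - L / 2)) =
              CE * ∑ r ∈ Q, p.E (x + Real.log (l * r) - L / 2) * W r := by
            rw [Finset.mul_sum]
            exact Finset.sum_congr rfl fun r _ => by ring
          rw [e3]; ring
      rw [e1]
      have := mul_le_mul_of_nonneg_left b2 hCρ
      linarith
    have hAE : 0 ≤ AE p θ q Cρ Q₁ Q W x := by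
      unfold AE
      have hE0 : ∀ v, 0 ≤ p.E v := fun v => (Real.exp_pos _).le
      refine add_nonneg (Finset.sum_nonneg fun r hr => mul_nonneg (hE0 _) (hW₁ r hr))
        (mul_nonneg hCρ (Finset.sum_nonneg fun l _ => mul_nonneg (by positivity)
          (Finset.sum_nonneg fun r hr => mul_nonneg (hE0 _) (hW r hr))))
    have hq2 : 1 / (q : ℝ) ≤ (q : ℝ) ^ (-p.δ) := by
      rw [one_div, ← Real.rpow_neg_one]
      exact Real.rpow_le_rpow_of_exponent_le hqR (by linarith)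
    have h6 : ∑ i ∈ s, om i * ∫ y : ℝ, w y * ‖R i (x - y)‖ ^ 2 ≤
        Φ * (CE * AE p θ q Cρ Q₁ Q W x + (q : ℝ) ^ (-p.δ) * J) := by
      rw [h2]; exact h3.trans h5
    have h7 := mul_le_mul_of_nonneg_left h6 hCt.le
    have h8 := mul_le_mul_of_nonneg_left hq2 hΦ0
    have h9 : 0 ≤ Φ * AE p θ q Cρ Q₁ Q W x := mul_nonneg hΦ0 hAE
    have h10 : 0 ≤ Φ * (q : ℝ) ^ (-p.δ) := mul_nonneg hΦ0 hqδ.le
    have h11 : 0 ≤ (Ct * J + 1) * (Φ * AE p θ q Cρ Q₁ Q W x) := by positivity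
    have h12 : 0 ≤ Ct * CE * (Φ * (q : ℝ) ^ (-p.δ)) := by positivity
    calc _ ≤ _ := h1
      _ ≤ Ct * (Φ * (CE * AE p θ q Cρ Q₁ Q W x + (q : ℝ) ^ (-p.δ) * J)) +
          Φ * (q : ℝ) ^ (-p.δ) := add_le_add h7 h8
      _ ≤ _ := by nlinarith
  · intro x hx
    calc ∑ i ∈ s, om i * ‖∫ y : ℝ, k i y * P i (x - y)‖ ^ 2
        ≤ ∑ i ∈ s, om i * (1 / (q : ℝ) * Real.exp (-(x - L))) :=
          Finset.sum_le_sum fun i hi => mul_le_mul_of_nonneg_left ((hT i hi).2 x hx) (hom i hi)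
      _ = (∑ i ∈ s, om i) * (1 / (q : ℝ) * Real.exp (-(x - L))) := by rw [Finset.sum_mul]
      _ ≤ Φ * (1 / (q : ℝ) * Real.exp (-(x - L))) :=
          mul_le_mul_of_nonneg_right hΦ (by positivity)
      _ = _ := by ring


end Pool.Agent.SGD
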