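import Pool.Agent.Lib_helper45.SGD.Defs
import Pool.Agent.Lib_helper45.SGDF.KB
import Pool.Agent.Lib_helper45.SGDF.KD
import Pool.Agent.Lib_helper45.SGDF.KE1
import Pool.Agent.Lib_helper45.SGDF.KE2
import Pool.Agent.Lib_helper45.SGDF.KE3
import Pool.Agent.Lib_helper45.SGDF.KG1

/-!
# SGN part D, core: block KG2 (mean squares of the mollified densities)
-/

set_option autoImplicit false

namespace Pool.Agent.SGD

open Complex MeasureTheory Filter Topology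
open Pool.Agent.SQS (hat)
open Pool.Agent.ABS (LData Nice oddZ win)
open scoped ENNReal

theorem kg2_gz_norm {N : ℝ} (hN : 1 ≤ N) (v : ℝ) : ‖gz N v‖ = G0 N v := by
  unfold gz
  rw [Complex.norm_real, Real.norm_eq_abs, abs_of_pos ((G0_facts hN).2 v).1]

theorem kg2_gz_cont {N : ℝ} (hN : 1 ≤ N) : Continuous (gz N) :=
  Complex.continuous_ofReal.comp (G0_facts hN).1

theorem kg2_gz_le {N : ℝ} (hN : 1 ≤ N) (v : ℝ) : ‖gz N v‖ ≤ 1 := by
  rw [kg2_gz_norm hN]; exact ((G0_facts hN).2 v).2.1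

theorem kg2_FG_le {N : ℝ} (hN : 1 ≤ N) (L z r : ℝ) : ‖FG N L z r‖ ≤ 1 := kg2_gz_le hN _

theorem kg2_FH_le {N : ℝ} (hN : 1 ≤ N) (L z r : ℝ) : ‖FH N L z r‖ ≤ 1 := by
  unfold FH
  split_ifs
  · simp
  · exact kg2_gz_le hN _

theorem kg2_FG_cont {N : ℝ} (hN : 1 ≤ N) (L r : ℝ) : Continuous fun z : ℝ => FG N L z r := by
  unfold FG
  exact (kg2_gz_cont hN).comp (by fun_prop)

theorem kg2_FH_cont {N : ℝ} (hN : 1 ≤ N) (L r : ℝ) : Continuous fun z : ℝ => FH N L z r := by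
  unfold FH
  split_ifs
  · exact continuous_const
  · exact (kg2_gz_cont hN).comp (by fun_prop)

/-- the trivial bound of `SG` -/
noncomputable def kg2BG (S : Finset ℕ) (R : ℝ) (lam al : ℕ → ℂ) : ℝ :=
  ∑ k ∈ S, ∑ k' ∈ S, ∑ m ∈ Finset.Icc 1 ⌊R * k' / k⌋₊,
    ‖(lam m * al k * starRingEnd ℂ (al k')) * ((((m : ℝ) * k * k') ^ (-(1 / 2) : ℝ) : ℝ) : ℂ)‖

/-- the trivial bound of `SH` -/
noncomputable def kg2BH (S : Finset ℕ) (R : ℝ) (lam al : ℕ → ℂ) : ℝ :=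
  ∑ k ∈ S, ∑ k' ∈ S, ∑ m ∈ Finset.Icc 1 ⌊R / (k * k')⌋₊,
    ‖(lam m * al k * al k') * ((((m : ℝ) * k * k') ^ (-(1 / 2) : ℝ) : ℝ) : ℂ)‖

theorem kg2BG_nonneg (S : Finset ℕ) (R : ℝ) (lam al : ℕ → ℂ) : 0 ≤ kg2BG S R lam al :=
  Finset.sum_nonneg fun _ _ => Finset.sum_nonneg fun _ _ => Finset.sum_nonneg fun _ _ =>
    norm_nonneg _

theorem kg2BH_nonneg (S : Finset ℕ) (R : ℝ) (lam al : ℕ → ℂ) : 0 ≤ kg2BH S R lam al :=
  Finset.sum_nonneg fun _ _ => Finset.sum_nonneg fun _ _ => Finset.sum_nonneg fun _ _ =>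
    norm_nonneg _

theorem kg2_SG_le (S : Finset ℕ) (R : ℝ) (lam al : ℕ → ℂ) (F : ℝ → ℂ) (hF : ∀ r, ‖F r‖ ≤ 1) :
    ‖SG S R lam al F‖ ≤ kg2BG S R lam al := by
  unfold SG kg2BG
  refine (norm_sum_le _ _).trans (Finset.sum_le_sum fun k _ => ?_)
  refine (norm_sum_le _ _).trans (Finset.sum_le_sum fun k' _ => ?_)
  refine (norm_sum_le _ _).trans (Finset.sum_le_sum fun m _ => ?_)
  rw [mul_assoc, norm_mul]
  exact mul_le_of_le_one_left (norm_nonneg _) (hF _)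

theorem kg2_SH_le (S : Finset ℕ) (R : ℝ) (lam al : ℕ → ℂ) (F : ℝ → ℂ) (hF : ∀ r, ‖F r‖ ≤ 1) :
    ‖SH S R lam al F‖ ≤ kg2BH S R lam al := by
  unfold SH kg2BH
  refine (norm_sum_le _ _).trans (Finset.sum_le_sum fun k _ => ?_)
  refine (norm_sum_le _ _).trans (Finset.sum_le_sum fun k' _ => ?_)
  refine (norm_sum_le _ _).trans (Finset.sum_le_sum fun m _ => ?_)
  rw [mul_assoc, norm_mul]
  exact mul_le_of_le_one_left (norm_nonneg _) (hF _)

theorem kg2_SG_cont (S : Finset ℕ) (R : ℝ) (lam al : ℕ → ℂ) {F : ℝ → ℝ → ℂ}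
    (hF : ∀ r, Continuous fun z => F z r) : Continuous fun z => SG S R lam al (F z) := by
  unfold SG
  refine continuous_finsetSum _ fun k _ => continuous_finsetSum _ fun k' _ =>
    continuous_finsetSum _ fun m _ => ?_
  exact ((hF _).mul continuous_const).mul continuous_const

theorem kg2_SH_cont (S : Finset ℕ) (R : ℝ) (lam al : ℕ → ℂ) {F : ℝ → ℝ → ℂ}
    (hF : ∀ r, Continuous fun z => F z r) : Continuous fun z => SH S R lam al (F z) := by
  unfold SH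
  refine continuous_finsetSum _ fun k _ => continuous_finsetSum _ fun k' _ =>
    continuous_finsetSum _ fun m _ => ?_
  exact ((hF _).mul continuous_const).mul continuous_const

theorem mean_sq (p : Par) : ∃ (C : ℝ) (q₀ : ℕ), 0 < C ∧ ∀ q : ℕ, q₀ ≤ q → ∀ {θ Cρ dV Φ : ℝ}
    {ι : Type} {s : Finset ι} {om : ι → ℝ} {lam al : ι → ℕ → ℂ} {S : Finset ℕ}
    {QG QH : Finset ℝ} {W V : ℝ → ℝ} {g : ι → ℝ → ℂ} {X : ι → LData}, 0 ≤ Cρ →
    DFam p θ Cρ dV q Φ s om lam al S QG QH W V →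
    (∀ i ∈ s, Mem p q S (lam i) (al i) (g i) (X i)) →
    (∀ x : ℝ, 0 ≤ x → ∑ i ∈ s, om i * ‖(X i).fd S (bb (al i)) ll x‖ ^ 2 ≤
      C * Φ * (AE p θ q Cρ QG QG W x + (q : ℝ) ^ (-p.δ))) ∧
    (∀ x : ℝ, 0 ≤ x → ∑ i ∈ s, om i *
      ‖(X i).Dd S (bb (al i)) ll (x - Real.log q / 2) - g i (x - Real.log q / 2)‖ ^ 2 ≤
      C * Φ * (AE p θ q Cρ (QH.filter fun r => r ≠ 1) QH V x + (q : ℝ) ^ (-p.δ))) ∧
    (∀ x : ℝ, Real.log q ≤ x → ∑ i ∈ s, om i * ‖(X i).fd S (bb (al i)) ll x‖ ^ 2 ≤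
      Φ / q * Real.exp (-(x - Real.log q))) ∧
    ∀ x : ℝ, Real.log q ≤ x → ∑ i ∈ s, om i *
      ‖(X i).Dd S (bb (al i)) ll (x - Real.log q / 2) - g i (x - Real.log q / 2)‖ ^ 2 ≤
      Φ / q * Real.exp (-(x - Real.log q)) := by
  classical
  have hN : 1 ≤ p.N := by linarith [N_ge p, p.hA]
  obtain ⟨C, q₁, hC, hgen⟩ := mean_gen p
  obtain ⟨q₂, hcru⟩ := P_crude p
  obtain ⟨q₃, htF⟩ := P_tailF p
  obtain ⟨q₄, htH⟩ := P_tailH p
  refine ⟨C, max (max q₁ q₂) (max (max q₃ q₄) 2), hC, fun q hq => ?_⟩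
  intro θ Cρ dV Φ ι s om lam al S QG QH W V g X hCρ hD hM
  have hq1 : q₁ ≤ q := le_trans (le_max_left _ _ |>.trans (le_max_left _ _)) hq
  have hq2 : q₂ ≤ q := le_trans (le_max_right _ _ |>.trans (le_max_left _ _)) hq
  have hq3 : q₃ ≤ q := le_trans ((le_max_left _ _ |>.trans (le_max_left _ _)).trans
    (le_max_right _ _)) hq
  have hq4 : q₄ ≤ q := le_trans ((le_max_right _ _ |>.trans (le_max_left _ _)).trans
    (le_max_right _ _)) hq
  have hq5 : 2 ≤ q := le_trans ((le_max_right _ _).trans (le_max_right _ _)) hq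
  -- the kernels
  have hex : ∀ i, ∃ k : ℝ → ℂ, i ∈ s → Continuous k ∧
      (∀ B : ℝ, -p.κ ≤ B → ∀ v : ℝ, ‖k v‖ ≤ p.M p.N B * Real.exp (-(B * v))) ∧
      ∀ v : ℝ, g i v = ∫ y : ℝ, k y * gz p.N (v - y) := by
    intro i
    by_cases hi : i ∈ s
    · obtain ⟨k, hk⟩ := (hM i hi).gc.ker p.N hN
      exact ⟨k, fun _ => hk⟩
    · exact ⟨0, fun h => absurd h hi⟩
  choose k hk using hex
  set L := Real.log q with hL
  set R : ℝ := (q : ℝ) ^ (1 / 2 + p.κ') with hR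
  -- the two applications of mean_gen
  have hF := hgen q hq1 (θ := θ) (Cρ := Cρ) (Φ := Φ) (B := ∑ i ∈ s, kg2BG S R (lam i) (al i))
    (s := s) (om := om) (Q₁ := QG) (Q := QG) (W := W) (k := k)
    (P := fun i => PF p.N L S (lam i) (al i))
    (R := fun i z => SG S R (lam i) (al i) (FG p.N L z)) hCρ hD.W_nonneg hD.W_nonneg
    hD.om_nonneg hD.om_sum
    (fun i hi => ⟨(PF_cont (hM i hi) L).1, kg2_SG_cont _ _ _ _ (kg2_FG_cont hN L),
      (hk i hi).1⟩)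
    (fun i hi z => (kg2_SG_le S R (lam i) (al i) _ (kg2_FG_le hN L z)).trans
      (Finset.single_le_sum (f := fun i => kg2BG S R (lam i) (al i))
        (fun j _ => kg2BG_nonneg _ _ _ _) hi))
    (fun i hi => (hk i hi).2.1)
    (fun i hi z => (hcru q hq2 (hM i hi) z).1)
    (fun i hi z hz => htF q hq3 (hM i hi) z hz)
    (fun z => by
      have h := hD.lsG (FG p.N L z) (kg2_FG_le hN L z)
      refine h.trans (le_of_eq ?_)
      unfold AR
      have e : ∀ r : ℝ, ‖FG p.N L z r‖ ^ 2 = G0 p.N (z + Real.log r - L / 2) ^ 2 := fun r => by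
        unfold FG; rw [kg2_gz_norm hN]
      simp only [e]
      rfl)
  have hH := hgen q hq1 (θ := θ) (Cρ := Cρ) (Φ := Φ) (B := ∑ i ∈ s, kg2BH S R (lam i) (al i))
    (s := s) (om := om) (Q₁ := QH.filter fun r => r ≠ 1) (Q := QH) (W := V) (k := k)
    (P := fun i => PH p.N L S (lam i) (al i))
    (R := fun i z => SH S R (lam i) (al i) (FH p.N L z)) hCρ
    (fun r hr => hD.V_nonneg r (Finset.mem_filter.1 hr).1) hD.V_nonneg
    hD.om_nonneg hD.om_sum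
    (fun i hi => ⟨(PF_cont (hM i hi) L).2, kg2_SH_cont _ _ _ _ (kg2_FH_cont hN L),
      (hk i hi).1⟩)
    (fun i hi z => (kg2_SH_le S R (lam i) (al i) _ (kg2_FH_le hN L z)).trans
      (Finset.single_le_sum (f := fun i => kg2BH S R (lam i) (al i))
        (fun j _ => kg2BH_nonneg _ _ _ _) hi))
    (fun i hi => (hk i hi).2.1)
    (fun i hi z => (hcru q hq2 (hM i hi) z).2)
    (fun i hi z hz => htH q hq4 (hM i hi) z hz)
    (fun z => by
      have h := hD.lsH (FH p.N L z) (kg2_FH_le hN L z)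
      have hΦ : 0 ≤ Φ := le_trans (Finset.sum_nonneg hD.om_nonneg) hD.om_sum
      refine h.trans (mul_le_mul_of_nonneg_left ?_ hΦ)
      unfold AR
      have e1 : ∑ r ∈ QH, ‖FH p.N L z r‖ ^ 2 * V r =
          ∑ r ∈ QH.filter (fun r => r ≠ 1), G0 p.N (z + Real.log r - L / 2) ^ 2 * V r := by
        rw [Finset.sum_filter]
        refine Finset.sum_congr rfl fun r _ => ?_
        unfold FH
        by_cases hr : r = 1
        · simp [hr]
        · rw [if_neg hr, if_pos hr, kg2_gz_norm hN]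
      have e2 : ∀ r : ℝ, ‖FH p.N L z r‖ ≤ G0 p.N (z + Real.log r - L / 2) := by
        intro r
        unfold FH
        by_cases hr : r = 1
        · rw [if_pos hr, norm_zero]; exact ((G0_facts hN).2 _).1.le
        · rw [if_neg hr, kg2_gz_norm hN]
      rw [e1]
      gcongr with l hl r hr
      · exact hD.V_nonneg r hr
      · exact e2 _)
  have eF : ∀ x : ℝ, ∑ i ∈ s, om i * ‖(X i).fd S (bb (al i)) ll x‖ ^ 2 =
      ∑ i ∈ s, om i * ‖∫ y : ℝ, k i y * PF p.N L S (lam i) (al i) (x - y)‖ ^ 2 := by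
    intro x
    refine Finset.sum_congr rfl fun i hi => ?_
    rw [(fd_exp hq5 (hM i hi) (hk i hi).1 (hk i hi).2.1 (hk i hi).2.2 x).2]
  have eH : ∀ x : ℝ, ∑ i ∈ s, om i *
      ‖(X i).Dd S (bb (al i)) ll (x - L / 2) - g i (x - L / 2)‖ ^ 2 =
      ∑ i ∈ s, om i * ‖∫ y : ℝ, k i y * PH p.N L S (lam i) (al i) (x - y)‖ ^ 2 := by
    intro x
    refine Finset.sum_congr rfl fun i hi => ?_
    rw [(Dd_exp hq5 (hM i hi) (hk i hi).1 (hk i hi).2.1 (hk i hi).2.2 x).2]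
  refine ⟨fun x hx => ?_, fun x hx => ?_, fun x hx => ?_, fun x hx => ?_⟩
  · rw [eF]; exact hF.1 x hx
  · rw [eH]; exact hH.1 x hx
  · rw [eF]; exact hF.2 x hx
  · rw [eH]; exact hH.2 x hx

end Pool.Agent.SGD
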