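import Pool.Agent.Lib_helper45.SGD.Defs

/-! Block KH1: the number of rough numbers -/

set_option autoImplicit false

namespace Pool.Agent.SGD

open Complex MeasureTheory Filter Topology
open Pool.Agent.SQS (hat)
open Pool.Agent.ABS (LData Nice oddZ win)
open scoped ENNReal

theorem kh1_mertens : ∃ C : ℝ, 1 ≤ C ∧ ∀ N : ℕ, 1 ≤ N →
    ∑ n ∈ Finset.Ioc 0 N, ArithmeticFunction.vonMangoldt n / (n : ℝ) ≤ C * (1 + Real.log N) := by
  refine ⟨Real.log 4 + 5, ?_, fun N hN => ?_⟩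
  · have : 0 ≤ Real.log 4 := Real.log_nonneg (by norm_num)
    linarith
  have hN0 : (0 : ℝ) < N := by exact_mod_cast hN
  have hl : 0 ≤ Real.log N := Real.log_natCast_nonneg N
  have h1 : ∑ n ∈ Finset.Ioc 0 N, ArithmeticFunction.vonMangoldt n * ((N / n : ℕ) : ℝ) ≤
      N * Real.log N := by
    rw [← ArithmeticFunction.sum_Ioc_mul_zeta_eq_sum, ArithmeticFunction.vonMangoldt_mul_zeta]
    calc ∑ n ∈ Finset.Ioc 0 N, ArithmeticFunction.log n ≤ ∑ _n ∈ Finset.Ioc 0 N, Real.log N := by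
          refine Finset.sum_le_sum fun n hn => ?_
          rw [Finset.mem_Ioc] at hn
          rw [ArithmeticFunction.log_apply]
          exact Real.log_le_log (by exact_mod_cast hn.1) (by exact_mod_cast hn.2)
      _ = N * Real.log N := by
          rw [Finset.sum_const, Nat.card_Ioc, nsmul_eq_mul, Nat.sub_zero]
  have h2 : ∑ n ∈ Finset.Ioc 0 N, ArithmeticFunction.vonMangoldt n ≤ (Real.log 4 + 4) * N := by
    have h := Chebyshev.psi_le_const_mul_self (x := (N : ℝ)) hN0.le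
    unfold Chebyshev.psi at h
    rwa [Nat.floor_natCast] at h
  have h3 : (N : ℝ) * ∑ n ∈ Finset.Ioc 0 N, ArithmeticFunction.vonMangoldt n / (n : ℝ) ≤
      N * Real.log N + (Real.log 4 + 4) * N := by
    rw [Finset.mul_sum]
    calc ∑ n ∈ Finset.Ioc 0 N, (N : ℝ) * (ArithmeticFunction.vonMangoldt n / n) ≤
        ∑ n ∈ Finset.Ioc 0 N, (ArithmeticFunction.vonMangoldt n * ((N / n : ℕ) : ℝ) +
          ArithmeticFunction.vonMangoldt n) := by
          refine Finset.sum_le_sum fun n hn => ?_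
          rw [Finset.mem_Ioc] at hn
          have hn0 : (0 : ℝ) < n := by exact_mod_cast hn.1
          have h4 : (N : ℝ) / n ≤ ((N / n : ℕ) : ℝ) + 1 := by
            have := Nat.lt_div_mul_add (a := N) (b := n) hn.1
            rw [div_le_iff₀ hn0]
            have h5 : (N : ℝ) < ((N / n : ℕ) : ℝ) * n + n := by exact_mod_cast this
            nlinarith
          have h5 : 0 ≤ ArithmeticFunction.vonMangoldt n := ArithmeticFunction.vonMangoldt_nonneg
          calc (N : ℝ) * (ArithmeticFunction.vonMangoldt n / n) =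
              ArithmeticFunction.vonMangoldt n * ((N : ℝ) / n) := by ring
            _ ≤ ArithmeticFunction.vonMangoldt n * (((N / n : ℕ) : ℝ) + 1) :=
              mul_le_mul_of_nonneg_left h4 h5
            _ = _ := by ring
      _ ≤ _ := by
          rw [Finset.sum_add_distrib]
          exact add_le_add h1 h2
  have h4 : (N : ℝ) * ∑ n ∈ Finset.Ioc 0 N, ArithmeticFunction.vonMangoldt n / (n : ℝ) ≤
      N * ((Real.log 4 + 5) * (1 + Real.log N)) := by
    have h5 : 0 ≤ Real.log 4 := Real.log_nonneg (by norm_num)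
    have h6 : 0 ≤ Real.log 4 * Real.log N := mul_nonneg h5 hl
    nlinarith
  exact le_of_mul_le_mul_left h4 hN0

/-- the primes in `(q^θ, q]` -/
noncomputable def kh1_P (θ : ℝ) (q : ℕ) : Finset ℕ :=
  open Classical in (Finset.Ioc 0 q).filter fun p => p.Prime ∧ (q : ℝ) ^ θ < p

theorem kh1_mem {θ : ℝ} {q p : ℕ} : p ∈ kh1_P θ q ↔ (0 < p ∧ p ≤ q) ∧ p.Prime ∧ (q : ℝ) ^ θ < p := by
  unfold kh1_P
  rw [Finset.mem_filter, Finset.mem_Ioc]

theorem kh1_RG {θ : ℝ} {q l : ℕ} : l ∈ RG θ q ↔ (2 ≤ l ∧ l ≤ q) ∧ SGN.Rough ((q : ℝ) ^ θ) l := by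
  classical
  unfold RG
  rw [Finset.mem_filter, Finset.mem_Icc]

theorem kh1_primes {θ : ℝ} (hθ : 0 < θ) : ∃ C : ℝ, 0 < C ∧ ∀ q : ℕ, 2 ≤ q →
    ∑ p ∈ kh1_P θ q, 1 / (p : ℝ) ≤ C := by
  obtain ⟨C, hC1, hC⟩ := kh1_mertens
  have hl2 : 0 < Real.log 2 := Real.log_pos (by norm_num)
  refine ⟨C * (1 / Real.log 2 + 1) / θ, by positivity, fun q hq => ?_⟩
  have hq2 : (2 : ℝ) ≤ q := by exact_mod_cast hq
  have hq0 : (0 : ℝ) < q := by linarith
  have hL : Real.log 2 ≤ Real.log q := Real.log_le_log (by norm_num) hq2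
  have hL0 : 0 < Real.log q := hl2.trans_le hL
  have h1 : θ * Real.log q * ∑ p ∈ kh1_P θ q, 1 / (p : ℝ) ≤
      ∑ n ∈ Finset.Ioc 0 q, ArithmeticFunction.vonMangoldt n / (n : ℝ) := by
    rw [Finset.mul_sum]
    calc ∑ p ∈ kh1_P θ q, θ * Real.log q * (1 / (p : ℝ)) ≤
        ∑ p ∈ kh1_P θ q, ArithmeticFunction.vonMangoldt p / (p : ℝ) := by
          refine Finset.sum_le_sum fun p hp => ?_
          obtain ⟨⟨hp0, hpq⟩, hpp, hpy⟩ := kh1_mem.1 hp
          have hp0' : (0 : ℝ) < p := by exact_mod_cast hp0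
          rw [ArithmeticFunction.vonMangoldt_apply_prime hpp, mul_one_div]
          apply div_le_div_of_nonneg_right _ hp0'.le
          rw [← Real.log_rpow hq0]
          exact Real.log_le_log (Real.rpow_pos_of_pos hq0 _) hpy.le
      _ ≤ ∑ n ∈ Finset.Ioc 0 q, ArithmeticFunction.vonMangoldt n / (n : ℝ) := by
          refine Finset.sum_le_sum_of_subset_of_nonneg ?_ fun n _ _ => ?_
          · intro p hp
            exact Finset.mem_Ioc.2 (kh1_mem.1 hp).1
          · exact div_nonneg ArithmeticFunction.vonMangoldt_nonneg (Nat.cast_nonneg n)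
  have h2 := h1.trans (hC q (by omega))
  have h3 : (1 : ℝ) ≤ Real.log q / Real.log 2 := by rw [le_div_iff₀ hl2]; linarith
  rw [le_div_iff₀ hθ]
  have h4 : (∑ p ∈ kh1_P θ q, 1 / (p : ℝ)) * θ * Real.log q ≤
      C * (1 / Real.log 2 + 1) * Real.log q := by
    calc (∑ p ∈ kh1_P θ q, 1 / (p : ℝ)) * θ * Real.log q =
        θ * Real.log q * ∑ p ∈ kh1_P θ q, 1 / (p : ℝ) := by ring
      _ ≤ C * (1 + Real.log q) := h2
      _ ≤ C * (Real.log q / Real.log 2 + Real.log q) := by gcongr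
      _ = C * (1 / Real.log 2 + 1) * Real.log q := by ring
  exact le_of_mul_le_mul_right h4 hL0

theorem kh1_inv {x : ℝ} (h0 : 0 ≤ x) (h1 : x ≤ 1 / 2) : (1 - x)⁻¹ ≤ Real.exp (2 * x) := by
  have h2 : (1 - x)⁻¹ ≤ 1 + 2 * x := by
    rw [inv_le_iff_one_le_mul₀ (by linarith)]
    nlinarith
  have h3 := Real.add_one_le_exp (2 * x)
  linarith

theorem kh1_sum {θ : ℝ} {q : ℕ} :
    ∑ l ∈ RG θ q, 1 / (l : ℝ) ≤ Real.exp (2 * ∑ p ∈ kh1_P θ q, 1 / (p : ℝ)) := by
  let f : ℕ →* ℝ :=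
    { toFun := fun n => (n : ℝ)⁻¹
      map_one' := by simp
      map_mul' := fun a b => by push_cast; rw [mul_inv] }
  have hf : ∀ n : ℕ, f n = (n : ℝ)⁻¹ := fun n => rfl
  have hlt : ∀ {p : ℕ}, p.Prime → ‖f p‖ < 1 := by
    intro p hp
    have hp2 : (2 : ℝ) ≤ p := by exact_mod_cast hp.two_le
    rw [hf, norm_inv, Real.norm_natCast]
    exact inv_lt_one_of_one_lt₀ (by linarith)
  have h := (EulerProduct.summable_and_hasSum_factoredNumbers_prod_filter_prime_geometric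
    (f := f) hlt (kh1_P θ q)).2
  have h' : HasSum (Set.indicator (Nat.factoredNumbers (kh1_P θ q)) (fun n => f n))
      (∏ p ∈ (kh1_P θ q).filter Nat.Prime, (1 - f p)⁻¹) :=
    (hasSum_subtype_iff_indicator (f := fun n => f n)).1 h
  have h1 : ∑ l ∈ RG θ q, 1 / (l : ℝ) ≤ ∏ p ∈ (kh1_P θ q).filter Nat.Prime, (1 - f p)⁻¹ := by
    have h2 := sum_le_hasSum (RG θ q) (fun n _ => Set.indicator_nonneg
      (fun n _ => by rw [hf]; positivity) n) h'
    refine le_trans (le_of_eq (Finset.sum_congr rfl fun l hl => ?_)) h2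
    obtain ⟨⟨h3, h4⟩, h5⟩ := kh1_RG.1 hl
    have hmem : l ∈ Nat.factoredNumbers (kh1_P θ q) := by
      rw [Nat.mem_factoredNumbers]
      refine ⟨by omega, fun p hp => ?_⟩
      have hpp := Nat.prime_of_mem_primeFactorsList hp
      have hpd := Nat.dvd_of_mem_primeFactorsList hp
      exact kh1_mem.2 ⟨⟨hpp.pos, (Nat.le_of_dvd (by omega) hpd).trans h4⟩, hpp, h5 p hpp hpd⟩
    rw [Set.indicator_of_mem hmem, hf, one_div]
  refine h1.trans ?_
  rw [Finset.mul_sum, Real.exp_sum]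
  have h3 : (kh1_P θ q).filter Nat.Prime = kh1_P θ q := by
    apply Finset.filter_true_of_mem
    intro p hp
    exact (kh1_mem.1 hp).2.1
  rw [h3]
  refine Finset.prod_le_prod (fun p hp => ?_) fun p hp => ?_
  · have hp2 : (2 : ℝ) ≤ p := by exact_mod_cast (kh1_mem.1 hp).2.1.two_le
    rw [hf]
    have : (p : ℝ)⁻¹ ≤ 1 := inv_le_one_of_one_le₀ (by linarith)
    exact inv_nonneg.2 (by linarith)
  · have hp2 : (2 : ℝ) ≤ p := by exact_mod_cast (kh1_mem.1 hp).2.1.two_le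
    rw [hf, one_div]
    refine kh1_inv (by positivity) ?_
    rw [one_div]
    exact inv_anti₀ (by norm_num) hp2

theorem kh1_psi {θ : ℝ} {q : ℕ} {Z : ℝ} (hZ : 1 ≤ Z) :
    ∑ l ∈ (RG θ q).filter (fun l : ℕ => (l : ℝ) ≤ Z), Real.log l ≤
      (Real.log 4 + 4) * Z * (1 + ∑ l ∈ RG θ q, 1 / (l : ℝ)) := by
  have hZ0 : 0 ≤ Z := by linarith
  set T := (RG θ q).filter (fun l : ℕ => (l : ℝ) ≤ Z) with hT
  have h1not : (1 : ℕ) ∉ RG θ q := by
    intro h
    have := (kh1_RG.1 h).1.1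
    omega
  have key : ∑ l ∈ T, Real.log l ≤ ∑ l' ∈ insert 1 (RG θ q),
      ∑ d ∈ Finset.Ioc 0 ⌊Z / (l' : ℝ)⌋₊, ArithmeticFunction.vonMangoldt d := by
    have e : ∀ l ∈ T, Real.log l = ∑ d ∈ l.divisors, ArithmeticFunction.vonMangoldt d :=
      fun l _ => ArithmeticFunction.vonMangoldt_sum.symm
    rw [Finset.sum_congr rfl e, Finset.sum_sigma', Finset.sum_sigma']
    let i : (Σ _ : ℕ, ℕ) → (Σ _ : ℕ, ℕ) := fun x => ⟨x.1 / x.2, x.2⟩
    have hi : Set.InjOn i (T.sigma fun l => l.divisors : Finset (Σ _ : ℕ, ℕ)) := by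
      rintro ⟨a, b⟩ ha ⟨c, d⟩ hc hac
      rw [Finset.mem_coe, Finset.mem_sigma] at ha hc
      have hb : b ∣ a := (Nat.mem_divisors.1 ha.2).1
      have hd : d ∣ c := (Nat.mem_divisors.1 hc.2).1
      have h1 : a / b = c / d := congrArg Sigma.fst hac
      have h2 : b = d := by
        have := congrArg (fun x : (Σ _ : ℕ, ℕ) => x.2) hac
        exact this
      subst h2
      have h3 : a = c := by
        rw [← Nat.div_mul_cancel hb, ← Nat.div_mul_cancel hd]
        exact congrArg (· * b) h1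
      subst h3
      rfl
    calc ∑ x ∈ T.sigma (fun l => l.divisors), ArithmeticFunction.vonMangoldt x.2 =
        ∑ y ∈ (T.sigma fun l => l.divisors).image i, ArithmeticFunction.vonMangoldt y.2 := by
          rw [Finset.sum_image hi]
      _ ≤ _ := by
          refine Finset.sum_le_sum_of_subset_of_nonneg ?_ fun _ _ _ =>
            ArithmeticFunction.vonMangoldt_nonneg
          intro y hy
          obtain ⟨⟨l, d⟩, hx, rfl⟩ := Finset.mem_image.1 hy
          obtain ⟨hl, hd⟩ := Finset.mem_sigma.1 hx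
          change l ∈ T at hl
          change d ∈ l.divisors at hd
          obtain ⟨hdl, hl0⟩ := Nat.mem_divisors.1 hd
          obtain ⟨hlR, hlZ⟩ := Finset.mem_filter.1 hl
          obtain ⟨⟨h2l, hlq⟩, hr⟩ := kh1_RG.1 hlR
          have hd0 : 0 < d := Nat.pos_of_dvd_of_pos hdl (by omega)
          have hq0 : 0 < l / d := Nat.div_pos (Nat.le_of_dvd (by omega) hdl) hd0
          rw [Finset.mem_sigma]
          constructor
          · change l / d ∈ insert 1 (RG θ q)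
            rw [Finset.mem_insert]
            by_cases h1 : l / d = 1
            · exact Or.inl h1
            · refine Or.inr (kh1_RG.2 ⟨⟨by omega, (Nat.div_le_self _ _).trans hlq⟩, ?_⟩)
              intro p hp hpd
              exact hr p hp (hpd.trans (Nat.div_dvd_of_dvd hdl))
          · change d ∈ Finset.Ioc 0 ⌊Z / ((l / d : ℕ) : ℝ)⌋₊
            rw [Finset.mem_Ioc]
            refine ⟨hd0, Nat.le_floor ?_⟩
            have hq0' : (0 : ℝ) < ((l / d : ℕ) : ℝ) := by exact_mod_cast hq0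
            rw [le_div_iff₀ hq0']
            have h5 : d * (l / d) = l := Nat.mul_div_cancel' hdl
            have h6 : (d : ℝ) * ((l / d : ℕ) : ℝ) = l := by exact_mod_cast h5
            rw [h6]
            exact hlZ
  refine key.trans ?_
  have h2 : ∀ l' ∈ insert 1 (RG θ q),
      ∑ d ∈ Finset.Ioc 0 ⌊Z / (l' : ℝ)⌋₊, ArithmeticFunction.vonMangoldt d ≤
        (Real.log 4 + 4) * Z * (1 / (l' : ℝ)) := by
    intro l' _
    have h := Chebyshev.psi_le_const_mul_self (x := Z / (l' : ℝ)) (div_nonneg hZ0 (Nat.cast_nonneg _))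
    unfold Chebyshev.psi at h
    refine h.trans (le_of_eq ?_)
    ring
  refine (Finset.sum_le_sum h2).trans (le_of_eq ?_)
  rw [← Finset.mul_sum, Finset.sum_insert h1not]
  norm_num

theorem rough_count {θ : ℝ} (hθ : 0 < θ) (hθ1 : θ ≤ 1) :
    ∃ C : ℝ, 0 < C ∧ ∀ q : ℕ, 2 ≤ q → ∑ l ∈ RG θ q, 1 / (l : ℝ) ≤ C ∧
      ∀ Z : ℝ, 1 ≤ Z → (((RG θ q).filter fun l : ℕ => (l : ℝ) ≤ Z).card : ℝ) ≤
        C * Z / Real.log q := by
  obtain ⟨C₁, hC₁, hP⟩ := kh1_primes hθ
  set E := Real.exp (2 * C₁) with hE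
  have hE0 : 0 < E := Real.exp_pos _
  have hl4 : 0 ≤ Real.log 4 := Real.log_nonneg (by norm_num)
  have hK : 0 < (Real.log 4 + 4) * (1 + E) / θ := by positivity
  refine ⟨E + (Real.log 4 + 4) * (1 + E) / θ, by positivity, fun q hq => ?_⟩
  have hq2 : (2 : ℝ) ≤ q := by exact_mod_cast hq
  have hq0 : (0 : ℝ) < q := by linarith
  have hL0 : 0 < Real.log q := Real.log_pos (by linarith)
  have hS : ∑ l ∈ RG θ q, 1 / (l : ℝ) ≤ E := by
    refine kh1_sum.trans (Real.exp_le_exp.2 ?_)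
    have := hP q hq
    linarith
  refine ⟨by linarith, fun Z hZ => ?_⟩
  have hZ0 : 0 < Z := by linarith
  rw [le_div_iff₀ hL0]
  have h1 : (((RG θ q).filter fun l : ℕ => (l : ℝ) ≤ Z).card : ℝ) * (θ * Real.log q) ≤
      ∑ l ∈ (RG θ q).filter (fun l : ℕ => (l : ℝ) ≤ Z), Real.log l := by
    rw [← nsmul_eq_mul, ← Finset.sum_const]
    refine Finset.sum_le_sum fun l hl => ?_
    obtain ⟨hlR, hlZ⟩ := Finset.mem_filter.1 hl
    obtain ⟨⟨h2l, hlq⟩, hr⟩ := kh1_RG.1 hlR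
    have hp : (Nat.minFac l).Prime := Nat.minFac_prime (by omega)
    have h3 := hr _ hp (Nat.minFac_dvd l)
    have h4 : ((Nat.minFac l : ℕ) : ℝ) ≤ l := by exact_mod_cast Nat.minFac_le (by omega)
    rw [← Real.log_rpow hq0]
    exact Real.log_le_log (Real.rpow_pos_of_pos hq0 _) (h3.le.trans h4)
  have h2 := h1.trans (kh1_psi hZ)
  have h3 : (Real.log 4 + 4) * Z * (1 + ∑ l ∈ RG θ q, 1 / (l : ℝ)) ≤
      (Real.log 4 + 4) * Z * (1 + E) := by gcongr
  have h4 := h2.trans h3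
  have h5 : (((RG θ q).filter fun l : ℕ => (l : ℝ) ≤ Z).card : ℝ) * Real.log q ≤
      (Real.log 4 + 4) * (1 + E) / θ * Z := by
    rw [div_mul_eq_mul_div, le_div_iff₀ hθ]
    calc (((RG θ q).filter fun l : ℕ => (l : ℝ) ≤ Z).card : ℝ) * Real.log q * θ =
        (((RG θ q).filter fun l : ℕ => (l : ℝ) ≤ Z).card : ℝ) * (θ * Real.log q) := by ring
      _ ≤ (Real.log 4 + 4) * Z * (1 + E) := h4
      _ = (Real.log 4 + 4) * (1 + E) * Z := by ring
  refine h5.trans ?_
  have : 0 ≤ E * Z := by positivity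
  nlinarith


end Pool.Agent.SGD
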