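import Pool.Agent.Lib_helper45.SGD.Defs
import Pool.Agent.Lib_helper45.SGDF.KH1

/-!
# Block KH2: sums over rough numbers
-/

set_option autoImplicit false

namespace Pool.Agent.SGD

open Complex MeasureTheory Filter Topology
open Pool.Agent.SQS (hat)
open Pool.Agent.ABS (LData Nice oddZ win)
open scoped ENNReal

/-- `∑ e^(-c|i|)` over the integers converges -/
theorem kh2_summable {c : ℝ} (hc : 0 < c) :
    Summable fun i : ℤ => Real.exp (-(c * |(i : ℝ)|)) := by
  have h1 : Summable fun n : ℕ => Real.exp (-(c * (n : ℝ))) := by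
    have := (Real.summable_exp_nat_mul_iff (a := -c)).2 (by linarith)
    refine this.congr fun n => ?_
    congr 1
    ring
  refine Summable.of_nat_of_neg ?_ ?_
  · refine h1.congr fun n => ?_
    simp
  · refine h1.congr fun n => ?_
    simp

/-- the sums `∑ e^(-c|v+j|)` are bounded uniformly in `v` -/
theorem kh2_bound {c : ℝ} (hc : 0 < c) : ∃ K : ℝ, 0 < K ∧ ∀ (J : ℕ) (v : ℝ),
    ∑ j ∈ Finset.range J, Real.exp (-(c * |v + (j : ℝ)|)) ≤ K := by
  have hs := kh2_summable hc
  have hpos : 0 < ∑' i : ℤ, Real.exp (-(c * |(i : ℝ)|)) :=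
    hs.tsum_pos (fun i => (Real.exp_pos _).le) 0 (Real.exp_pos _)
  refine ⟨Real.exp c * ∑' i : ℤ, Real.exp (-(c * |(i : ℝ)|)), by positivity, fun J v => ?_⟩
  have h1 : ∀ j ∈ Finset.range J, Real.exp (-(c * |v + (j : ℝ)|)) ≤
      Real.exp c * Real.exp (-(c * |((⌊v⌋ + (j : ℤ) : ℤ) : ℝ)|)) := by
    intro j _
    rw [← Real.exp_add]
    apply Real.exp_le_exp.2
    have h2 : |((⌊v⌋ + (j : ℤ) : ℤ) : ℝ)| ≤ |v + (j : ℝ)| + 1 := by
      push_cast
      have h3 : (⌊v⌋ : ℝ) + (j : ℝ) = (v + (j : ℝ)) + ((⌊v⌋ : ℝ) - v) := by ring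
      rw [h3]
      refine (abs_add_le _ _).trans ?_
      have h4 : |(⌊v⌋ : ℝ) - v| ≤ 1 := by
        rw [abs_le]
        constructor
        · linarith [Int.lt_floor_add_one v]
        · linarith [Int.floor_le v]
      linarith
    nlinarith
  refine (Finset.sum_le_sum h1).trans ?_
  rw [← Finset.mul_sum]
  apply mul_le_mul_of_nonneg_left _ (Real.exp_pos _).le
  have hinj : Function.Injective fun j : ℕ => (⌊v⌋ + (j : ℤ) : ℤ) := by
    intro a b h
    simp only at h
    omega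
  have h5 : ∑ j ∈ Finset.range J, Real.exp (-(c * |((⌊v⌋ + (j : ℤ) : ℤ) : ℝ)|)) =
      ∑ i ∈ (Finset.range J).map ⟨fun j : ℕ => (⌊v⌋ + (j : ℤ) : ℤ), hinj⟩,
        Real.exp (-(c * |(i : ℝ)|)) := by
    rw [Finset.sum_map]
    rfl
  rw [h5]
  exact hs.sum_le_tsum _ fun i _ => (Real.exp_pos _).le

theorem rough_sum {c θ : ℝ} (hc : 0 < c) (hθ : 0 < θ) (hθ1 : θ ≤ 1) :
    ∃ C : ℝ, 0 < C ∧ ∀ q : ℕ, 2 ≤ q → ∑ l ∈ RG θ q, 1 / (l : ℝ) ≤ C ∧
      ∀ v : ℝ, ∑ l ∈ RG θ q, 1 / (l : ℝ) * Real.exp (-(c * |v + Real.log l|)) ≤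
        C / Real.log q := by
  obtain ⟨C, hC, h⟩ := rough_count hθ hθ1
  obtain ⟨K, hK, hK'⟩ := kh2_bound hc
  refine ⟨C + C * Real.exp (c + 1) * K, by positivity, fun q hq => ?_⟩
  obtain ⟨ha, hb⟩ := h q hq
  have hlogq : 0 < Real.log q := Real.log_pos (by exact_mod_cast (by omega : 1 < q))
  refine ⟨ha.trans (by have : 0 ≤ C * Real.exp (c + 1) * K := by positivity
                       linarith), fun v => ?_⟩
  have hmem : ∀ l ∈ RG θ q, 2 ≤ l ∧ l ≤ q := by
    classical
    intro l hl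
    have hl' := (Finset.mem_filter.1 hl).1
    exact Finset.mem_Icc.1 hl'
  have hmaps : ∀ l ∈ RG θ q, ⌊Real.log (l : ℝ)⌋₊ ∈ Finset.range (⌊Real.log (q : ℝ)⌋₊ + 1) := by
    intro l hl
    obtain ⟨h1, h2⟩ := hmem l hl
    rw [Finset.mem_range]
    have : ⌊Real.log (l : ℝ)⌋₊ ≤ ⌊Real.log (q : ℝ)⌋₊ := by
      apply Nat.floor_le_floor
      apply Real.log_le_log
      · exact_mod_cast (by omega : 0 < l)
      · exact_mod_cast h2
    omega
  rw [← Finset.sum_fiberwise_of_maps_to hmaps]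
  have key : ∀ j ∈ Finset.range (⌊Real.log (q : ℝ)⌋₊ + 1),
      ∑ l ∈ (RG θ q).filter fun l : ℕ => ⌊Real.log (l : ℝ)⌋₊ = j,
        1 / (l : ℝ) * Real.exp (-(c * |v + Real.log l|)) ≤
      (C * Real.exp (c + 1) / Real.log q) * Real.exp (-(c * |v + (j : ℝ)|)) := by
    intro j _
    have h1 : ∀ l ∈ (RG θ q).filter fun l : ℕ => ⌊Real.log (l : ℝ)⌋₊ = j,
        1 / (l : ℝ) * Real.exp (-(c * |v + Real.log l|)) ≤
          Real.exp (-(j : ℝ)) * (Real.exp c * Real.exp (-(c * |v + (j : ℝ)|))) := by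
      intro l hl
      rw [Finset.mem_filter] at hl
      obtain ⟨hl1, hl2⟩ := hl
      obtain ⟨h2, h3⟩ := hmem l hl1
      have hlpos : (0 : ℝ) < l := by exact_mod_cast (by omega : 0 < l)
      have hloglpos : 0 ≤ Real.log (l : ℝ) := Real.log_nonneg (by exact_mod_cast (by omega : 1 ≤ l))
      have h4 : (j : ℝ) ≤ Real.log l := by
        rw [← hl2]
        exact Nat.floor_le hloglpos
      have h5 : Real.log l < (j : ℝ) + 1 := by
        rw [← hl2]
        exact Nat.lt_floor_add_one _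
      have h6 : 1 / (l : ℝ) ≤ Real.exp (-(j : ℝ)) := by
        rw [Real.exp_neg, one_div]
        apply inv_anti₀ (Real.exp_pos _)
        calc Real.exp (j : ℝ) ≤ Real.exp (Real.log l) := Real.exp_le_exp.2 h4
          _ = l := Real.exp_log hlpos
      have h7 : Real.exp (-(c * |v + Real.log l|)) ≤
          Real.exp c * Real.exp (-(c * |v + (j : ℝ)|)) := by
        rw [← Real.exp_add]
        apply Real.exp_le_exp.2
        have h8 : |v + (j : ℝ)| ≤ |v + Real.log l| + 1 := by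
          have e : v + (j : ℝ) = (v + Real.log l) + ((j : ℝ) - Real.log l) := by ring
          rw [e]
          refine (abs_add_le _ _).trans ?_
          have : |(j : ℝ) - Real.log l| ≤ 1 := by
            rw [abs_le]
            constructor <;> linarith
          linarith
        nlinarith
      exact mul_le_mul h6 h7 (Real.exp_pos _).le (Real.exp_pos _).le
    refine (Finset.sum_le_card_nsmul _ _ _ h1).trans ?_
    rw [nsmul_eq_mul]
    have hcard : (((RG θ q).filter fun l : ℕ => ⌊Real.log (l : ℝ)⌋₊ = j).card : ℝ) ≤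
        C * Real.exp ((j : ℝ) + 1) / Real.log q := by
      refine le_trans ?_ (hb (Real.exp ((j : ℝ) + 1)) (Real.one_le_exp (by positivity)))
      have hsub : ((RG θ q).filter fun l : ℕ => ⌊Real.log (l : ℝ)⌋₊ = j) ⊆
          (RG θ q).filter fun l : ℕ => (l : ℝ) ≤ Real.exp ((j : ℝ) + 1) := by
        intro l hl
        rw [Finset.mem_filter] at hl ⊢
        refine ⟨hl.1, ?_⟩
        obtain ⟨h2, h3⟩ := hmem l hl.1
        have hlpos : (0 : ℝ) < l := by exact_mod_cast (by omega : 0 < l)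
        rw [← Real.log_le_iff_le_exp hlpos, ← hl.2]
        exact (Nat.lt_floor_add_one _).le
      exact_mod_cast Finset.card_le_card hsub
    refine (mul_le_mul_of_nonneg_right hcard (by positivity)).trans (le_of_eq ?_)
    have e1 : Real.exp ((j : ℝ) + 1) * Real.exp (-(j : ℝ)) = Real.exp 1 := by
      rw [← Real.exp_add]
      congr 1
      ring
    have e2 : Real.exp (c + 1) = Real.exp c * Real.exp 1 := Real.exp_add _ _
    calc C * Real.exp ((j : ℝ) + 1) / Real.log q *
          (Real.exp (-(j : ℝ)) * (Real.exp c * Real.exp (-(c * |v + (j : ℝ)|))))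
        = C * (Real.exp ((j : ℝ) + 1) * Real.exp (-(j : ℝ))) * Real.exp c / Real.log q *
          Real.exp (-(c * |v + (j : ℝ)|)) := by ring
      _ = C * Real.exp (c + 1) / Real.log q * Real.exp (-(c * |v + (j : ℝ)|)) := by
          rw [e1, e2]; ring
  refine (Finset.sum_le_sum key).trans ?_
  rw [← Finset.mul_sum]
  have h9 : 0 ≤ C * Real.exp (c + 1) / Real.log q := by positivity
  refine (mul_le_mul_of_nonneg_left (hK' _ v) h9).trans ?_
  have e3 : C * Real.exp (c + 1) / Real.log q * K = (C * Real.exp (c + 1) * K) / Real.log q := by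
    ring
  rw [e3]
  apply div_le_div_of_nonneg_right _ hlogq.le
  linarith

end Pool.Agent.SGD
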