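import Pool.Agent.Lib_helper45.SGD.Defs
import Pool.Agent.Lib_helper45.SGDF.KB
import Pool.Agent.Lib_helper45.SGDF.KG2
import Pool.Agent.Lib_helper45.SGDF.KH2

/-!
# Block KI2 (UWI): the first integral
-/

set_option autoImplicit false

namespace Pool.Agent.SGD

open Complex MeasureTheory Filter Topology
open Pool.Agent.SQS (hat)
open Pool.Agent.ABS (LData Nice oddZ win)
open scoped ENNReal

theorem ki2_E_pos (p : Par) (v : ℝ) : 0 < p.E v := Real.exp_pos _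

theorem ki2_E_int (p : Par) (c : ℝ) :
    Integrable (fun x : ℝ => p.E (x + c)) ∧ ∫ x : ℝ, p.E (x + c) = 4 / p.κ := by
  obtain ⟨-, -, h1, h2⟩ := exp_int p
  refine ⟨h1.comp_add_right c, ?_⟩
  rw [integral_add_right_eq_self (fun x : ℝ => p.E x) c]
  exact h2

theorem ki2_w_sq {H : ℝ} (hH : 0 ≤ H) (v : ℝ) : ‖win H v‖ ^ 2 ≤ H ^ 2 :=
  pow_le_pow_left₀ (norm_nonneg _) (Pool.Agent.ABS.win_le hH v) 2

theorem ki2_Ew_int (p : Par) {H : ℝ} (hH : 0 ≤ H) (c : ℝ) :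
    Integrable (fun x : ℝ => p.E (x + c) * ‖win H x‖ ^ 2) := by
  refine (ki2_E_int p c).1.mul_bdd (c := H ^ 2) ?_ (Eventually.of_forall fun x => ?_)
  · exact ((Pool.Agent.ABS.win_continuous H).norm.pow 2).aestronglyMeasurable
  · rw [Real.norm_of_nonneg (by positivity)]
    exact ki2_w_sq hH x

/-- trivial bound -/
theorem ki2_far (p : Par) {H : ℝ} (hH : 0 ≤ H) (c : ℝ) :
    ∫ x in Set.Ioi (0 : ℝ), p.E (x + c) * ‖win H x‖ ^ 2 ≤ H ^ 2 * (4 / p.κ) := by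
  have h1 : ∫ x in Set.Ioi (0 : ℝ), p.E (x + c) * ‖win H x‖ ^ 2 ≤
      ∫ x : ℝ, p.E (x + c) * ‖win H x‖ ^ 2 :=
    setIntegral_le_integral (ki2_Ew_int p hH c)
      (Eventually.of_forall fun x => mul_nonneg (ki2_E_pos p _).le (by positivity))
  have h2 : ∫ x : ℝ, p.E (x + c) * ‖win H x‖ ^ 2 ≤ ∫ x : ℝ, H ^ 2 * p.E (x + c) := by
    refine integral_mono (ki2_Ew_int p hH c) ((ki2_E_int p c).1.const_mul _) fun x => ?_
    have := mul_le_mul_of_nonneg_left (ki2_w_sq hH x) (ki2_E_pos p (x + c)).le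
    show p.E (x + c) * ‖win H x‖ ^ 2 ≤ H ^ 2 * p.E (x + c)
    linarith
  rw [integral_const_mul, (ki2_E_int p c).2] at h2
  exact h1.trans h2

theorem ki2_w_half {H : ℝ} (hH : 0 ≤ H) :
    IntegrableOn (fun v => ‖win H v‖ ^ 2) (Set.Ioi 0) ∧
    ∫ v in Set.Ioi (0 : ℝ), ‖win H v‖ ^ 2 ≤ 2 * Real.pi * H := by
  obtain ⟨h1, h2⟩ := Pool.Agent.ABS.win_sq hH
  refine ⟨h1.integrableOn, ?_⟩
  rw [← h2]
  exact setIntegral_le_integral h1 (Eventually.of_forall fun x => by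
    show (0 : ℝ) ≤ ‖win H x‖ ^ 2
    positivity)

theorem ki2_exp_le {t : ℝ} : t * Real.exp (-t) ≤ 1 := by
  have h1 : t ≤ Real.exp t := by
    have := Real.add_one_le_exp t
    linarith
  calc t * Real.exp (-t) ≤ Real.exp t * Real.exp (-t) :=
        mul_le_mul_of_nonneg_right h1 (Real.exp_pos _).le
    _ = 1 := by rw [← Real.exp_add]; simp

/-- the bound for `log r ≤ L/4` -/
theorem ki2_near (p : Par) {L a c : ℝ} (hL : 0 < L) (ha : 1 ≤ a) (hc : c ≤ -(L / 4)) :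
    ∫ x in Set.Ioi (0 : ℝ), p.E (x + c) * ‖win (a / L) x‖ ^ 2 ≤
      (a / L) ^ 2 / a * ((1024 + 32 * Real.pi) / p.κ) := by
  have hκ := p.hκ
  have hπ := Real.pi_pos
  have ha0 : 0 < a := by linarith
  set H := a / L with hHdef
  have hH : 0 ≤ H := by positivity
  have hHL : H * L = a := by rw [hHdef]; field_simp
  have hpt : ∀ x ∈ Set.Ioi (0 : ℝ), p.E (x + c) * ‖win H x‖ ^ 2 ≤
      256 / L ^ 2 * p.E (x + c) + Real.exp (-(p.κ * L / 16)) * ‖win H x‖ ^ 2 := by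
    intro x hx
    have hx0 : 0 < x := hx
    have hE := (ki2_E_pos p (x + c)).le
    by_cases hx1 : L / 8 ≤ x
    · have h1 := Pool.Agent.ABS.win_le' H hx0.ne'
      rw [abs_of_pos hx0] at h1
      have h2 : ‖win H x‖ ^ 2 ≤ 256 / L ^ 2 := by
        calc ‖win H x‖ ^ 2 ≤ (2 / x) ^ 2 := pow_le_pow_left₀ (norm_nonneg _) h1 2
          _ ≤ (2 / (L / 8)) ^ 2 := by
              refine pow_le_pow_left₀ (by positivity) ?_ 2
              exact div_le_div_of_nonneg_left (by norm_num) (by positivity) hx1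
          _ = 256 / L ^ 2 := by field_simp; norm_num
      have h3 := mul_le_mul_of_nonneg_left h2 hE
      have h4 : 0 ≤ Real.exp (-(p.κ * L / 16)) * ‖win H x‖ ^ 2 := by positivity
      linarith
    · push Not at hx1
      have h1 : p.E (x + c) ≤ Real.exp (-(p.κ * L / 16)) := by
        unfold Par.E
        refine Real.exp_le_exp.2 ?_
        have h2 : L / 8 ≤ |x + c| := by
          rw [abs_of_neg (by linarith)]
          linarith
        have h3 := mul_le_mul_of_nonneg_left h2 (show 0 ≤ p.κ / 2 by positivity)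
        linarith
      have h2 := mul_le_mul_of_nonneg_right h1 (show 0 ≤ ‖win H x‖ ^ 2 by positivity)
      have h3 : 0 ≤ 256 / L ^ 2 * p.E (x + c) := by positivity
      linarith
  have hi1 : IntegrableOn (fun x : ℝ => 256 / L ^ 2 * p.E (x + c)) (Set.Ioi 0) :=
    ((ki2_E_int p c).1.const_mul _).integrableOn
  have hi2 : IntegrableOn (fun x : ℝ => Real.exp (-(p.κ * L / 16)) * ‖win H x‖ ^ 2)
      (Set.Ioi 0) := (ki2_w_half hH).1.const_mul _
  have h1 := setIntegral_mono_on (ki2_Ew_int p hH c).integrableOn (hi1.add hi2)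
    measurableSet_Ioi hpt
  have e1 : ∫ x in Set.Ioi (0 : ℝ), (256 / L ^ 2 * p.E (x + c) +
      Real.exp (-(p.κ * L / 16)) * ‖win H x‖ ^ 2) =
      256 / L ^ 2 * (∫ x in Set.Ioi (0 : ℝ), p.E (x + c)) +
      Real.exp (-(p.κ * L / 16)) * ∫ x in Set.Ioi (0 : ℝ), ‖win H x‖ ^ 2 := by
    rw [integral_add hi1 hi2, integral_const_mul, integral_const_mul]
  have h2 : ∫ x in Set.Ioi (0 : ℝ), p.E (x + c) ≤ 4 / p.κ := by
    rw [← (ki2_E_int p c).2]
    exact setIntegral_le_integral (ki2_E_int p c).1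
      (Eventually.of_forall fun x => (ki2_E_pos p _).le)
  have h3 := (ki2_w_half hH).2
  have h4 : L * Real.exp (-(p.κ * L / 16)) ≤ 16 / p.κ := by
    have := ki2_exp_le (t := p.κ * L / 16)
    rw [le_div_iff₀ hκ]
    linarith
  refine h1.trans ?_
  show ∫ x in Set.Ioi (0 : ℝ), (256 / L ^ 2 * p.E (x + c) +
      Real.exp (-(p.κ * L / 16)) * ‖win H x‖ ^ 2) ≤ _
  rw [e1]
  have h5 : 256 / L ^ 2 * (∫ x in Set.Ioi (0 : ℝ), p.E (x + c)) ≤
      H ^ 2 / a * (1024 / p.κ) := by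
    calc 256 / L ^ 2 * (∫ x in Set.Ioi (0 : ℝ), p.E (x + c)) ≤ 256 / L ^ 2 * (4 / p.κ) :=
          mul_le_mul_of_nonneg_left h2 (by positivity)
      _ = (H ^ 2 / a * (1024 / p.κ)) * (1 / a) := by rw [hHdef]; field_simp; norm_num
      _ ≤ (H ^ 2 / a * (1024 / p.κ)) * 1 := by
          refine mul_le_mul_of_nonneg_left ?_ (by positivity)
          rw [div_le_one ha0]; exact ha
      _ = _ := mul_one _
  have h6 : Real.exp (-(p.κ * L / 16)) * ∫ x in Set.Ioi (0 : ℝ), ‖win H x‖ ^ 2 ≤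
      H ^ 2 / a * (32 * Real.pi / p.κ) := by
    calc Real.exp (-(p.κ * L / 16)) * ∫ x in Set.Ioi (0 : ℝ), ‖win H x‖ ^ 2
        ≤ Real.exp (-(p.κ * L / 16)) * (2 * Real.pi * H) :=
          mul_le_mul_of_nonneg_left h3 (Real.exp_pos _).le
      _ = H ^ 2 / a * (2 * Real.pi) * (L * Real.exp (-(p.κ * L / 16))) := by
          rw [← hHL]
          have hH0 : 0 < H := by rw [hHdef]; positivity
          field_simp
      _ ≤ H ^ 2 / a * (2 * Real.pi) * (16 / p.κ) :=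
          mul_le_mul_of_nonneg_left h4 (by positivity)
      _ = _ := by ring
  have e2 : H ^ 2 / a * ((1024 + 32 * Real.pi) / p.κ) =
      H ^ 2 / a * (1024 / p.κ) + H ^ 2 / a * (32 * Real.pi / p.κ) := by ring
  rw [e2]
  exact add_le_add h5 h6

/-- the bound for one `r` -/
theorem ki2_r (p : Par) {θ L a r : ℝ} (hθ : 0 < θ) (hL : 0 < L) (ha : 1 ≤ a) (hr : 0 < r) :
    ∫ x in Set.Ioi (0 : ℝ), p.E (x + (Real.log r - L / 2)) * ‖win (a / L) x‖ ^ 2 ≤
      (a / L) ^ 2 * (4 / p.κ) * Real.exp (-(p.c₀ / (2 * θ))) * r ^ (2 * p.c₀ / (θ * L)) +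
      (a / L) ^ 2 / a * ((1024 + 32 * Real.pi) / p.κ) := by
  have hκ := p.hκ
  have hc := p.hc₀
  have hπ := Real.pi_pos
  have ha0 : 0 < a := by linarith
  by_cases h : Real.log r ≤ L / 4
  · have h1 := ki2_near p hL ha (c := Real.log r - L / 2) (by linarith)
    have h2 : 0 ≤ (a / L) ^ 2 * (4 / p.κ) * Real.exp (-(p.c₀ / (2 * θ))) *
        r ^ (2 * p.c₀ / (θ * L)) := by positivity
    linarith
  · push Not at h
    have h1 := ki2_far p (H := a / L) (by positivity) (Real.log r - L / 2)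
    have h2 : 0 ≤ (a / L) ^ 2 / a * ((1024 + 32 * Real.pi) / p.κ) := by positivity
    have h3 : 1 ≤ Real.exp (-(p.c₀ / (2 * θ))) * r ^ (2 * p.c₀ / (θ * L)) := by
      rw [Real.rpow_def_of_pos hr, ← Real.exp_add]
      apply Real.one_le_exp
      have e : Real.log r * (2 * p.c₀ / (θ * L)) = (Real.log r / L) * (2 * p.c₀ / θ) := by
        field_simp
      have e2 : p.c₀ / (2 * θ) = 1 / 4 * (2 * p.c₀ / θ) := by
        field_simp; norm_num
      have h4 : 1 / 4 ≤ Real.log r / L := by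
        rw [le_div_iff₀ hL]; linarith
      have h5 := mul_le_mul_of_nonneg_right h4 (show 0 ≤ 2 * p.c₀ / θ by positivity)
      rw [e, e2]
      linarith
    have h4 := mul_le_mul_of_nonneg_left h3 (show 0 ≤ (a / L) ^ 2 * (4 / p.κ) by positivity)
    have e3 : (a / L) ^ 2 * (4 / p.κ) * (Real.exp (-(p.c₀ / (2 * θ))) *
        r ^ (2 * p.c₀ / (θ * L))) = (a / L) ^ 2 * (4 / p.κ) * Real.exp (-(p.c₀ / (2 * θ))) *
        r ^ (2 * p.c₀ / (θ * L)) := by ring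
    rw [e3] at h4
    linarith

/-- pointwise bound of the quadratic form -/
theorem ki2_AE (p : Par) {θ Cρ C₀ CR : ℝ} {q : ℕ} (hL : 0 < Real.log q) (hCρ : 0 ≤ Cρ)
    (hCR : 0 ≤ CR) {Q : Finset ℝ} {W : ℝ → ℝ} (hQ : ∀ r ∈ Q, 0 < r) (hW : ∀ r ∈ Q, 0 ≤ W r)
    (hWs : ∑ r ∈ Q, W r ≤ C₀)
    (hR : ∀ v : ℝ, ∑ l ∈ RG θ q, 1 / (l : ℝ) * Real.exp (-(p.κ / 2 * |v + Real.log l|)) ≤
      CR / Real.log q) (x : ℝ) :
    AE p θ q Cρ Q Q W x ≤
      ∑ r ∈ Q, W r * p.E (x + (Real.log r - Real.log q / 2)) +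
        Cρ * (C₀ * CR) / Real.log q := by
  unfold AE
  refine add_le_add ?_ ?_
  · refine Finset.sum_le_sum fun r _ => ?_
    have e : x + Real.log r - Real.log q / 2 = x + (Real.log r - Real.log q / 2) := by ring
    rw [e, mul_comm]
  · have e1 : ∑ l ∈ RG θ q, 1 / (l : ℝ) *
        ∑ r ∈ Q, p.E (x + Real.log (l * r) - Real.log q / 2) * W r =
        ∑ r ∈ Q, W r * ∑ l ∈ RG θ q, 1 / (l : ℝ) *
          Real.exp (-(p.κ / 2 * |(x + Real.log r - Real.log q / 2) + Real.log l|)) := by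
      simp only [Finset.mul_sum]
      rw [Finset.sum_comm]
      refine Finset.sum_congr rfl fun r hr => Finset.sum_congr rfl fun l hl => ?_
      have hl2 : 2 ≤ l := by
        classical
        simp only [RG, Finset.mem_filter, Finset.mem_Icc] at hl
        exact hl.1.1
      have hl0 : (l : ℝ) ≠ 0 := by
        have : (0 : ℝ) < l := by exact_mod_cast (by omega : 0 < l)
        exact this.ne'
      rw [Real.log_mul hl0 (hQ r hr).ne']
      unfold Par.E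
      have e : x + (Real.log l + Real.log r) - Real.log q / 2 =
          x + Real.log r - Real.log q / 2 + Real.log l := by ring
      rw [e]
      ring
    rw [e1]
    have h1 : ∑ r ∈ Q, W r * ∑ l ∈ RG θ q, 1 / (l : ℝ) *
          Real.exp (-(p.κ / 2 * |(x + Real.log r - Real.log q / 2) + Real.log l|)) ≤
        ∑ r ∈ Q, W r * (CR / Real.log q) :=
      Finset.sum_le_sum fun r hr => mul_le_mul_of_nonneg_left (hR _) (hW r hr)
    rw [← Finset.sum_mul] at h1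
    have h2 : (∑ r ∈ Q, W r) * (CR / Real.log q) ≤ C₀ * (CR / Real.log q) :=
      mul_le_mul_of_nonneg_right hWs (by positivity)
    have h3 := mul_le_mul_of_nonneg_left (h1.trans h2) hCρ
    have e2 : Cρ * (C₀ * (CR / Real.log q)) = Cρ * (C₀ * CR) / Real.log q := by ring
    rw [← e2]
    exact h3

theorem U_win (p : Par) : ∃ C : ℝ, 0 < C ∧ ∀ {θ Cρ : ℝ}, 0 < θ → θ ≤ 1 → 0 ≤ Cρ →
    ∃ C' : ℝ, 0 < C' ∧ ∀ a : ℝ, 1 ≤ a → ∃ q₀ : ℕ, ∀ q : ℕ, q₀ ≤ q → ∀ {dV Φ : ℝ}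
    {ι : Type} {s : Finset ι} {om : ι → ℝ} {lam al : ι → ℕ → ℂ} {S : Finset ℕ}
    {QG QH : Finset ℝ} {W V : ℝ → ℝ} {g : ι → ℝ → ℂ} {X : ι → LData},
    DFam p θ Cρ dV q Φ s om lam al S QG QH W V →
    (∀ i ∈ s, Mem p q S (lam i) (al i) (g i) (X i)) →
    ∑ i ∈ s, om i * (∫ v in Set.Ioi 0, ‖(X i).fd S (bb (al i)) ll v‖ ^ 2 *
        ‖win (a / Real.log q) v‖ ^ 2) ≤
      Φ * (a / Real.log q) ^ 2 * (C * Real.exp (-(p.c₀ / (2 * θ))) + C' / a) := by
  have hκ := p.hκ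
  have hc := p.hc₀
  have hδ := p.hδ
  have hC₂ := p.hC₂
  have hπ := Real.pi_pos
  obtain ⟨Cm, qm, hCm, hm⟩ := mean_sq p
  refine ⟨Cm * ((4 / p.κ) * p.C₂) + 1, by positivity, ?_⟩
  intro θ Cρ hθ hθ1 hCρ
  obtain ⟨CR, hCR, hR⟩ := rough_sum (c := p.κ / 2) (by positivity) hθ hθ1
  set K : ℝ := (1024 + 32 * Real.pi) / p.κ with hK
  have hK0 : 0 ≤ K := by positivity
  refine ⟨Cm * (K * p.C₂ + 2 * Real.pi * (Cρ * (p.C₂ * CR)) + 2 * Real.pi / p.δ) + 1,
    by positivity, fun a ha => ⟨max qm 2, ?_⟩⟩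
  intro q hq dV Φ ι s om lam al S QG QH W V g X HF HM
  have ha0 : 0 < a := by linarith
  have hqm : qm ≤ q := (le_max_left _ _).trans hq
  have hq2 : 2 ≤ q := (le_max_right _ _).trans hq
  have hq1 : (1 : ℝ) < q := by exact_mod_cast (by omega : 1 < q)
  have hq0 : (0 : ℝ) < q := by linarith
  have hL : 0 < Real.log q := Real.log_pos hq1
  set L := Real.log q with hLdef
  set H := a / L with hHdef
  have hH0 : 0 < H := by positivity
  have hΦ : 0 ≤ Φ := (Finset.sum_nonneg HF.om_nonneg).trans HF.om_sum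
  obtain ⟨m1, -, -, -⟩ := hm q hqm (W := W) (V := V) (QG := QG) (QH := QH) hCρ HF HM
  have hAE := fun x : ℝ => ki2_AE p (θ := θ) (Cρ := Cρ) (C₀ := p.C₂) (CR := CR) (q := q) hL hCρ
    hCR.le HF.QG_pos HF.W_nonneg HF.W_sum (hR q hq2).2 x
  -- the sum of the integrals
  have hnice : ∀ i : ι, Nice ((X i).fd S (bb (al i)) ll) := fun i =>
    (X i).fd_nice S (bb (al i)) ll
  have hint : ∀ i : ι, Integrable (fun v : ℝ => ‖(X i).fd S (bb (al i)) ll v‖ ^ 2 *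
      ‖win H v‖ ^ 2) := by
    intro i
    have h := ((hnice i).mul_win hH0.le).sq
    have e : (fun u : ℝ => ‖(X i).fd S (bb (al i)) ll u * win H u‖ ^ 2) =
        fun v : ℝ => ‖(X i).fd S (bb (al i)) ll v‖ ^ 2 * ‖win H v‖ ^ 2 := by
      funext u
      rw [norm_mul, mul_pow]
    rw [e] at h
    exact h
  have e1 : ∑ i ∈ s, om i * (∫ v in Set.Ioi 0, ‖(X i).fd S (bb (al i)) ll v‖ ^ 2 *
      ‖win H v‖ ^ 2) = ∫ v in Set.Ioi (0 : ℝ), ∑ i ∈ s, om i *
        (‖(X i).fd S (bb (al i)) ll v‖ ^ 2 * ‖win H v‖ ^ 2) := by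
    rw [integral_finsetSum _ (fun i _ => ((hint i).const_mul (om i)).integrableOn)]
    refine Finset.sum_congr rfl fun i _ => ?_
    rw [integral_const_mul]
  rw [e1]
  set D : ℝ := Cρ * (p.C₂ * CR) / L + (q : ℝ) ^ (-p.δ) with hD
  have hD0 : 0 ≤ D := by positivity
  have hpt : ∀ v ∈ Set.Ioi (0 : ℝ), ∑ i ∈ s, om i *
      (‖(X i).fd S (bb (al i)) ll v‖ ^ 2 * ‖win H v‖ ^ 2) ≤
      Cm * Φ * (∑ r ∈ QG, W r * (p.E (v + (Real.log r - L / 2)) * ‖win H v‖ ^ 2) +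
        D * ‖win H v‖ ^ 2) := by
    intro v hv
    have h1 := m1 v (le_of_lt hv)
    have h2 : ∑ i ∈ s, om i * ‖(X i).fd S (bb (al i)) ll v‖ ^ 2 ≤
        Cm * Φ * (∑ r ∈ QG, W r * p.E (v + (Real.log r - L / 2)) + D) := by
      refine h1.trans (mul_le_mul_of_nonneg_left ?_ (by positivity))
      have := hAE v
      rw [hD]
      linarith
    have h3 := mul_le_mul_of_nonneg_right h2 (show 0 ≤ ‖win H v‖ ^ 2 by positivity)
    have e2 : ∑ i ∈ s, om i * (‖(X i).fd S (bb (al i)) ll v‖ ^ 2 * ‖win H v‖ ^ 2) =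
        (∑ i ∈ s, om i * ‖(X i).fd S (bb (al i)) ll v‖ ^ 2) * ‖win H v‖ ^ 2 := by
      rw [Finset.sum_mul]
      exact Finset.sum_congr rfl fun i _ => by ring
    have e3 : Cm * Φ * (∑ r ∈ QG, W r * p.E (v + (Real.log r - L / 2)) + D) * ‖win H v‖ ^ 2 =
        Cm * Φ * (∑ r ∈ QG, W r * (p.E (v + (Real.log r - L / 2)) * ‖win H v‖ ^ 2) +
        D * ‖win H v‖ ^ 2) := by
      have e4 : ∑ r ∈ QG, W r * (p.E (v + (Real.log r - L / 2)) * ‖win H v‖ ^ 2) =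
          (∑ r ∈ QG, W r * p.E (v + (Real.log r - L / 2))) * ‖win H v‖ ^ 2 := by
        rw [Finset.sum_mul]
        exact Finset.sum_congr rfl fun r _ => by ring
      rw [e4]
      ring
    rw [e2, ← e3]
    exact h3
  have hi1 : IntegrableOn (fun v : ℝ => ∑ i ∈ s, om i *
      (‖(X i).fd S (bb (al i)) ll v‖ ^ 2 * ‖win H v‖ ^ 2)) (Set.Ioi 0) :=
    (integrable_finsetSum _ fun i _ => (hint i).const_mul (om i)).integrableOn
  have hi2 : IntegrableOn (fun v : ℝ => ∑ r ∈ QG,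
      W r * (p.E (v + (Real.log r - L / 2)) * ‖win H v‖ ^ 2)) (Set.Ioi 0) :=
    (integrable_finsetSum _ fun r _ =>
      (ki2_Ew_int p hH0.le (Real.log r - L / 2)).const_mul (W r)).integrableOn
  have hi3 : IntegrableOn (fun v : ℝ => D * ‖win H v‖ ^ 2) (Set.Ioi 0) :=
    (ki2_w_half hH0.le).1.const_mul _
  have h1 := setIntegral_mono_on hi1 ((hi2.add hi3).const_mul (Cm * Φ)) measurableSet_Ioi hpt
  refine h1.trans ?_
  have e5 : ∫ v in Set.Ioi (0 : ℝ), Cm * Φ * (∑ r ∈ QG,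
      W r * (p.E (v + (Real.log r - L / 2)) * ‖win H v‖ ^ 2) + D * ‖win H v‖ ^ 2) =
      Cm * Φ * (∑ r ∈ QG, W r * (∫ v in Set.Ioi (0 : ℝ),
        p.E (v + (Real.log r - L / 2)) * ‖win H v‖ ^ 2) +
        D * ∫ v in Set.Ioi (0 : ℝ), ‖win H v‖ ^ 2) := by
    rw [integral_const_mul, integral_add hi2 hi3, integral_const_mul,
      integral_finsetSum _ (fun r _ =>
        ((ki2_Ew_int p hH0.le (Real.log r - L / 2)).const_mul (W r)).integrableOn)]
    congr 3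
    funext r
    rw [integral_const_mul]
  show ∫ v in Set.Ioi (0 : ℝ), Cm * Φ * (∑ r ∈ QG,
      W r * (p.E (v + (Real.log r - L / 2)) * ‖win H v‖ ^ 2) + D * ‖win H v‖ ^ 2) ≤ _
  rw [e5]
  -- the main sum
  have hmain : ∑ r ∈ QG, W r * (∫ v in Set.Ioi (0 : ℝ),
      p.E (v + (Real.log r - L / 2)) * ‖win H v‖ ^ 2) ≤
      H ^ 2 * (4 / p.κ) * Real.exp (-(p.c₀ / (2 * θ))) * p.C₂ + H ^ 2 / a * K * p.C₂ := by
    have h2 : ∑ r ∈ QG, W r * (∫ v in Set.Ioi (0 : ℝ),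
        p.E (v + (Real.log r - L / 2)) * ‖win H v‖ ^ 2) ≤
        ∑ r ∈ QG, (H ^ 2 * (4 / p.κ) * Real.exp (-(p.c₀ / (2 * θ))) *
          (r ^ (2 * p.c₀ / (θ * L)) * W r) + H ^ 2 / a * K * W r) := by
      refine Finset.sum_le_sum fun r hr => ?_
      have h3 := mul_le_mul_of_nonneg_left (ki2_r p hθ hL ha (HF.QG_pos r hr))
        (HF.W_nonneg r hr)
      refine h3.trans (le_of_eq ?_)
      rw [hK]
      ring
    rw [Finset.sum_add_distrib, ← Finset.mul_sum, ← Finset.mul_sum] at h2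
    refine h2.trans (add_le_add ?_ ?_)
    · exact mul_le_mul_of_nonneg_left HF.W_tilt (by positivity)
    · exact mul_le_mul_of_nonneg_left HF.W_sum (by positivity)
  have hDL : D * L ≤ Cρ * (p.C₂ * CR) + 1 / p.δ := by
    rw [hD, add_mul, div_mul_cancel₀ _ hL.ne']
    have h2 : (q : ℝ) ^ (-p.δ) * L ≤ 1 / p.δ := by
      rw [Real.rpow_def_of_pos hq0, le_div_iff₀ hδ]
      have h3 := ki2_exp_le (t := p.δ * L)
      have e6 : Real.log q * -p.δ = -(p.δ * L) := by rw [← hLdef]; ring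
      rw [e6]
      linarith
    linarith
  have hw : D * ∫ v in Set.Ioi (0 : ℝ), ‖win H v‖ ^ 2 ≤
      H ^ 2 / a * (2 * Real.pi * (Cρ * (p.C₂ * CR)) + 2 * Real.pi / p.δ) := by
    calc D * ∫ v in Set.Ioi (0 : ℝ), ‖win H v‖ ^ 2 ≤ D * (2 * Real.pi * H) :=
          mul_le_mul_of_nonneg_left (ki2_w_half hH0.le).2 hD0
      _ = H ^ 2 / a * (2 * Real.pi) * (D * L) := by
          rw [hHdef]; field_simp
      _ ≤ H ^ 2 / a * (2 * Real.pi) * (Cρ * (p.C₂ * CR) + 1 / p.δ) :=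
          mul_le_mul_of_nonneg_left hDL (by positivity)
      _ = _ := by ring
  have h2 := mul_le_mul_of_nonneg_left (add_le_add hmain hw) (show 0 ≤ Cm * Φ by positivity)
  refine h2.trans ?_
  have h3 : 0 ≤ Φ * H ^ 2 * (Real.exp (-(p.c₀ / (2 * θ))) + 1 / a) := by positivity
  have e7 : Φ * H ^ 2 * ((Cm * (4 / p.κ * p.C₂) + 1) * Real.exp (-(p.c₀ / (2 * θ))) +
      (Cm * (K * p.C₂ + 2 * Real.pi * (Cρ * (p.C₂ * CR)) + 2 * Real.pi / p.δ) + 1) / a) =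
      Cm * Φ * (H ^ 2 * (4 / p.κ) * Real.exp (-(p.c₀ / (2 * θ))) * p.C₂ +
        H ^ 2 / a * K * p.C₂ +
        H ^ 2 / a * (2 * Real.pi * (Cρ * (p.C₂ * CR)) + 2 * Real.pi / p.δ)) +
      Φ * H ^ 2 * (Real.exp (-(p.c₀ / (2 * θ))) + 1 / a) := by
    field_simp
    ring
  rw [e7]
  linarith

end Pool.Agent.SGD
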