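import Pool.Agent.Lib_helper45.SGD.Defs
import Pool.Agent.Lib_helper45.SGDF.KB
import Pool.Agent.Lib_helper45.SGDF.KG2
import Pool.Agent.Lib_helper45.SGDF.KH2

/-!
# SGN part D, core: block KI1
-/

set_option autoImplicit false

namespace Pool.Agent.SGD

open Complex MeasureTheory Filter Topology
open Pool.Agent.SQS (hat)
open Pool.Agent.ABS (LData Nice oddZ win)
open scoped ENNReal

theorem ki1_tail {L K : ℝ} : IntegrableOn (fun x : ℝ => K * Real.exp (-(x - L))) (Set.Ioi L) ∧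
    ∫ x in Set.Ioi L, K * Real.exp (-(x - L)) = K := by
  have h1 : (fun x : ℝ => K * Real.exp (-(x - L))) =
      fun x : ℝ => K * Real.exp L * Real.exp (-1 * x) := by
    funext x
    rw [mul_assoc, ← Real.exp_add]
    congr 2
    ring
  rw [h1]
  refine ⟨(exp_neg_integrableOn_Ioi L one_pos).const_mul _, ?_⟩
  rw [integral_const_mul]
  have h2 : ∫ x in Set.Ioi L, Real.exp (-1 * x) = Real.exp (-L) := by
    have := integral_exp_mul_Ioi (a := -1) (by norm_num) L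
    rw [this]
    ring_nf
  rw [h2, mul_assoc, ← Real.exp_add]
  simp

/-- the rough part of `AE` -/
theorem ki1_rough (p : Par) {θ : ℝ} {q : ℕ} {C₀ : ℝ} (hq : 2 ≤ q)
    (hC : ∀ v : ℝ, ∑ l ∈ RG θ q, 1 / (l : ℝ) * Real.exp (-(p.κ / 2 * |v + Real.log l|)) ≤
      C₀ / Real.log q) (Q : Finset ℝ) (W : ℝ → ℝ) (hQ : ∀ r ∈ Q, 0 < r) (hW : ∀ r ∈ Q, 0 ≤ W r)
    (x : ℝ) : ∑ l ∈ RG θ q, 1 / (l : ℝ) *
      ∑ r ∈ Q, p.E (x + Real.log (l * r) - Real.log q / 2) * W r ≤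
      C₀ / Real.log q * ∑ r ∈ Q, W r := by
  have h1 : ∑ l ∈ RG θ q, 1 / (l : ℝ) *
      ∑ r ∈ Q, p.E (x + Real.log (l * r) - Real.log q / 2) * W r =
      ∑ r ∈ Q, W r * ∑ l ∈ RG θ q, 1 / (l : ℝ) *
        Real.exp (-(p.κ / 2 * |(x + Real.log r - Real.log q / 2) + Real.log l|)) := by
    simp only [Finset.mul_sum]
    rw [Finset.sum_comm]
    refine Finset.sum_congr rfl fun r hr => Finset.sum_congr rfl fun l hl => ?_
    have hl0 : (l : ℝ) ≠ 0 := by
      have : 2 ≤ l := by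
        classical
        unfold RG at hl
        exact (Finset.mem_Icc.1 (Finset.filter_subset _ _ hl)).1
      exact_mod_cast (by omega : l ≠ 0)
    unfold Par.E
    rw [Real.log_mul hl0 (hQ r hr).ne']
    have : x + (Real.log l + Real.log r) - Real.log q / 2 =
        x + Real.log r - Real.log q / 2 + Real.log l := by ring
    rw [this]
    ring
  rw [h1, Finset.mul_sum]
  refine Finset.sum_le_sum fun r hr => ?_
  rw [mul_comm]
  exact mul_le_mul_of_nonneg_right (hC _) (hW r hr)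

theorem U_energy (p : Par) {θ Cρ : ℝ} (hθ : 0 < θ) (hθ1 : θ ≤ 1) (hCρ : 0 ≤ Cρ) :
    ∃ (C' : ℝ) (q₀ : ℕ), 0 < C' ∧ ∀ q : ℕ, q₀ ≤ q → ∀ {dV Φ : ℝ}
    {ι : Type} {s : Finset ι} {om : ι → ℝ} {lam al : ι → ℕ → ℂ} {S : Finset ℕ}
    {QG QH : Finset ℝ} {W V : ℝ → ℝ} {g : ι → ℝ → ℂ} {X : ι → LData},
    DFam p θ Cρ dV q Φ s om lam al S QG QH W V →
    (∀ i ∈ s, Mem p q S (lam i) (al i) (g i) (X i)) →
    ∑ i ∈ s, om i * ∫ v in Set.Ioi 0, ‖(X i).fd S (bb (al i)) ll v‖ ^ 2 ≤ C' * Φ := by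
  obtain ⟨C, q₀, hC, hms⟩ := mean_sq p
  have hκ := p.hκ
  obtain ⟨C₀, hC₀, hrs⟩ := rough_sum (c := p.κ / 2) (by linarith) hθ hθ1
  have hC₂ := p.hC₂
  have hδ := p.hδ
  refine ⟨C * (4 / p.κ * p.C₂ + Cρ * (C₀ * p.C₂) + 1 / p.δ) + 1, max q₀ 2, by positivity, ?_⟩
  intro q hq dV Φ ι s om lam al S QG QH W V g X hD hM
  have hq2 : 2 ≤ q := (le_max_right _ _).trans hq
  have hq0 : (0 : ℝ) < q := by exact_mod_cast (by omega : 0 < q)
  have hq1 : (1 : ℝ) ≤ q := by exact_mod_cast (by omega : 1 ≤ q)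
  set L : ℝ := Real.log q with hL
  have hL0 : 0 < L := Real.log_pos (by exact_mod_cast (by omega : 1 < q))
  obtain ⟨m1, -, m3, -⟩ := hms q ((le_max_left _ _).trans hq) hCρ hD hM
  have hΦ : 0 ≤ Φ := (Finset.sum_nonneg hD.om_nonneg).trans hD.om_sum
  have hint : ∀ i ∈ s, Integrable (fun v => om i * ‖(X i).fd S (bb (al i)) ll v‖ ^ 2) :=
    fun i _ => ((X i).fd_nice S (bb (al i)) ll).sq.const_mul _
  have hG : Integrable (fun v => ∑ i ∈ s, om i * ‖(X i).fd S (bb (al i)) ll v‖ ^ 2) :=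
    integrable_finsetSum _ hint
  have e1 : ∑ i ∈ s, om i * ∫ v in Set.Ioi 0, ‖(X i).fd S (bb (al i)) ll v‖ ^ 2 =
      ∫ v in Set.Ioi 0, ∑ i ∈ s, om i * ‖(X i).fd S (bb (al i)) ll v‖ ^ 2 := by
    rw [integral_finsetSum _ fun i hi => (hint i hi).integrableOn]
    refine Finset.sum_congr rfl fun i _ => ?_
    rw [integral_const_mul]
  rw [e1, ← Set.Ioc_union_Ioi_eq_Ioi hL0.le, setIntegral_union (Set.Ioc_disjoint_Ioi le_rfl)
    measurableSet_Ioi hG.integrableOn hG.integrableOn]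
  have t1 : ∫ v in Set.Ioi L, ∑ i ∈ s, om i * ‖(X i).fd S (bb (al i)) ll v‖ ^ 2 ≤ Φ := by
    obtain ⟨k1, k2⟩ := ki1_tail (L := L) (K := Φ / q)
    refine (setIntegral_mono_on hG.integrableOn k1 measurableSet_Ioi fun v hv => ?_).trans ?_
    · exact m3 v (le_of_lt hv)
    · rw [k2]
      exact div_le_self hΦ hq1
  have hEi : ∀ r : ℝ, Integrable (fun x : ℝ => p.E (x + Real.log r - L / 2)) ∧
      ∫ x : ℝ, p.E (x + Real.log r - L / 2) = 4 / p.κ := by
    intro r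
    obtain ⟨-, -, k3, k4⟩ := exp_int p
    have e : (fun x : ℝ => p.E (x + Real.log r - L / 2)) =
        fun x : ℝ => p.E (x + (Real.log r - L / 2)) := by
      funext x
      congr 1
      ring
    rw [e]
    exact ⟨k3.comp_add_right _, by rw [integral_add_right_eq_self (fun x => p.E x), k4]⟩
  have hA1 : Integrable (fun x : ℝ => ∑ r ∈ QG, p.E (x + Real.log r - L / 2) * W r) :=
    integrable_finsetSum _ fun r _ => (hEi r).1.mul_const _
  have hA2 : ∫ x in Set.Ioc 0 L, ∑ r ∈ QG, p.E (x + Real.log r - L / 2) * W r ≤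
      4 / p.κ * p.C₂ := by
    have hnn : 0 ≤ᵐ[volume] fun x : ℝ => ∑ r ∈ QG, p.E (x + Real.log r - L / 2) * W r :=
      Eventually.of_forall fun x => Finset.sum_nonneg fun r hr =>
        mul_nonneg (Real.exp_pos _).le (hD.W_nonneg r hr)
    refine (setIntegral_le_integral hA1 hnn).trans ?_
    rw [integral_finsetSum _ fun r _ => (hEi r).1.mul_const _]
    have : ∀ r ∈ QG, ∫ x : ℝ, p.E (x + Real.log r - L / 2) * W r = 4 / p.κ * W r := by
      intro r _
      rw [integral_mul_const, (hEi r).2]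
    rw [Finset.sum_congr rfl this, ← Finset.mul_sum]
    exact mul_le_mul_of_nonneg_left hD.W_sum (by positivity)
  have hlog : L * (q : ℝ) ^ (-p.δ) ≤ 1 / p.δ := by
    have h1 := Real.log_le_rpow_div hq0.le hδ
    rw [← hL] at h1
    have h2 : 0 < (q : ℝ) ^ (-p.δ) := Real.rpow_pos_of_pos hq0 _
    calc L * (q : ℝ) ^ (-p.δ) ≤ (q : ℝ) ^ p.δ / p.δ * (q : ℝ) ^ (-p.δ) :=
          mul_le_mul_of_nonneg_right h1 h2.le
      _ = (q : ℝ) ^ p.δ * (q : ℝ) ^ (-p.δ) / p.δ := by ring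
      _ = 1 / p.δ := by rw [← Real.rpow_add hq0, add_neg_cancel, Real.rpow_zero]
  have t2 : ∫ v in Set.Ioc 0 L, ∑ i ∈ s, om i * ‖(X i).fd S (bb (al i)) ll v‖ ^ 2 ≤
      C * (4 / p.κ * p.C₂ + Cρ * (C₀ * p.C₂) + 1 / p.δ) * Φ := by
    set K : ℝ := Cρ * (C₀ / L * p.C₂) + (q : ℝ) ^ (-p.δ) with hK
    have hb : IntegrableOn (fun x : ℝ => C * Φ *
        ((∑ r ∈ QG, p.E (x + Real.log r - L / 2) * W r) + K)) (Set.Ioc 0 L) :=
      ((hA1.integrableOn).add (integrableOn_const (by simp))).const_mul _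
    refine (setIntegral_mono_on hG.integrableOn hb measurableSet_Ioc fun v hv => ?_).trans ?_
    · refine (m1 v hv.1.le).trans ?_
      refine mul_le_mul_of_nonneg_left ?_ (by positivity)
      unfold AE
      rw [hK, ← hL]
      have h1 := ki1_rough p hq2 ((hrs q hq2).2) QG W hD.QG_pos hD.W_nonneg v
      have h2 : C₀ / Real.log q * ∑ r ∈ QG, W r ≤ C₀ / L * p.C₂ :=
        mul_le_mul_of_nonneg_left hD.W_sum (by positivity)
      have h3 := mul_le_mul_of_nonneg_left (h1.trans h2) hCρ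
      rw [← hL] at h3
      linarith
    · rw [integral_const_mul, integral_add hA1.integrableOn (integrableOn_const (by simp)),
        setIntegral_const]
      have hv : (volume : Measure ℝ).real (Set.Ioc 0 L) = L := by
        rw [Measure.real, Real.volume_Ioc, sub_zero, ENNReal.toReal_ofReal hL0.le]
      rw [hv, smul_eq_mul]
      have h4 : L * K ≤ Cρ * (C₀ * p.C₂) + 1 / p.δ := by
        rw [hK, mul_add]
        have : L * (Cρ * (C₀ / L * p.C₂)) = Cρ * (C₀ * p.C₂) := by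
          field_simp
        rw [this]
        linarith
      calc C * Φ * ((∫ x in Set.Ioc 0 L, ∑ r ∈ QG, p.E (x + Real.log r - L / 2) * W r) + L * K)
          ≤ C * Φ * (4 / p.κ * p.C₂ + (Cρ * (C₀ * p.C₂) + 1 / p.δ)) := by
            refine mul_le_mul_of_nonneg_left (add_le_add hA2 h4) (by positivity)
        _ = _ := by ring
  calc _ ≤ C * (4 / p.κ * p.C₂ + Cρ * (C₀ * p.C₂) + 1 / p.δ) * Φ + Φ := add_le_add t2 t1
    _ = _ := by ring


end Pool.Agent.SGD
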