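import Pool.Agent.Lib_helper45.SGD.Defs
import Pool.Agent.Lib_helper45.SGDF.KA
import Pool.Agent.Lib_helper45.SGDF.KI1

/-!
# SGD, block KJ1: the second integral, far part
-/

set_option autoImplicit false

namespace Pool.Agent.SGD

open Complex MeasureTheory Filter Topology
open Pool.Agent.SQS (hat)
open Pool.Agent.ABS (LData Nice oddZ win)
open scoped ENNReal

/-- the far part for one piece -/
theorem kj1_one {D g : ℝ → ℂ} (hD : Nice D) (hg : Nice g) {L : ℝ} (hL : 0 < L) {H : ℝ} :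
    ∫ v in Set.Iio (-(L / 4)), ‖D v - g v‖ ^ 2 * ‖win H v‖ ^ 2 ≤
      64 / L ^ 2 * (2 * (∫ v, ‖D v‖ ^ 2) + 2 * ∫ v, ‖g v‖ ^ 2) := by
  have hsub : Nice (fun v => D v - g v) := hD.sub hg
  have hsq := hsub.sq
  have h1 : ∫ v in Set.Iio (-(L / 4)), ‖D v - g v‖ ^ 2 * ‖win H v‖ ^ 2 ≤
      ∫ v in Set.Iio (-(L / 4)), 64 / L ^ 2 * ‖D v - g v‖ ^ 2 := by
    refine integral_mono_of_nonneg (Eventually.of_forall fun v => by positivity)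
      (hsq.const_mul _).integrableOn ?_
    refine (ae_restrict_iff' measurableSet_Iio).2 (Eventually.of_forall fun v hv => ?_)
    have hv' : v < -(L / 4) := hv
    have hv0 : v ≠ 0 := by
      rintro rfl
      linarith
    have habs : L / 4 ≤ |v| := by
      rw [abs_of_neg (by linarith)]
      linarith
    have h2 : ‖win H v‖ ≤ 8 / L := by
      refine (Pool.Agent.ABS.win_le' H hv0).trans ?_
      calc 2 / |v| ≤ 2 / (L / 4) := by gcongr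
        _ = 8 / L := by field_simp; norm_num
    have h3 : ‖win H v‖ ^ 2 ≤ 64 / L ^ 2 := by
      calc ‖win H v‖ ^ 2 ≤ (8 / L) ^ 2 := by gcongr
        _ = 64 / L ^ 2 := by rw [div_pow]; norm_num
    calc ‖D v - g v‖ ^ 2 * ‖win H v‖ ^ 2 ≤ ‖D v - g v‖ ^ 2 * (64 / L ^ 2) := by gcongr
      _ = 64 / L ^ 2 * ‖D v - g v‖ ^ 2 := by ring
  have h2 : ∫ v in Set.Iio (-(L / 4)), 64 / L ^ 2 * ‖D v - g v‖ ^ 2 ≤
      ∫ v, 64 / L ^ 2 * ‖D v - g v‖ ^ 2 :=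
    setIntegral_le_integral (hsq.const_mul _) (Eventually.of_forall fun v => by positivity)
  have h3 : ∫ v, 64 / L ^ 2 * ‖D v - g v‖ ^ 2 = 64 / L ^ 2 * ∫ v, ‖D v - g v‖ ^ 2 :=
    integral_const_mul _ _
  have h4 : ∫ v, ‖D v - g v‖ ^ 2 ≤ 2 * (∫ v, ‖D v‖ ^ 2) + 2 * ∫ v, ‖g v‖ ^ 2 := by
    rw [← integral_const_mul, ← integral_const_mul,
      ← integral_add (hD.sq.const_mul _) (hg.sq.const_mul _)]
    refine integral_mono hsq ((hD.sq.const_mul _).add (hg.sq.const_mul _)) fun v => ?_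
    have h5 : ‖D v - g v‖ ≤ ‖D v‖ + ‖g v‖ := norm_sub_le _ _
    have h6 : ‖D v - g v‖ ^ 2 ≤ (‖D v‖ + ‖g v‖) ^ 2 := by gcongr
    show ‖D v - g v‖ ^ 2 ≤ 2 * ‖D v‖ ^ 2 + 2 * ‖g v‖ ^ 2
    nlinarith [sq_nonneg (‖D v‖ - ‖g v‖)]
  calc _ ≤ 64 / L ^ 2 * ∫ v, ‖D v - g v‖ ^ 2 := (h1.trans h2).trans h3.le
    _ ≤ _ := by gcongr

theorem V_far (p : Par) {θ Cρ : ℝ} (hθ : 0 < θ) (hθ1 : θ ≤ 1) (hCρ : 0 ≤ Cρ) :
    ∃ C' : ℝ, 0 < C' ∧ ∀ a : ℝ, 1 ≤ a → ∃ q₀ : ℕ, ∀ q : ℕ, q₀ ≤ q → ∀ {dV Φ : ℝ}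
    {ι : Type} {s : Finset ι} {om : ι → ℝ} {lam al : ι → ℕ → ℂ} {S : Finset ℕ}
    {QG QH : Finset ℝ} {W V : ℝ → ℝ} {g : ι → ℝ → ℂ} {X : ι → LData},
    DFam p θ Cρ dV q Φ s om lam al S QG QH W V →
    (∀ i ∈ s, Mem p q S (lam i) (al i) (g i) (X i)) →
    ∑ i ∈ s, om i * (∫ v in Set.Iio (-(Real.log q / 4)),
        ‖(X i).Dd S (bb (al i)) ll v - g i v‖ ^ 2 * ‖win (a / Real.log q) v‖ ^ 2) ≤
      Φ * (a / Real.log q) ^ 2 * (C' / a) := by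
  obtain ⟨C₁, q₁, hC₁, hU⟩ := U_energy p (Cρ := Cρ) hθ hθ1 hCρ
  obtain ⟨C₂, hC₂, hg⟩ := gc_L p
  refine ⟨64 * (4 * C₁ + 2 * C₂), by positivity, fun a ha => ⟨max q₁ 2, fun q hq => ?_⟩⟩
  intro dV Φ ι s om lam al S QG QH W V g X hF hM
  have hq2 : 2 ≤ q := (le_max_right _ _).trans hq
  have hL : 0 < Real.log q := Real.log_pos (by exact_mod_cast hq2)
  have hE := hU q ((le_max_left _ _).trans hq) hF hM
  have hΦ : 0 ≤ Φ := (Finset.sum_nonneg hF.om_nonneg).trans hF.om_sum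
  set L := Real.log q with hLdef
  have hone : ∀ i ∈ s, om i * (∫ v in Set.Iio (-(L / 4)),
      ‖(X i).Dd S (bb (al i)) ll v - g i v‖ ^ 2 * ‖win (a / L) v‖ ^ 2) ≤
      64 / L ^ 2 * (4 * (om i * ∫ v in Set.Ioi 0, ‖(X i).fd S (bb (al i)) ll v‖ ^ 2) +
        2 * C₂ * om i) := by
    intro i hi
    have hgc := (hM i hi).gc
    have hn := gc_nice p hgc
    have h1 := kj1_one ((X i).Dd_nice S (bb (al i)) ll) hn hL (H := a / L)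
    have h2 : ∫ u, ‖(X i).Dd S (bb (al i)) ll u‖ ^ 2 =
        2 * ∫ v in Set.Ioi 0, ‖(X i).fd S (bb (al i)) ll v‖ ^ 2 :=
      ((X i).piece S (bb (al i)) ll (g i) hn).energy_half
    rw [h2] at h1
    have h3 := (hg (g i) hgc).2
    have h4 := hF.om_nonneg i hi
    calc _ ≤ om i * (64 / L ^ 2 * (2 * (2 * ∫ v in Set.Ioi 0, ‖(X i).fd S (bb (al i)) ll v‖ ^ 2) +
          2 * ∫ v, ‖g i v‖ ^ 2)) := by gcongr
      _ ≤ om i * (64 / L ^ 2 * (2 * (2 * ∫ v in Set.Ioi 0, ‖(X i).fd S (bb (al i)) ll v‖ ^ 2) +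
          2 * C₂)) := by gcongr
      _ = _ := by ring
  calc _ ≤ ∑ i ∈ s, 64 / L ^ 2 * (4 * (om i * ∫ v in Set.Ioi 0,
          ‖(X i).fd S (bb (al i)) ll v‖ ^ 2) + 2 * C₂ * om i) := Finset.sum_le_sum hone
    _ = 64 / L ^ 2 * (4 * (∑ i ∈ s, om i * ∫ v in Set.Ioi 0,
          ‖(X i).fd S (bb (al i)) ll v‖ ^ 2) + 2 * C₂ * ∑ i ∈ s, om i) := by
        rw [← Finset.mul_sum, Finset.sum_add_distrib, ← Finset.mul_sum, ← Finset.mul_sum]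
    _ ≤ 64 / L ^ 2 * (4 * (C₁ * Φ) + 2 * C₂ * Φ) := by
        have := hF.om_sum
        gcongr
    _ = Φ * (1 / L) ^ 2 * (64 * (4 * C₁ + 2 * C₂)) * 1 := by
        rw [div_pow]; ring
    _ ≤ Φ * (1 / L) ^ 2 * (64 * (4 * C₁ + 2 * C₂)) * a := by gcongr
    _ = _ := by
        have ha0 : a ≠ 0 := by positivity
        field_simp

end Pool.Agent.SGD
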