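import Pool.Agent.Lib_helper45.SGD.Defs
import Pool.Agent.Lib_helper45.SGDF.KB
import Pool.Agent.Lib_helper45.SGDF.KG2
import Pool.Agent.Lib_helper45.SGDF.KH1

/-!
# SGD block KJ2: the second integral, near part
-/

set_option autoImplicit false

namespace Pool.Agent.SGD

open Complex MeasureTheory Filter Topology
open Pool.Agent.SQS (hat)
open Pool.Agent.ABS (LData Nice oddZ win)
open scoped ENNReal

/-- exchange of a finite sum and an integral, with a majorant -/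
theorem kj2_exch {ι : Type} (s : Finset ι) (om : ι → ℝ) (f : ι → ℝ → ℝ) (G : ℝ → ℝ) (A : Set ℝ)
    (hA : MeasurableSet A) (hom : ∀ i ∈ s, 0 ≤ om i) (hf : ∀ i ∈ s, Measurable (f i))
    (hf0 : ∀ i ∈ s, ∀ v, 0 ≤ f i v) (hG : IntegrableOn G A)
    (h : ∀ v ∈ A, ∑ i ∈ s, om i * f i v ≤ G v) :
    ∑ i ∈ s, om i * ∫ v in A, f i v ≤ ∫ v in A, G v := by
  have h1 : ∀ i ∈ s, IntegrableOn (fun v => om i * f i v) A := by
    intro i hi
    refine Integrable.mono' hG ((hf i hi).const_mul _).aestronglyMeasurable ?_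
    rw [ae_restrict_iff' hA]
    refine Eventually.of_forall fun v hv => ?_
    rw [Real.norm_of_nonneg (mul_nonneg (hom i hi) (hf0 i hi v))]
    refine le_trans ?_ (h v hv)
    exact Finset.single_le_sum (f := fun i => om i * f i v)
      (fun j hj => mul_nonneg (hom j hj) (hf0 j hj v)) hi
  calc ∑ i ∈ s, om i * ∫ v in A, f i v = ∑ i ∈ s, ∫ v in A, om i * f i v := by
        refine Finset.sum_congr rfl fun i _ => ?_
        rw [integral_const_mul]
    _ = ∫ v in A, ∑ i ∈ s, om i * f i v := (integral_finsetSum s h1).symm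
    _ ≤ ∫ v in A, G v := setIntegral_mono_on (integrable_finsetSum s h1) hG hA h

theorem kj2_E_pos (p : Par) (v : ℝ) : 0 < p.E v := by unfold Par.E; positivity

theorem kj2_E_cont (p : Par) : Continuous p.E := by unfold Par.E; fun_prop

/-- the integral of `E` against the window -/
theorem kj2_I (p : Par) {H : ℝ} (hH : 0 ≤ H) (c : ℝ) :
    Integrable (fun v => p.E (v + c) * ‖win H v‖ ^ 2) ∧
      ∫ v, p.E (v + c) * ‖win H v‖ ^ 2 ≤ H ^ 2 * (4 / p.κ) := by
  obtain ⟨-, -, hE, hEv⟩ := exp_int p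
  have h1 : Integrable (fun v => H ^ 2 * p.E (v + c)) := (hE.comp_add_right c).const_mul _
  have hle : ∀ v, p.E (v + c) * ‖win H v‖ ^ 2 ≤ H ^ 2 * p.E (v + c) := by
    intro v
    rw [mul_comm]
    refine mul_le_mul_of_nonneg_right ?_ (kj2_E_pos p _).le
    exact pow_le_pow_left₀ (norm_nonneg _) (ABS.win_le hH v) 2
  have h2 : Integrable (fun v => p.E (v + c) * ‖win H v‖ ^ 2) := by
    refine Integrable.mono' h1 ?_ (Eventually.of_forall fun v => ?_)
    · exact (((kj2_E_cont p).comp (continuous_add_const c)).mul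
        ((ABS.win_continuous H).norm.pow 2)).aestronglyMeasurable
    · rw [Real.norm_of_nonneg (mul_nonneg (kj2_E_pos p _).le (by positivity))]
      exact hle v
  refine ⟨h2, (integral_mono h2 h1 hle).trans (le_of_eq ?_)⟩
  rw [integral_const_mul, integral_add_right_eq_self (fun v => p.E v) c, hEv]

/-- the integral of `E` against the window, `E` centered far away -/
theorem kj2_I2 (p : Par) {H : ℝ} (hH : 0 ≤ H) {D c : ℝ} (hD : 0 < D) (hc : 2 * D ≤ c) :
    ∫ v, p.E (v + c) * ‖win H v‖ ^ 2 ≤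
      H ^ 2 * (Real.exp (-(p.κ / 4 * D)) * (8 / p.κ)) + 4 / D ^ 2 * (4 / p.κ) := by
  obtain ⟨-, -, hE, hEv⟩ := exp_int p
  have hκ := p.hκ
  have i1 : Integrable (fun v => p.E ((v + c) / 2)) :=
    (hE.comp_div (by norm_num : (2 : ℝ) ≠ 0)).comp_add_right c
  have i1v : ∫ v, p.E ((v + c) / 2) = 8 / p.κ := by
    rw [integral_add_right_eq_self (fun v => p.E (v / 2)) c, Measure.integral_comp_div, hEv]
    rw [abs_of_pos (by norm_num : (0 : ℝ) < 2), smul_eq_mul]
    ring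
  have i2 : Integrable (fun v => p.E (v + c)) := hE.comp_add_right c
  have i2v : ∫ v, p.E (v + c) = 4 / p.κ := by
    rw [integral_add_right_eq_self (fun v => p.E v) c, hEv]
  have h1 : Integrable (fun v => H ^ 2 * (Real.exp (-(p.κ / 4 * D)) * p.E ((v + c) / 2)) +
      4 / D ^ 2 * p.E (v + c)) := ((i1.const_mul _).const_mul _).add (i2.const_mul _)
  have hle : ∀ v, p.E (v + c) * ‖win H v‖ ^ 2 ≤
      H ^ 2 * (Real.exp (-(p.κ / 4 * D)) * p.E ((v + c) / 2)) + 4 / D ^ 2 * p.E (v + c) := by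
    intro v
    have hE0 := (kj2_E_pos p (v + c)).le
    have hE2 := (kj2_E_pos p ((v + c) / 2)).le
    by_cases hv : -D ≤ v
    · have h2 : p.E (v + c) ≤ Real.exp (-(p.κ / 4 * D)) * p.E ((v + c) / 2) := by
        unfold Par.E
        rw [← Real.exp_add, Real.exp_le_exp]
        have h3 : |(v + c) / 2| = |v + c| / 2 := by rw [abs_div, abs_of_pos (by norm_num : (0:ℝ) < 2)]
        have h4 : D ≤ |v + c| := by
          rw [abs_of_nonneg (by linarith)]; linarith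
        rw [h3]
        nlinarith
      have h5 : ‖win H v‖ ^ 2 ≤ H ^ 2 := pow_le_pow_left₀ (norm_nonneg _) (ABS.win_le hH v) 2
      have h6 : p.E (v + c) * ‖win H v‖ ^ 2 ≤
          (Real.exp (-(p.κ / 4 * D)) * p.E ((v + c) / 2)) * H ^ 2 :=
        mul_le_mul h2 h5 (by positivity) (by positivity)
      have h7 : 0 ≤ 4 / D ^ 2 * p.E (v + c) := by positivity
      linarith
    · push Not at hv
      have hv0 : v ≠ 0 := by
        intro h0; rw [h0] at hv; linarith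
      have h2 : ‖win H v‖ ≤ 2 / D := by
        refine (ABS.win_le' H hv0).trans ?_
        have : D ≤ |v| := by rw [abs_of_neg (by linarith)]; linarith
        exact div_le_div_of_nonneg_left (by norm_num) hD this
      have h3 : ‖win H v‖ ^ 2 ≤ (2 / D) ^ 2 := pow_le_pow_left₀ (norm_nonneg _) h2 2
      have h4 : (2 / D) ^ 2 = 4 / D ^ 2 := by rw [div_pow]; norm_num
      rw [h4] at h3
      have h5 : p.E (v + c) * ‖win H v‖ ^ 2 ≤ p.E (v + c) * (4 / D ^ 2) :=
        mul_le_mul_of_nonneg_left h3 hE0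
      have h6 : 0 ≤ H ^ 2 * (Real.exp (-(p.κ / 4 * D)) * p.E ((v + c) / 2)) := by positivity
      linarith
  refine (integral_mono (kj2_I p hH c).1 h1 hle).trans (le_of_eq ?_)
  rw [integral_add ((i1.const_mul _).const_mul _) (i2.const_mul _), integral_const_mul,
    integral_const_mul, integral_const_mul, i1v, i2v]

/-- elements of `RG` are large -/
theorem kj2_RG {θ : ℝ} {q : ℕ} (hq : 2 ≤ q) {l : ℕ} (hl : l ∈ RG θ q) :
    2 ≤ l ∧ θ * Real.log q ≤ Real.log l := by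
  simp only [RG, Finset.mem_filter, Finset.mem_Icc] at hl
  obtain ⟨⟨h1, h2⟩, h3⟩ := hl
  refine ⟨h1, ?_⟩
  have hp : l.minFac.Prime := Nat.minFac_prime (by omega)
  have h4 := h3 l.minFac hp (Nat.minFac_dvd l)
  have h5 : (l.minFac : ℝ) ≤ l := by exact_mod_cast Nat.minFac_le (by omega)
  have hq0 : (0 : ℝ) < q := by positivity
  have h6 : (q : ℝ) ^ θ ≤ l := by linarith
  have h7 := Real.log_le_log (Real.rpow_pos_of_pos hq0 θ) h6
  rwa [Real.log_rpow hq0] at h7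

/-- the conditions on `q` -/
theorem kj2_q (p : Par) {θ : ℝ} (hθ : 0 < θ) {a : ℝ} (ha : 1 ≤ a) : ∃ q₀ : ℕ, ∀ q : ℕ, q₀ ≤ q →
    2 ≤ q ∧ a ≤ q ∧ Real.exp (-(p.κ / 4 * (θ * Real.log q / 2))) ≤ 1 / a ∧
      Real.log q * (q : ℝ) ^ (-p.δ) ≤ 1 := by
  have hκ := p.hκ
  have hlog : Tendsto (fun q : ℕ => Real.log (q : ℝ)) atTop atTop :=
    Real.tendsto_log_atTop.comp tendsto_natCast_atTop_atTop
  have e1 : ∀ᶠ q : ℕ in atTop, Real.exp (-(p.κ / 4 * (θ * Real.log q / 2))) ≤ 1 / a := by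
    have h1 : ∀ᶠ q : ℕ in atTop, Real.log a / (p.κ / 4 * (θ / 2)) ≤ Real.log (q : ℝ) :=
      hlog.eventually_ge_atTop _
    filter_upwards [h1] with q hq
    have h2 : 0 < p.κ / 4 * (θ / 2) := by positivity
    rw [div_le_iff₀ h2] at hq
    have h3 : (1 : ℝ) / a = Real.exp (-Real.log a) := by
      rw [Real.exp_neg, Real.exp_log (by linarith), one_div]
    rw [h3, Real.exp_le_exp]
    linarith
  have e2 : ∀ᶠ q : ℕ in atTop, Real.log q * (q : ℝ) ^ (-p.δ) ≤ 1 := by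
    have h1 := (isLittleO_log_rpow_atTop p.hδ).bound (by norm_num : (0 : ℝ) < 1)
    have h2 := tendsto_natCast_atTop_atTop.eventually h1
    filter_upwards [h2, eventually_ge_atTop 1] with q hq hq1
    have hq0 : (0 : ℝ) < q := by exact_mod_cast hq1
    have h3 : (0 : ℝ) < (q : ℝ) ^ p.δ := Real.rpow_pos_of_pos hq0 _
    rw [Real.norm_of_nonneg (Real.log_nonneg (by exact_mod_cast hq1)), one_mul,
      Real.norm_of_nonneg h3.le] at hq
    rw [Real.rpow_neg hq0.le, ← div_eq_mul_inv, div_le_one h3]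
    exact hq
  have e3 : ∀ᶠ q : ℕ in atTop, a ≤ (q : ℝ) := tendsto_natCast_atTop_atTop.eventually_ge_atTop a
  obtain ⟨q₀, h⟩ := eventually_atTop.1 ((eventually_ge_atTop 2).and (e3.and (e1.and e2)))
  exact ⟨q₀, h⟩

/-- the exponential tail -/
theorem kj2_tail (b : ℝ) : Integrable ((Set.Ioi b).indicator fun v => Real.exp (-(v - b))) ∧
    ∫ v, (Set.Ioi b).indicator (fun v => Real.exp (-(v - b))) v = 1 := by
  have e : (fun v : ℝ => Real.exp (-(v - b))) = fun v => Real.exp b * Real.exp (-v) := by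
    funext v; rw [← Real.exp_add]; congr 1; ring
  have h1 : IntegrableOn (fun v : ℝ => Real.exp (-(v - b))) (Set.Ioi b) := by
    rw [e]
    exact (integrableOn_exp_neg_Ioi b).const_mul _
  refine ⟨(integrable_indicator_iff measurableSet_Ioi).2 h1, ?_⟩
  rw [integral_indicator measurableSet_Ioi, e, integral_const_mul, integral_exp_neg_Ioi,
    ← Real.exp_add]
  simp

/-- the majorant and its integral -/
theorem kj2_AE (p : Par) {θ Cρ : ℝ} {q : ℕ} (Q₁ Q : Finset ℝ) (W : ℝ → ℝ) {H : ℝ} :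
    (fun v => AE p θ q Cρ Q₁ Q W (v + Real.log q / 2) * ‖win H v‖ ^ 2) = fun v =>
      ∑ r ∈ Q₁, W r * (p.E (v + Real.log r) * ‖win H v‖ ^ 2) +
      Cρ * ∑ l ∈ RG θ q, 1 / (l : ℝ) * ∑ r ∈ Q, W r *
        (p.E (v + Real.log (l * r)) * ‖win H v‖ ^ 2) := by
  funext v
  unfold AE
  rw [add_mul, Finset.sum_mul, mul_assoc Cρ, Finset.sum_mul]
  congr 1
  · refine Finset.sum_congr rfl fun r _ => ?_
    rw [show v + Real.log q / 2 + Real.log r - Real.log q / 2 = v + Real.log r by ring]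
    ring
  · congr 1
    refine Finset.sum_congr rfl fun l _ => ?_
    rw [mul_assoc, Finset.sum_mul]
    congr 1
    refine Finset.sum_congr rfl fun r _ => ?_
    rw [show v + Real.log q / 2 + Real.log (l * r) - Real.log q / 2 = v + Real.log (l * r) by ring]
    ring

theorem kj2_AE_int (p : Par) {θ Cρ : ℝ} {q : ℕ} (Q₁ Q : Finset ℝ) (W : ℝ → ℝ) {H : ℝ}
    (hH : 0 ≤ H) :
    Integrable (fun v => AE p θ q Cρ Q₁ Q W (v + Real.log q / 2) * ‖win H v‖ ^ 2) ∧
    ∫ v, AE p θ q Cρ Q₁ Q W (v + Real.log q / 2) * ‖win H v‖ ^ 2 =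
      ∑ r ∈ Q₁, W r * (∫ v, p.E (v + Real.log r) * ‖win H v‖ ^ 2) +
      Cρ * ∑ l ∈ RG θ q, 1 / (l : ℝ) * ∑ r ∈ Q, W r *
        (∫ v, p.E (v + Real.log (l * r)) * ‖win H v‖ ^ 2) := by
  have i1 : ∀ r ∈ Q₁, Integrable (fun v => W r * (p.E (v + Real.log r) * ‖win H v‖ ^ 2)) :=
    fun r _ => (kj2_I p hH _).1.const_mul _
  have i2 : ∀ l ∈ RG θ q, ∀ r ∈ Q,
      Integrable (fun v => W r * (p.E (v + Real.log (l * r)) * ‖win H v‖ ^ 2)) :=
    fun l _ r _ => (kj2_I p hH _).1.const_mul _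
  have i3 : ∀ l ∈ RG θ q, Integrable (fun v => 1 / (l : ℝ) * ∑ r ∈ Q, W r *
      (p.E (v + Real.log (l * r)) * ‖win H v‖ ^ 2)) :=
    fun l hl => (integrable_finsetSum _ (i2 l hl)).const_mul _
  have j1 := integrable_finsetSum _ i1
  have j2 : Integrable (fun v => Cρ * ∑ l ∈ RG θ q, 1 / (l : ℝ) * ∑ r ∈ Q, W r *
      (p.E (v + Real.log (l * r)) * ‖win H v‖ ^ 2)) := (integrable_finsetSum _ i3).const_mul _
  have e := kj2_AE p (θ := θ) (Cρ := Cρ) (q := q) Q₁ Q W (H := H)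
  refine ⟨by rw [e]; exact j1.add j2, ?_⟩
  have e' : ∫ v, AE p θ q Cρ Q₁ Q W (v + Real.log q / 2) * ‖win H v‖ ^ 2 =
      ∫ v, (∑ r ∈ Q₁, W r * (p.E (v + Real.log r) * ‖win H v‖ ^ 2) +
      Cρ * ∑ l ∈ RG θ q, 1 / (l : ℝ) * ∑ r ∈ Q, W r *
        (p.E (v + Real.log (l * r)) * ‖win H v‖ ^ 2)) := by
    rw [← e]
  rw [e', integral_add j1 j2, integral_finsetSum _ i1, integral_const_mul,
    integral_finsetSum _ i3]
  congr 1
  · exact Finset.sum_congr rfl fun r _ => integral_const_mul _ _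
  · congr 1
    refine Finset.sum_congr rfl fun l hl => ?_
    rw [integral_const_mul, integral_finsetSum _ (i2 l hl)]
    congr 1
    exact Finset.sum_congr rfl fun r _ => integral_const_mul _ _

theorem V_near (p : Par) : ∃ C : ℝ, 0 < C ∧ ∀ {θ Cρ : ℝ}, 0 < θ → θ ≤ 1 → 0 ≤ Cρ →
    ∃ C' : ℝ, 0 < C' ∧ ∀ a : ℝ, 1 ≤ a → ∃ q₀ : ℕ, ∀ q : ℕ, q₀ ≤ q → ∀ {dV Φ : ℝ}
    {ι : Type} {s : Finset ι} {om : ι → ℝ} {lam al : ι → ℕ → ℂ} {S : Finset ℕ}
    {QG QH : Finset ℝ} {W V : ℝ → ℝ} {g : ι → ℝ → ℂ} {X : ι → LData}, dV ≤ 1 →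
    DFam p θ Cρ dV q Φ s om lam al S QG QH W V →
    (∀ i ∈ s, Mem p q S (lam i) (al i) (g i) (X i)) →
    ∑ i ∈ s, om i * (∫ v in Set.Ici (-(Real.log q / 4)),
        ‖(X i).Dd S (bb (al i)) ll v - g i v‖ ^ 2 * ‖win (a / Real.log q) v‖ ^ 2) ≤
      Φ * (a / Real.log q) ^ 2 * (C * dV + C' / a) := by
  have hκ := p.hκ
  obtain ⟨C1, q1, hC1, hM⟩ := mean_sq p
  refine ⟨C1 * (4 / p.κ), by positivity, ?_⟩
  intro θ Cρ hθ hθ1 hCρ
  obtain ⟨CR, hCR, hR⟩ := rough_count hθ hθ1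
  have hC2 := p.hC₂
  refine ⟨C1 * (Cρ * CR * (p.C₂ + 1) * (8 / p.κ + 64 / (p.κ * θ ^ 2))) +
    C1 * (2 * Real.pi) + 1, by positivity, ?_⟩
  intro a ha
  obtain ⟨q2, hq2⟩ := kj2_q p hθ ha
  refine ⟨max q1 q2, ?_⟩
  intro q hq dV Φ ι s om lam al S QG QH W V g X hdV hD hMem
  obtain ⟨hq2', haq, hexp, hlogq⟩ := hq2 q (le_trans (le_max_right _ _) hq)
  obtain ⟨-, hm2, -, hm4⟩ := hM q (le_trans (le_max_left _ _) hq) hCρ hD hMem
  have hq0 : (0 : ℝ) < q := by linarith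
  have hL : 0 < Real.log q := Real.log_pos (by exact_mod_cast hq2')
  obtain ⟨L, hLdef⟩ : ∃ L : ℝ, L = Real.log q := ⟨_, rfl⟩
  obtain ⟨H, hHdef⟩ : ∃ H : ℝ, H = a / Real.log q := ⟨_, rfl⟩
  rw [← hHdef]
  have hH : 0 ≤ H := by rw [hHdef]; positivity
  have hΦ : 0 ≤ Φ := (Finset.sum_nonneg hD.om_nonneg).trans hD.om_sum
  have hqδ : 0 ≤ (q : ℝ) ^ (-p.δ) := Real.rpow_nonneg hq0.le _
  have hVn : ∀ r ∈ QH.filter (fun r => r ≠ 1), 0 ≤ V r := fun r hr =>
    hD.V_nonneg r (Finset.mem_filter.1 hr).1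
  have hAE0 : ∀ x, 0 ≤ AE p θ q Cρ (QH.filter fun r => r ≠ 1) QH V x := by
    intro x
    unfold AE
    refine add_nonneg (Finset.sum_nonneg fun r hr =>
      mul_nonneg (kj2_E_pos p _).le (hVn r hr)) (mul_nonneg hCρ (Finset.sum_nonneg fun l _ =>
      mul_nonneg (by positivity) (Finset.sum_nonneg fun r hr =>
      mul_nonneg (kj2_E_pos p _).le (hD.V_nonneg r hr))))
  obtain ⟨hAi, hAv⟩ := kj2_AE_int p (θ := θ) (Cρ := Cρ) (q := q)
    (QH.filter fun r => r ≠ 1) QH V hH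
  obtain ⟨hwi, hwv⟩ := ABS.win_sq hH
  obtain ⟨hti, htv⟩ := kj2_tail (Real.log q / 2)
  -- the majorant
  have hGi : Integrable (fun v => C1 * Φ * (AE p θ q Cρ (QH.filter fun r => r ≠ 1) QH V
      (v + Real.log q / 2) * ‖win H v‖ ^ 2) + C1 * Φ * (q : ℝ) ^ (-p.δ) * ‖win H v‖ ^ 2 +
      Φ / q * H ^ 2 * (Set.Ioi (Real.log q / 2)).indicator
        (fun v => Real.exp (-(v - Real.log q / 2))) v) :=
    ((hAi.const_mul _).add (hwi.const_mul _)).add (hti.const_mul _)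
  have hG0 : ∀ v, 0 ≤ C1 * Φ * (AE p θ q Cρ (QH.filter fun r => r ≠ 1) QH V
      (v + Real.log q / 2) * ‖win H v‖ ^ 2) + C1 * Φ * (q : ℝ) ^ (-p.δ) * ‖win H v‖ ^ 2 +
      Φ / q * H ^ 2 * (Set.Ioi (Real.log q / 2)).indicator
        (fun v => Real.exp (-(v - Real.log q / 2))) v := by
    intro v
    have h1 := hAE0 (v + Real.log q / 2)
    have h2 : 0 ≤ (Set.Ioi (Real.log q / 2)).indicator
        (fun v => Real.exp (-(v - Real.log q / 2))) v :=
      Set.indicator_nonneg (fun _ _ => (Real.exp_pos _).le) v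
    positivity
  have hmain := kj2_exch s om (fun i v => ‖(X i).Dd S (bb (al i)) ll v - g i v‖ ^ 2 *
      ‖win H v‖ ^ 2) _ (Set.Ici (-(Real.log q / 4))) measurableSet_Ici hD.om_nonneg
    (fun i hi => by
      have h1 := ((X i).Dd_nice S (bb (al i)) ll).meas
      have h2 : Measurable (g i) := (hMem i hi).gc.cont.measurable
      exact ((h1.sub h2).norm.pow_const 2).mul
        ((ABS.win_continuous H).measurable.norm.pow_const 2))
    (fun i _ v => by positivity) hGi.integrableOn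
    (fun v hv => by
      have hv' : -(Real.log q / 4) ≤ v := hv
      have e1 : ∑ i ∈ s, om i * (‖(X i).Dd S (bb (al i)) ll v - g i v‖ ^ 2 * ‖win H v‖ ^ 2) =
          (∑ i ∈ s, om i * ‖(X i).Dd S (bb (al i)) ll v - g i v‖ ^ 2) * ‖win H v‖ ^ 2 := by
        rw [Finset.sum_mul]
        exact Finset.sum_congr rfl fun i _ => by ring
      rw [e1]
      have hw2 : ‖win H v‖ ^ 2 ≤ H ^ 2 := pow_le_pow_left₀ (norm_nonneg _) (ABS.win_le hH v) 2
      have hA1 := hAE0 (v + Real.log q / 2)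
      by_cases hvL : v ∈ Set.Ioi (Real.log q / 2)
      · have hvL' : Real.log q / 2 < v := hvL
        have h4 := hm4 (v + Real.log q / 2) (by linarith)
        rw [show v + Real.log q / 2 - Real.log q / 2 = v by ring,
          show v + Real.log q / 2 - Real.log q = v - Real.log q / 2 by ring] at h4
        rw [Set.indicator_of_mem hvL]
        have h5 := mul_le_mul_of_nonneg_right h4 (by positivity : 0 ≤ ‖win H v‖ ^ 2)
        have h6 : Φ / q * Real.exp (-(v - Real.log q / 2)) * ‖win H v‖ ^ 2 ≤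
            Φ / q * Real.exp (-(v - Real.log q / 2)) * H ^ 2 :=
          mul_le_mul_of_nonneg_left hw2 (by positivity)
        have h7 : 0 ≤ C1 * Φ * (AE p θ q Cρ (QH.filter fun r => r ≠ 1) QH V
          (v + Real.log q / 2) * ‖win H v‖ ^ 2) := by positivity
        have h8 : 0 ≤ C1 * Φ * (q : ℝ) ^ (-p.δ) * ‖win H v‖ ^ 2 := by positivity
        linarith
      · rw [Set.indicator_of_notMem hvL]
        have h4 := hm2 (v + Real.log q / 2) (by linarith)
        rw [show v + Real.log q / 2 - Real.log q / 2 = v by ring] at h4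
        have h5 := mul_le_mul_of_nonneg_right h4 (by positivity : 0 ≤ ‖win H v‖ ^ 2)
        linarith)
  refine hmain.trans ?_
  refine (setIntegral_le_integral hGi (Eventually.of_forall hG0)).trans ?_
  have h12 : Integrable (fun v => C1 * Φ * (AE p θ q Cρ (QH.filter fun r => r ≠ 1) QH V
      (v + Real.log q / 2) * ‖win H v‖ ^ 2) + C1 * Φ * (q : ℝ) ^ (-p.δ) * ‖win H v‖ ^ 2) :=
    (hAi.const_mul _).add (hwi.const_mul _)
  rw [integral_add h12 (hti.const_mul _),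
    integral_add (hAi.const_mul _) (hwi.const_mul _), integral_const_mul, integral_const_mul,
    integral_const_mul, hAv, hwv, htv]
  -- the first sum
  have b1 : ∑ r ∈ QH.filter (fun r => r ≠ 1), V r *
      (∫ v, p.E (v + Real.log r) * ‖win H v‖ ^ 2) ≤ dV * (H ^ 2 * (4 / p.κ)) := by
    have h1 : ∑ r ∈ QH.filter (fun r => r ≠ 1), V r *
        (∫ v, p.E (v + Real.log r) * ‖win H v‖ ^ 2) ≤
        ∑ r ∈ QH.filter (fun r => r ≠ 1), V r * (H ^ 2 * (4 / p.κ)) :=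
      Finset.sum_le_sum fun r hr => mul_le_mul_of_nonneg_left (kj2_I p hH _).2 (hVn r hr)
    refine h1.trans ?_
    rw [← Finset.sum_mul]
    exact mul_le_mul_of_nonneg_right hD.V_sum (by positivity)
  -- the sum of all V
  have hVall : ∑ r ∈ QH, V r ≤ p.C₂ + 1 := by
    have h1 : ∑ r ∈ QH, V r = ∑ r ∈ QH.filter (fun r => r ≠ 1), V r +
        ∑ r ∈ QH.filter (fun r => ¬ r ≠ 1), V r :=
      (Finset.sum_filter_add_sum_filter_not QH (fun r => r ≠ 1) V).symm
    have h2 : ∑ r ∈ QH.filter (fun r => ¬ r ≠ 1), V r ≤ p.C₂ := by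
      by_cases h1' : (1 : ℝ) ∈ QH
      · have e : QH.filter (fun r => ¬ r ≠ 1) = {1} := by
          ext r
          rw [Finset.mem_filter, Finset.mem_singleton, not_not]
          exact ⟨fun h => h.2, fun h => ⟨h ▸ h1', h⟩⟩
        rw [e, Finset.sum_singleton]
        exact hD.V_one
      · have e : QH.filter (fun r => ¬ r ≠ 1) = ∅ := by
          rw [Finset.filter_eq_empty_iff]
          intro r hr h
          rw [not_not] at h
          exact h1' (h ▸ hr)
        rw [e, Finset.sum_empty]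
        exact hC2
    rw [h1]
    linarith [hD.V_sum]
  have hV0 : 0 ≤ ∑ r ∈ QH, V r := Finset.sum_nonneg hD.V_nonneg
  have hHL : H * Real.log q = a := by rw [hHdef]; field_simp
  obtain ⟨M2, hM2⟩ : ∃ M2 : ℝ, M2 = H ^ 2 / a * (8 / p.κ + 64 / (p.κ * θ ^ 2)) := ⟨_, rfl⟩
  have hM20 : 0 ≤ M2 := by rw [hM2]; positivity
  have b2' : ∀ l ∈ RG θ q, ∀ r ∈ QH,
      ∫ v, p.E (v + Real.log (l * r)) * ‖win H v‖ ^ 2 ≤ M2 := by
    intro l hl r hr
    obtain ⟨hl2, hll⟩ := kj2_RG hq2' hl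
    have hr1 := hD.QH_one r hr
    have hl0 : (0 : ℝ) < l := by positivity
    have hlog : θ * Real.log q ≤ Real.log (l * r) := by
      rw [Real.log_mul hl0.ne' (by linarith)]
      have := Real.log_nonneg hr1
      linarith
    have hD0 : 0 < θ * Real.log q / 2 := by positivity
    have h1 := kj2_I2 p hH hD0 (c := Real.log (l * r)) (by linarith)
    refine h1.trans ?_
    have h2 : H ^ 2 * (Real.exp (-(p.κ / 4 * (θ * Real.log q / 2))) * (8 / p.κ)) ≤
        H ^ 2 * (1 / a * (8 / p.κ)) :=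
      mul_le_mul_of_nonneg_left (mul_le_mul_of_nonneg_right hexp (by positivity)) (by positivity)
    have h3 : 4 / (θ * Real.log q / 2) ^ 2 * (4 / p.κ) = H ^ 2 / a ^ 2 * (64 / (p.κ * θ ^ 2)) := by
      have ha0 : a ≠ 0 := by linarith
      rw [hHdef]
      field_simp
      ring
    have h4 : H ^ 2 / a ^ 2 ≤ H ^ 2 / a := by
      refine div_le_div_of_nonneg_left (by positivity) (by linarith) ?_
      nlinarith
    have h5 : H ^ 2 / a ^ 2 * (64 / (p.κ * θ ^ 2)) ≤ H ^ 2 / a * (64 / (p.κ * θ ^ 2)) :=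
      mul_le_mul_of_nonneg_right h4 (by positivity)
    rw [h3, hM2]
    have h6 : H ^ 2 / a * (8 / p.κ + 64 / (p.κ * θ ^ 2)) =
        H ^ 2 * (1 / a * (8 / p.κ)) + H ^ 2 / a * (64 / (p.κ * θ ^ 2)) := by ring
    rw [h6]
    linarith
  have b2 : ∑ l ∈ RG θ q, 1 / (l : ℝ) * ∑ r ∈ QH, V r *
      (∫ v, p.E (v + Real.log (l * r)) * ‖win H v‖ ^ 2) ≤ CR * ((p.C₂ + 1) * M2) := by
    have h1 : ∑ l ∈ RG θ q, 1 / (l : ℝ) * ∑ r ∈ QH, V r *
        (∫ v, p.E (v + Real.log (l * r)) * ‖win H v‖ ^ 2) ≤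
        ∑ l ∈ RG θ q, 1 / (l : ℝ) * ((p.C₂ + 1) * M2) := by
      refine Finset.sum_le_sum fun l hl => mul_le_mul_of_nonneg_left ?_ (by positivity)
      have h2 : ∑ r ∈ QH, V r * (∫ v, p.E (v + Real.log (l * r)) * ‖win H v‖ ^ 2) ≤
          ∑ r ∈ QH, V r * M2 :=
        Finset.sum_le_sum fun r hr => mul_le_mul_of_nonneg_left (b2' l hl r hr) (hD.V_nonneg r hr)
      refine h2.trans ?_
      rw [← Finset.sum_mul]
      exact mul_le_mul_of_nonneg_right hVall hM20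
    refine h1.trans ?_
    rw [← Finset.sum_mul]
    exact mul_le_mul_of_nonneg_right (hR q hq2').1 (by positivity)
  have b3 : (q : ℝ) ^ (-p.δ) * (2 * Real.pi * H) ≤ 2 * Real.pi * (H ^ 2 / a) := by
    have h1 : H ^ 2 / a = H / Real.log q := by
      rw [hHdef]; field_simp
    rw [h1]
    have h2 : (q : ℝ) ^ (-p.δ) ≤ 1 / Real.log q := by
      rw [le_div_iff₀ hL]; linarith
    have h3 := mul_le_mul_of_nonneg_right h2 (by positivity : 0 ≤ 2 * Real.pi * H)
    refine h3.trans (le_of_eq ?_)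
    ring
  have b4 : Φ / q * H ^ 2 * 1 ≤ Φ * (H ^ 2 / a) := by
    have h1 : Φ / q ≤ Φ / a := div_le_div_of_nonneg_left hΦ (by linarith) haq
    have h2 := mul_le_mul_of_nonneg_right h1 (by positivity : 0 ≤ H ^ 2)
    rw [mul_one]
    refine h2.trans (le_of_eq ?_)
    ring
  have hC1Φ : 0 ≤ C1 * Φ := by positivity
  have c12 := mul_le_mul_of_nonneg_left (add_le_add b1 (mul_le_mul_of_nonneg_left b2 hCρ)) hC1Φ
  have c3 := mul_le_mul_of_nonneg_left b3 hC1Φ
  have e3 : C1 * Φ * (q : ℝ) ^ (-p.δ) * (2 * Real.pi * H) =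
      C1 * Φ * ((q : ℝ) ^ (-p.δ) * (2 * Real.pi * H)) := by ring
  rw [e3]
  refine (add_le_add (add_le_add c12 c3) b4).trans (le_of_eq ?_)
  rw [hM2]
  ring


end Pool.Agent.SGD
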