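import Pool.Agent.Lib_helper45.SGD.Defs
import Pool.Agent.Lib_helper45.SGDF.KJ1
import Pool.Agent.Lib_helper45.SGDF.KJ2

/-!
# SGN part D, block KJ3: the second integral
-/

set_option autoImplicit false

namespace Pool.Agent.SGD

open Complex MeasureTheory Filter Topology
open Pool.Agent.SQS (hat)
open Pool.Agent.ABS (LData Nice oddZ win)
open scoped ENNReal

theorem kj3_split {f : ℝ → ℝ} (hf : ∀ v, 0 ≤ f v) (c : ℝ) :
    ∫ v, f v ≤ (∫ v in Set.Iio c, f v) + ∫ v in Set.Ici c, f v := by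
  by_cases h : Integrable f
  · have h1 := integral_add_compl (μ := volume) (measurableSet_Iio (a := c)) h
    rw [Set.compl_Iio] at h1
    exact h1.ge
  · rw [integral_undef h]
    exact add_nonneg (integral_nonneg fun v => hf v) (integral_nonneg fun v => hf v)

theorem V_win (p : Par) : ∃ C : ℝ, 0 < C ∧ ∀ {θ Cρ : ℝ}, 0 < θ → θ ≤ 1 → 0 ≤ Cρ →
    ∃ C' : ℝ, 0 < C' ∧ ∀ a : ℝ, 1 ≤ a → ∃ q₀ : ℕ, ∀ q : ℕ, q₀ ≤ q → ∀ {dV Φ : ℝ}
    {ι : Type} {s : Finset ι} {om : ι → ℝ} {lam al : ι → ℕ → ℂ} {S : Finset ℕ}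
    {QG QH : Finset ℝ} {W V : ℝ → ℝ} {g : ι → ℝ → ℂ} {X : ι → LData}, dV ≤ 1 →
    DFam p θ Cρ dV q Φ s om lam al S QG QH W V →
    (∀ i ∈ s, Mem p q S (lam i) (al i) (g i) (X i)) →
    ∑ i ∈ s, om i * (∫ v : ℝ, ‖(X i).Dd S (bb (al i)) ll v - g i v‖ ^ 2 *
        ‖win (a / Real.log q) v‖ ^ 2) ≤
      Φ * (a / Real.log q) ^ 2 * (C * dV + C' / a) := by
  obtain ⟨C, hC, hnear⟩ := V_near p
  refine ⟨C, hC, fun {θ Cρ} hθ hθ1 hCρ => ?_⟩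
  obtain ⟨C1, hC1, h1⟩ := hnear hθ hθ1 hCρ
  obtain ⟨C2, hC2, h2⟩ := V_far p hθ hθ1 hCρ
  refine ⟨C1 + C2, by positivity, fun a ha => ?_⟩
  obtain ⟨q1, hq1⟩ := h1 a ha
  obtain ⟨q2, hq2⟩ := h2 a ha
  refine ⟨max q1 q2, fun q hq => ?_⟩
  intro dV Φ ι s om lam al S QG QH W V g X hdV hF hM
  have e1 := hq1 q ((le_max_left _ _).trans hq) hdV hF hM
  have e2 := hq2 q ((le_max_right _ _).trans hq) hF hM
  have e3 : ∑ i ∈ s, om i * (∫ v : ℝ, ‖(X i).Dd S (bb (al i)) ll v - g i v‖ ^ 2 *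
        ‖win (a / Real.log q) v‖ ^ 2) ≤
      ∑ i ∈ s, om i * (∫ v in Set.Iio (-(Real.log q / 4)),
        ‖(X i).Dd S (bb (al i)) ll v - g i v‖ ^ 2 * ‖win (a / Real.log q) v‖ ^ 2) +
      ∑ i ∈ s, om i * (∫ v in Set.Ici (-(Real.log q / 4)),
        ‖(X i).Dd S (bb (al i)) ll v - g i v‖ ^ 2 * ‖win (a / Real.log q) v‖ ^ 2) := by
    rw [← Finset.sum_add_distrib]
    refine Finset.sum_le_sum fun i hi => ?_
    rw [← mul_add]
    exact mul_le_mul_of_nonneg_left (kj3_split (fun v => by positivity) _) (hF.om_nonneg i hi)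
  refine e3.trans ((add_le_add e2 e1).trans (le_of_eq ?_))
  ring

end Pool.Agent.SGD
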