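import Pool.Agent.Lib_helper45.SGD.Defs
import Pool.Agent.Lib_helper45.SGDF.KA
import Pool.Agent.Lib_helper45.SGDF.KI2
import Pool.Agent.Lib_helper45.SGDF.KJ3

/-!
# SGD block KN: D-core, distribution of the zeros
-/

set_option autoImplicit false

namespace Pool.Agent.SGD

open Complex MeasureTheory Filter Topology
open Pool.Agent.SQS (hat)
open Pool.Agent.ABS (LData Nice oddZ win)
open scoped ENNReal

/-- the points of `(α, β)` which are followed by no zero of odd order within the distance `H` -/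
def GapSet (Λ : ℂ → ℂ) (α β H : ℝ) : Set ℝ :=
  {t : ℝ | α < t ∧ t < β ∧ ∀ s : ℝ, t < s → s < t + H → s ∉ oddZ Λ}

/-- the measure of the gaps of one member -/
theorem kn_one (p : Par) {α β : ℝ} (hα : |α| ≤ p.T) (hβ : |β| ≤ p.T)
    {S : Finset ℕ} {al : ℕ → ℂ} {g : ℝ → ℂ} {X : LData}
    (hg : p.GC g) {H : ℝ} (hH : 0 < H)
    (hwin : ∀ t : ℝ, |t| ≤ p.T → p.c₁ / 2 * H ≤ ‖∫ s in t..(t + H), hat g s‖) :
    H ^ 2 * (p.c₁ ^ 2 / 4) * volume.real (GapSet X.Λ α β H) ≤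
      8 * Real.pi * (∫ v in Set.Ioi 0, ‖X.fd S (bb al) ll v‖ ^ 2 * ‖win H v‖ ^ 2) +
      4 * Real.pi * ∫ v : ℝ, ‖X.Dd S (bb al) ll v - g v‖ ^ 2 * ‖win H v‖ ^ 2 := by
  have hn := gc_nice p hg
  have hc : 0 < p.c₁ := p.hc₁
  set P := X.piece S (bb al) ll g hn with hP
  obtain ⟨hU, hU2⟩ := P.U_one hH.le
  obtain ⟨hV, hV2⟩ := P.V_one hH.le
  set A : ℝ → ℝ := fun t => ‖hat (fun u => P.f u * win H u) t‖ with hA
  set B : ℝ → ℝ := fun t => ‖hat (fun u => (P.D u - P.g u) * win H u) t‖ with hB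
  have hint : Integrable (fun t => 2 * A t ^ 2 + 2 * B t ^ 2) :=
    (hU.const_mul 2).add (hV.const_mul 2)
  have hε : 0 < H ^ 2 * (p.c₁ ^ 2 / 4) := by positivity
  have hsub : GapSet X.Λ α β H ⊆ {t | H ^ 2 * (p.c₁ ^ 2 / 4) ≤ 2 * A t ^ 2 + 2 * B t ^ 2} := by
    rintro t ⟨h1, h2, h3⟩
    have hno : ∀ s ∈ Set.Ioo t (t + H), s ∉ oddZ P.Λ := fun s hs => h3 s hs.1 hs.2
    have h4 := P.window hH.le hno
    have ht : |t| ≤ p.T := by
      rw [abs_le] at hα hβ ⊢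
      exact ⟨by linarith [hα.1], by linarith [hβ.2]⟩
    have h5 : p.c₁ / 2 * H ≤ A t + B t := (hwin t ht).trans h4
    have h6 : (p.c₁ / 2 * H) ^ 2 ≤ (A t + B t) ^ 2 := by gcongr
    show H ^ 2 * (p.c₁ ^ 2 / 4) ≤ 2 * A t ^ 2 + 2 * B t ^ 2
    nlinarith [sq_nonneg (A t - B t)]
  have hmono : volume.real (GapSet X.Λ α β H) ≤
      volume.real {t | H ^ 2 * (p.c₁ ^ 2 / 4) ≤ 2 * A t ^ 2 + 2 * B t ^ 2} :=
    measureReal_mono hsub (Integrable.measure_ge_lt_top hint hε).ne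
  have hmark := mul_meas_ge_le_integral_of_nonneg
    (Eventually.of_forall fun t => by positivity) hint (H ^ 2 * (p.c₁ ^ 2 / 4))
  rw [integral_add (hU.const_mul 2) (hV.const_mul 2), integral_const_mul,
    integral_const_mul] at hmark
  have hfin := (mul_le_mul_of_nonneg_left hmono hε.le).trans hmark
  refine hfin.trans (le_of_eq ?_)
  show 2 * (∫ t, ‖hat (fun u => P.f u * win H u) t‖ ^ 2) +
    2 * (∫ t, ‖hat (fun u => (P.D u - P.g u) * win H u) t‖ ^ 2) = _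
  rw [hU2, hV2]
  show 2 * (4 * Real.pi * ∫ v in Set.Ioi 0, ‖X.fd S (bb al) ll v‖ ^ 2 * ‖win H v‖ ^ 2) +
    2 * (2 * Real.pi * ∫ v : ℝ, ‖X.Dd S (bb al) ll v - g v‖ ^ 2 * ‖win H v‖ ^ 2) = _
  ring

theorem kn_Phi {p : Par} {θ Cρ dV : ℝ} {q : ℕ} {Φ : ℝ} {ι : Type} {s : Finset ι} {om : ι → ℝ}
    {lam al : ι → ℕ → ℂ} {S : Finset ℕ} {QG QH : Finset ℝ} {W V : ℝ → ℝ}
    (D : DFam p θ Cρ dV q Φ s om lam al S QG QH W V) : 0 ≤ Φ ∧ 0 ≤ dV :=
  ⟨(Finset.sum_nonneg D.om_nonneg).trans D.om_sum,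
    (Finset.sum_nonneg fun r hr => D.V_nonneg r (Finset.mem_filter.1 hr).1).trans D.V_sum⟩

/-- D-core, distribution form: on average over the family the set of the points of `(α, β)` which
are not followed by a zero of odd order within the distance `a / log q` is small -/
theorem d_core_gaps (p : Par) {α β : ℝ} (hα : |α| ≤ p.T) (hβ : |β| ≤ p.T) :
    ∃ C : ℝ, 0 < C ∧ ∀ {θ Cρ : ℝ}, 0 < θ → θ ≤ 1 → 0 ≤ Cρ →
    ∃ C' : ℝ, 0 < C' ∧ ∀ a : ℝ, 1 ≤ a → ∃ q₀ : ℕ, ∀ q : ℕ, q₀ ≤ q → ∀ {dV Φ : ℝ}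
    {ι : Type} {s : Finset ι} {om : ι → ℝ} {lam al : ι → ℕ → ℂ} {S : Finset ℕ}
    {QG QH : Finset ℝ} {W V : ℝ → ℝ} {g : ι → ℝ → ℂ} {X : ι → LData}, dV ≤ 1 →
    DFam p θ Cρ dV q Φ s om lam al S QG QH W V →
    (∀ i ∈ s, Mem p q S (lam i) (al i) (g i) (X i)) →
    ∑ i ∈ s, om i * volume.real (GapSet (X i).Λ α β (a / Real.log q)) ≤
      Φ * (C * (Real.exp (-(p.c₀ / (2 * θ))) + dV) + C' / a) := by
  have hpi := Real.pi_pos
  have hc₁ := p.hc₁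
  obtain ⟨H₀, hH₀, hwin⟩ := gc_win p
  obtain ⟨C₁, hC₁, hU⟩ := U_win p
  obtain ⟨C₂, hC₂, hV⟩ := V_win p
  set K : ℝ := p.c₁ ^ 2 / 4 with hK
  have hK0 : 0 < K := by positivity
  refine ⟨(8 * Real.pi * C₁ + 4 * Real.pi * C₂) / K, by positivity, ?_⟩
  intro θ Cρ hθ hθ1 hCρ
  obtain ⟨C₁', hC₁', hU⟩ := hU hθ hθ1 hCρ
  obtain ⟨C₂', hC₂', hV⟩ := hV hθ hθ1 hCρ
  refine ⟨(8 * Real.pi * C₁' + 4 * Real.pi * C₂') / K, by positivity, ?_⟩
  intro a ha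
  obtain ⟨q₁, hU⟩ := hU a ha
  obtain ⟨q₂, hV⟩ := hV a ha
  refine ⟨max (max q₁ q₂) (⌈Real.exp (a / H₀)⌉₊ + 2), ?_⟩
  intro q hq dV Φ ι s om lam al S QG QH W V g X hdV D hM
  have hq1 : q₁ ≤ q := (le_max_left _ _).trans ((le_max_left _ _).trans hq)
  have hq2 : q₂ ≤ q := (le_max_right _ _).trans ((le_max_left _ _).trans hq)
  have hq3 : ⌈Real.exp (a / H₀)⌉₊ + 2 ≤ q := (le_max_right _ _).trans hq
  have hqr : Real.exp (a / H₀) ≤ q := by
    refine (Nat.le_ceil _).trans ?_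
    exact_mod_cast (Nat.le_add_right _ 2).trans hq3
  have hlog : a / H₀ ≤ Real.log q := by
    rw [← Real.log_exp (a / H₀)]
    exact Real.log_le_log (Real.exp_pos _) hqr
  have ha0 : 0 < a := by linarith
  have hL0 : 0 < Real.log q := lt_of_lt_of_le (by positivity) hlog
  set H : ℝ := a / Real.log q with hH
  have hH0 : 0 < H := by positivity
  have hHH₀ : H ≤ H₀ := by
    rw [hH, div_le_iff₀ hL0]
    rw [div_le_iff₀ hH₀] at hlog
    linarith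
  obtain ⟨hΦ, hdV0⟩ := kn_Phi D
  have hU' := hU q hq1 D hM
  have hV' := hV q hq2 hdV D hM
  set A : ι → ℝ := fun i => ∫ v in Set.Ioi 0, ‖(X i).fd S (bb (al i)) ll v‖ ^ 2 *
    ‖win H v‖ ^ 2 with hA
  set B : ι → ℝ := fun i => ∫ v : ℝ, ‖(X i).Dd S (bb (al i)) ll v - g i v‖ ^ 2 *
    ‖win H v‖ ^ 2 with hB
  have hone : ∀ i ∈ s, H ^ 2 * K * volume.real (GapSet (X i).Λ α β H) ≤
      8 * Real.pi * A i + 4 * Real.pi * B i := by
    intro i hi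
    exact kn_one p hα hβ (hM i hi).gc hH0 (fun t ht => hwin (g i) (hM i hi).gc t ht H hH0.le hHH₀)
  have hsum : (∑ i ∈ s, om i * volume.real (GapSet (X i).Λ α β H)) * (H ^ 2 * K) ≤
      8 * Real.pi * (∑ i ∈ s, om i * A i) + 4 * Real.pi * ∑ i ∈ s, om i * B i := by
    calc (∑ i ∈ s, om i * volume.real (GapSet (X i).Λ α β H)) * (H ^ 2 * K)
        = ∑ i ∈ s, om i * (H ^ 2 * K * volume.real (GapSet (X i).Λ α β H)) := by
          rw [Finset.sum_mul]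
          exact Finset.sum_congr rfl fun i _ => by ring
      _ ≤ ∑ i ∈ s, om i * (8 * Real.pi * A i + 4 * Real.pi * B i) :=
          Finset.sum_le_sum fun i hi => mul_le_mul_of_nonneg_left (hone i hi) (D.om_nonneg i hi)
      _ = 8 * Real.pi * (∑ i ∈ s, om i * A i) + 4 * Real.pi * ∑ i ∈ s, om i * B i := by
          rw [Finset.mul_sum, Finset.mul_sum, ← Finset.sum_add_distrib]
          exact Finset.sum_congr rfl fun i _ => by ring
  have hfin : (∑ i ∈ s, om i * volume.real (GapSet (X i).Λ α β H)) * (H ^ 2 * K) ≤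
      8 * Real.pi * (Φ * H ^ 2 * (C₁ * Real.exp (-(p.c₀ / (2 * θ))) + C₁' / a)) +
      4 * Real.pi * (Φ * H ^ 2 * (C₂ * dV + C₂' / a)) := by
    refine hsum.trans ?_
    have h1 := mul_le_mul_of_nonneg_left hU' (show 0 ≤ 8 * Real.pi by positivity)
    have h2 := mul_le_mul_of_nonneg_left hV' (show 0 ≤ 4 * Real.pi by positivity)
    exact add_le_add h1 h2
  have hHK : 0 < H ^ 2 * K := by positivity
  rw [← le_div_iff₀ hHK] at hfin
  refine hfin.trans ?_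
  rw [div_le_iff₀ hHK]
  set e : ℝ := Real.exp (-(p.c₀ / (2 * θ))) with he
  have he0 : 0 < e := Real.exp_pos _
  have hid : Φ * ((8 * Real.pi * C₁ + 4 * Real.pi * C₂) / K * (e + dV) +
      (8 * Real.pi * C₁' + 4 * Real.pi * C₂') / K / a) * (H ^ 2 * K) =
      Φ * H ^ 2 * ((8 * Real.pi * C₁ + 4 * Real.pi * C₂) * (e + dV) +
        (8 * Real.pi * C₁' + 4 * Real.pi * C₂') / a) := by
    field_simp
  rw [hid]
  have hd : Φ * H ^ 2 * ((8 * Real.pi * C₁ + 4 * Real.pi * C₂) * (e + dV) +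
        (8 * Real.pi * C₁' + 4 * Real.pi * C₂') / a) -
      (8 * Real.pi * (Φ * H ^ 2 * (C₁ * e + C₁' / a)) +
      4 * Real.pi * (Φ * H ^ 2 * (C₂ * dV + C₂' / a))) =
      Φ * H ^ 2 * (8 * Real.pi * C₁ * dV + 4 * Real.pi * C₂ * e) := by ring
  have hn : 0 ≤ Φ * H ^ 2 * (8 * Real.pi * C₁ * dV + 4 * Real.pi * C₂ * e) := by positivity
  linarith

end Pool.Agent.SGD
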