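import Pool.Agent.Lib_helper45.SGDF.KK
import Pool.Agent.Lib_helper45.SGDF.KL
import Pool.Agent.Lib_helper45.SGDF.KM
import Pool.Agent.Lib_helper45.SGDF.KN

/-!
# SGN part D, core: `SGD.d_core`, `SGD.d_core_gaps`, `SGD.ldata_of`, `SGD.zeros_count`
-/
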