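import Pool.Agent.Lib_helper45.SGD.Defs
import Pool.Agent.Lib_helper45.SGDF.KA
import Pool.Agent.Lib_helper45.SGDF.KI2
import Pool.Agent.Lib_helper45.SGDF.KJ3

/-!
# SGD block KK: D-core
-/

set_option autoImplicit false

namespace Pool.Agent.SGD

open Complex MeasureTheory Filter Topology
open Pool.Agent.SQS (hat)
open Pool.Agent.ABS (LData Nice oddZ win)
open scoped ENNReal

/-- one member with few odd zeros -/
theorem kk_one (p : Par) {α β : ℝ} (hα : |α| ≤ p.T) (hβ : |β| ≤ p.T)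
    {S : Finset ℕ} {al : ℕ → ℂ} {g : ℝ → ℂ} {X : LData}
    (hg : p.GC g) {H : ℝ} (hH : 0 < H) (hH8 : H ≤ (β - α) / 8)
    (hwin : ∀ t : ℝ, |t| ≤ p.T → p.c₁ / 2 * H ≤ ‖∫ s in t..(t + H), hat g s‖)
    {m : ℕ} (hm : m * H ≤ 3 / 8 * (β - α))
    (hz : (oddZ X.Λ ∩ Set.Ioo α β).encard ≤ m) :
    H ^ 2 * (p.c₁ ^ 2 * (β - α) / 8) ≤
      8 * Real.pi * (∫ v in Set.Ioi 0, ‖X.fd S (bb al) ll v‖ ^ 2 * ‖win H v‖ ^ 2) +
      4 * Real.pi * ∫ v : ℝ, ‖X.Dd S (bb al) ll v - g v‖ ^ 2 * ‖win H v‖ ^ 2 := by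
  have hn := gc_nice p hg
  have hfin : (oddZ X.Λ ∩ Set.Ioo α β).Finite := by
    rw [← Set.encard_lt_top_iff]
    exact hz.trans_lt (ENat.natCast_lt_top _)
  have e0 : α + (β - α) = β := by ring
  have hc : (0 : ℝ) ≤ p.c₁ / 2 := by have := p.hc₁; linarith
  have key := (X.piece S (bb al) ll g hn).bad_one (T := p.T) (h := β - α) (c := p.c₁ / 2)
    (H := H) (x := α) hc hH
    (fun t ht ht' => hwin t (abs_le.2 ⟨ht, ht'⟩)) (abs_le.1 hα).1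
    (by rw [e0]; exact (abs_le.1 hβ).2) hH8 hfin.toFinset
    (fun t ht => by
      rw [e0] at ht
      exact hfin.mem_toFinset.2 ht)
    (by
      rw [hfin.encard_eq_coe_toFinset_card] at hz
      have h3 : hfin.toFinset.card ≤ m := by exact_mod_cast hz
      have h4 : (hfin.toFinset.card : ℝ) ≤ m := by exact_mod_cast h3
      exact (mul_le_mul_of_nonneg_right h4 hH.le).trans hm)
  rw [((X.piece S (bb al) ll g hn).U_one hH.le).2, ((X.piece S (bb al) ll g hn).V_one hH.le).2]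
    at key
  have e1 : (p.c₁ / 2 * H) ^ 2 * ((β - α) / 2) = H ^ 2 * (p.c₁ ^ 2 * (β - α) / 8) := by ring
  rw [e1] at key
  refine key.trans (le_of_eq ?_)
  show 2 * (4 * Real.pi * ∫ v in Set.Ioi 0, ‖X.fd S (bb al) ll v‖ ^ 2 * ‖win H v‖ ^ 2) +
    2 * (2 * Real.pi * ∫ v : ℝ, ‖X.Dd S (bb al) ll v - g v‖ ^ 2 * ‖win H v‖ ^ 2) = _
  ring

theorem kk_Phi {p : Par} {θ Cρ dV : ℝ} {q : ℕ} {Φ : ℝ} {ι : Type} {s : Finset ι} {om : ι → ℝ}
    {lam al : ι → ℕ → ℂ} {S : Finset ℕ} {QG QH : Finset ℝ} {W V : ℝ → ℝ}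
    (D : DFam p θ Cρ dV q Φ s om lam al S QG QH W V) : 0 ≤ Φ ∧ 0 ≤ dV :=
  ⟨(Finset.sum_nonneg D.om_nonneg).trans D.om_sum,
    (Finset.sum_nonneg fun r hr => D.V_nonneg r (Finset.mem_filter.1 hr).1).trans D.V_sum⟩

theorem d_core (p : Par) {α β : ℝ} (hαβ : α < β) (hα : |α| ≤ p.T) (hβ : |β| ≤ p.T) :
    ∃ C : ℝ, 0 < C ∧ ∀ {θ Cρ : ℝ}, 0 < θ → θ ≤ 1 → 0 ≤ Cρ →
    ∃ C' : ℝ, 0 < C' ∧ ∀ a : ℝ, 1 ≤ a → ∃ q₀ : ℕ, ∀ q : ℕ, q₀ ≤ q → ∀ {dV Φ : ℝ}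
    {ι : Type} {s : Finset ι} {om : ι → ℝ} {lam al : ι → ℕ → ℂ} {S : Finset ℕ}
    {QG QH : Finset ℝ} {W V : ℝ → ℝ} {g : ι → ℝ → ℂ} {X : ι → LData}, dV ≤ 1 →
    DFam p θ Cρ dV q Φ s om lam al S QG QH W V →
    (∀ i ∈ s, Mem p q S (lam i) (al i) (g i) (X i)) →
    ∀ s' ⊆ s, (∀ i ∈ s', (oddZ (X i).Λ ∩ Set.Ioo α β).encard ≤
      ⌊3 / 8 * (β - α) * Real.log q / a⌋₊) →
    ∑ i ∈ s', om i ≤ Φ * (C * (Real.exp (-(p.c₀ / (2 * θ))) + dV) + C' / a) := by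
  have hpi := Real.pi_pos
  have hc₁ := p.hc₁
  have hh : 0 < β - α := sub_pos.2 hαβ
  obtain ⟨H₀, hH₀, hwin⟩ := gc_win p
  obtain ⟨C₁, hC₁, hU⟩ := U_win p
  obtain ⟨C₂, hC₂, hV⟩ := V_win p
  set K : ℝ := p.c₁ ^ 2 * (β - α) / 8 with hK
  have hK0 : 0 < K := by positivity
  refine ⟨(8 * Real.pi * C₁ + 4 * Real.pi * C₂) / K, by positivity, ?_⟩
  intro θ Cρ hθ hθ1 hCρ
  obtain ⟨C₁', hC₁', hU⟩ := hU hθ hθ1 hCρ
  obtain ⟨C₂', hC₂', hV⟩ := hV hθ hθ1 hCρ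
  refine ⟨(8 * Real.pi * C₁' + 4 * Real.pi * C₂') / K, by positivity, ?_⟩
  intro a ha
  obtain ⟨q₁, hU⟩ := hU a ha
  obtain ⟨q₂, hV⟩ := hV a ha
  have hm0 : 0 < min H₀ ((β - α) / 8) := lt_min hH₀ (by positivity)
  refine ⟨max (max q₁ q₂) (⌈Real.exp (a / min H₀ ((β - α) / 8))⌉₊ + 2), ?_⟩
  intro q hq dV Φ ι s om lam al S QG QH W V g X hdV D hM s' hs' hbad
  have hq1 : q₁ ≤ q := (le_max_left _ _).trans ((le_max_left _ _).trans hq)
  have hq2 : q₂ ≤ q := (le_max_right _ _).trans ((le_max_left _ _).trans hq)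
  have hq3 : ⌈Real.exp (a / min H₀ ((β - α) / 8))⌉₊ + 2 ≤ q := (le_max_right _ _).trans hq
  have hqr : Real.exp (a / min H₀ ((β - α) / 8)) ≤ q := by
    refine (Nat.le_ceil _).trans ?_
    exact_mod_cast (Nat.le_add_right _ 2).trans hq3
  have hlog : a / min H₀ ((β - α) / 8) ≤ Real.log q := by
    rw [← Real.log_exp (a / min H₀ ((β - α) / 8))]
    exact Real.log_le_log (Real.exp_pos _) hqr
  have ha0 : 0 < a := by linarith
  have hL0 : 0 < Real.log q := lt_of_lt_of_le (by positivity) hlog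
  set H : ℝ := a / Real.log q with hH
  have hH0 : 0 < H := by positivity
  have hHm : H ≤ min H₀ ((β - α) / 8) := by
    rw [hH, div_le_iff₀ hL0]
    rw [div_le_iff₀ hm0] at hlog
    linarith
  have hHH₀ : H ≤ H₀ := hHm.trans (min_le_left _ _)
  have hH8 : H ≤ (β - α) / 8 := hHm.trans (min_le_right _ _)
  obtain ⟨hΦ, hdV0⟩ := kk_Phi D
  have hU' := hU q hq1 D hM
  have hV' := hV q hq2 hdV D hM
  set A : ι → ℝ := fun i => ∫ v in Set.Ioi 0, ‖(X i).fd S (bb (al i)) ll v‖ ^ 2 *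
    ‖win H v‖ ^ 2 with hA
  set B : ι → ℝ := fun i => ∫ v : ℝ, ‖(X i).Dd S (bb (al i)) ll v - g i v‖ ^ 2 *
    ‖win H v‖ ^ 2 with hB
  have hA0 : ∀ i, 0 ≤ A i := fun i => integral_nonneg fun v => by positivity
  have hB0 : ∀ i, 0 ≤ B i := fun i => integral_nonneg fun v => by positivity
  have hmH : ((⌊3 / 8 * (β - α) * Real.log q / a⌋₊ : ℕ) : ℝ) * H ≤ 3 / 8 * (β - α) := by
    have h1 : ((⌊3 / 8 * (β - α) * Real.log q / a⌋₊ : ℕ) : ℝ) ≤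
        3 / 8 * (β - α) * Real.log q / a := Nat.floor_le (by positivity)
    calc ((⌊3 / 8 * (β - α) * Real.log q / a⌋₊ : ℕ) : ℝ) * H
        ≤ 3 / 8 * (β - α) * Real.log q / a * (a / Real.log q) := by
          rw [hH]; gcongr
      _ = 3 / 8 * (β - α) := by field_simp
  have hone : ∀ i ∈ s', H ^ 2 * K ≤ 8 * Real.pi * A i + 4 * Real.pi * B i := by
    intro i hi
    exact kk_one p hα hβ (hM i (hs' hi)).gc hH0 hH8
      (fun t ht => hwin (g i) (hM i (hs' hi)).gc t ht H hH0.le hHH₀) hmH (hbad i hi)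
  have hsum : (∑ i ∈ s', om i) * (H ^ 2 * K) ≤
      8 * Real.pi * (∑ i ∈ s, om i * A i) + 4 * Real.pi * ∑ i ∈ s, om i * B i := by
    calc (∑ i ∈ s', om i) * (H ^ 2 * K) = ∑ i ∈ s', om i * (H ^ 2 * K) := by
          rw [Finset.sum_mul]
      _ ≤ ∑ i ∈ s', om i * (8 * Real.pi * A i + 4 * Real.pi * B i) :=
          Finset.sum_le_sum fun i hi =>
            mul_le_mul_of_nonneg_left (hone i hi) (D.om_nonneg i (hs' hi))
      _ ≤ ∑ i ∈ s, om i * (8 * Real.pi * A i + 4 * Real.pi * B i) := by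
          refine Finset.sum_le_sum_of_subset_of_nonneg hs' fun i hi _ => ?_
          have := D.om_nonneg i hi
          have := hA0 i
          have := hB0 i
          positivity
      _ = 8 * Real.pi * (∑ i ∈ s, om i * A i) + 4 * Real.pi * ∑ i ∈ s, om i * B i := by
          rw [Finset.mul_sum, Finset.mul_sum, ← Finset.sum_add_distrib]
          exact Finset.sum_congr rfl fun i _ => by ring
  have hfin : (∑ i ∈ s', om i) * (H ^ 2 * K) ≤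
      8 * Real.pi * (Φ * H ^ 2 * (C₁ * Real.exp (-(p.c₀ / (2 * θ))) + C₁' / a)) +
      4 * Real.pi * (Φ * H ^ 2 * (C₂ * dV + C₂' / a)) := by
    refine hsum.trans ?_
    have h1 := mul_le_mul_of_nonneg_left hU' (show 0 ≤ 8 * Real.pi by positivity)
    have h2 := mul_le_mul_of_nonneg_left hV' (show 0 ≤ 4 * Real.pi by positivity)
    exact add_le_add h1 h2
  have hHK : 0 < H ^ 2 * K := by positivity
  rw [← le_div_iff₀ hHK] at hfin
  refine hfin.trans ?_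
  rw [div_le_iff₀ hHK]
  set e : ℝ := Real.exp (-(p.c₀ / (2 * θ))) with he
  have he0 : 0 < e := Real.exp_pos _
  have hid : Φ * ((8 * Real.pi * C₁ + 4 * Real.pi * C₂) / K * (e + dV) +
      (8 * Real.pi * C₁' + 4 * Real.pi * C₂') / K / a) * (H ^ 2 * K) =
      Φ * H ^ 2 * ((8 * Real.pi * C₁ + 4 * Real.pi * C₂) * (e + dV) +
        (8 * Real.pi * C₁' + 4 * Real.pi * C₂') / a) := by
    field_simp
  rw [hid]
  have hd : Φ * H ^ 2 * ((8 * Real.pi * C₁ + 4 * Real.pi * C₂) * (e + dV) +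
        (8 * Real.pi * C₁' + 4 * Real.pi * C₂') / a) -
      (8 * Real.pi * (Φ * H ^ 2 * (C₁ * e + C₁' / a)) +
      4 * Real.pi * (Φ * H ^ 2 * (C₂ * dV + C₂' / a))) =
      Φ * H ^ 2 * (8 * Real.pi * C₁ * dV + 4 * Real.pi * C₂ * e) := by ring
  have hn : 0 ≤ Φ * H ^ 2 * (8 * Real.pi * C₁ * dV + 4 * Real.pi * C₂ * e) := by positivity
  linarith

end Pool.Agent.SGD
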